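import Pool.Agent.K1H80.AV.Tan2

/-!
# Closedness of the invariant differentials
-/

set_option autoImplicit false
set_option linter.unusedSectionVars false

namespace Pool.Agent.K1H80.AV

open MvPolynomial
open scoped Classical

variable {k K : Type} [Field k] [Field K] [Algebra k K]

/-- dual numbers over dual numbers, with the product of the two epsilons -/
noncomputable def epB (k K : Type) [Field k] [Field K] [Algebra k K] :
    Ep k K (DualNumber (DualNumber K)) where
  ι := (TrivSqZeroExt.inlAlgHom k (DualNumber K) (DualNumber K)).comp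
    (TrivSqZeroExt.inlAlgHom k K K)
  π := (TrivSqZeroExt.fstHom k K K).comp (TrivSqZeroExt.fstHom k (DualNumber K) (DualNumber K))
  e := TrivSqZeroExt.inr DualNumber.eps
  πι := fun a => rfl
  πe := rfl
  res := fun r => by
    apply TrivSqZeroExt.ext
    · simp
    · apply TrivSqZeroExt.ext
      · simp
      · simp
  inj := fun a h => by
    have h1 := congrArg (fun z => TrivSqZeroExt.snd (TrivSqZeroExt.snd z)) h
    simpa using h1
  loc := fun r hr => by
    rw [TrivSqZeroExt.isUnit_iff_isUnit_fst, TrivSqZeroExt.isUnit_iff_isUnit_fst]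
    exact (Ne.isUnit hr : _)

/-- the map of dual numbers of a homomorphism -/
noncomputable def gmap {S : Type} [CommRing S] [Algebra k S] (f : K →ₐ[k] S) :
    DualNumber K →ₐ[k] DualNumber S where
  toFun := fun z => TrivSqZeroExt.inl (f z.fst) + TrivSqZeroExt.inr (f z.snd)
  map_one' := by simp
  map_zero' := by simp
  map_add' := fun a b => by
    apply TrivSqZeroExt.ext <;> simp
  map_mul' := fun a b => by
    apply TrivSqZeroExt.ext <;> simp
  commutes' := fun t => by
    apply TrivSqZeroExt.ext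
    · simp [TrivSqZeroExt.algebraMap_eq_inl']
    · simp [TrivSqZeroExt.algebraMap_eq_inl']

/-- the homomorphism of a derivation acting on the dual numbers -/
noncomputable def gder (D : Derivation k K K) :
    DualNumber K →ₐ[k] DualNumber (DualNumber K) where
  toFun := fun z => TrivSqZeroExt.inl z +
    TrivSqZeroExt.inr (TrivSqZeroExt.inl (D z.fst) + TrivSqZeroExt.inr (D z.snd))
  map_one' := by
    apply TrivSqZeroExt.ext
    · simp
    · apply TrivSqZeroExt.ext <;> simp
  map_zero' := by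
    apply TrivSqZeroExt.ext
    · simp
    · apply TrivSqZeroExt.ext <;> simp
  map_add' := fun a b => by
    apply TrivSqZeroExt.ext
    · simp
    · apply TrivSqZeroExt.ext <;> simp
  map_mul' := fun a b => by
    apply TrivSqZeroExt.ext
    · simp
    · apply TrivSqZeroExt.ext
      · simp [D.leibniz]
        ring
      · simp [D.leibniz]
        ring
  commutes' := fun t => by
    apply TrivSqZeroExt.ext
    · simp [TrivSqZeroExt.algebraMap_eq_inl']
    · apply TrivSqZeroExt.ext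
      · simp [TrivSqZeroExt.algebraMap_eq_inl']
      · simp [TrivSqZeroExt.algebraMap_eq_inl']

namespace AbelianVariety

variable {N : ℕ} (A : AbelianVariety k N)

theorem aeval_oK (p : MvPolynomial (Fin N) k) :
    aeval (A.oK K) p = algebraMap k K (aeval A.o p) := by
  have h := comp_aeval_apply (f := A.o) (Algebra.ofId k K) p
  exact h.symm

/-- derivatives of tangent vectors at zero -/
noncomputable def Dw (D : Derivation k K K) (w : A.To K) : A.To K :=
  ⟨fun c => D (w.1 c), by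
    refine A.mem_To.2 ⟨fun i => ?_, ?_⟩
    · have h1 := congrArg D ((A.mem_To.1 w.2).1 i)
      rw [map_sum, map_zero] at h1
      rw [← h1]
      refine Finset.sum_congr rfl fun c _ => ?_
      rw [D.leibniz, aeval_oK, D.map_algebraMap, smul_zero, add_zero, smul_eq_mul]
    · rw [(A.mem_To.1 w.2).2, map_zero]⟩

/-- **The invariant differentials are closed.** -/
theorem ld_bracket (D D' : Derivation k K K) (x : A.Co K) :
    A.Dw D (A.ld D' x) = A.ld ⁅D, D'⁆ x + A.Dw D' (A.ld D x) := by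
  have i1 := (epD k K).isLocalRing
  have i2 := (epB k K).isLocalRing
  set ρ := epD k K with hρ
  set ρB := epB k K with hρB
  set H1 := gmap (hD ρ D) with hH1
  set H2 := gder D' with hH2
  set H4 := gmap ρ.ι with hH4
  set ι1 := TrivSqZeroExt.inlAlgHom k (DualNumber K) (DualNumber K) with hι1
  -- composites
  have e1 : H1.comp ρ.ι = ι1.comp (hD ρ D) := by
    apply AlgHom.ext
    intro a
    change TrivSqZeroExt.inl (hD ρ D a) + TrivSqZeroExt.inr (hD ρ D 0) =
      TrivSqZeroExt.inl (hD ρ D a)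
    rw [map_zero, TrivSqZeroExt.inr_zero, add_zero]
  have e2 : H2.comp ρ.ι = H4.comp (hD ρ D') := by
    apply AlgHom.ext
    intro a
    apply TrivSqZeroExt.ext
    · apply TrivSqZeroExt.ext
      · simp [hH2, hH4, gder, gmap, hD_apply, hρ, epD]
      · simp [hH2, hH4, gder, gmap, hD_apply, hρ, epD]
    · apply TrivSqZeroExt.ext
      · simp [hH2, hH4, gder, gmap, hD_apply, hρ, epD]
      · simp [hH2, hH4, gder, gmap, hD_apply, hρ, epD]
  have e3 : H4.comp ρ.ι = ι1.comp ρ.ι := by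
    apply AlgHom.ext
    intro a
    change TrivSqZeroExt.inl (ρ.ι a) + TrivSqZeroExt.inr (ρ.ι 0) = TrivSqZeroExt.inl (ρ.ι a)
    rw [map_zero, TrivSqZeroExt.inr_zero, add_zero]
  -- the two points
  have h1 : A.hom (S := DualNumber (DualNumber K)) H1 (A.hom (hD ρ D') (pt A.eqn x)) = A.hom (S := DualNumber (DualNumber K)) (ι1.comp ρ.ι) (pt A.eqn x) +
      A.hom (S := DualNumber (DualNumber K)) ι1 (pt A.eqn (A.co ρ (A.ld D x))) + A.hom (S := DualNumber (DualNumber K)) H1 (pt A.eqn (A.co ρ (A.ld D' x))) := by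
    rw [A.hom_hD ρ D' x, map_add, hom_comp, e1, ← hom_comp, A.hom_hD ρ D x, map_add, hom_comp]
  have h2 : A.hom (S := DualNumber (DualNumber K)) H2 (A.hom (hD ρ D) (pt A.eqn x)) = A.hom (S := DualNumber (DualNumber K)) (ι1.comp ρ.ι) (pt A.eqn x) +
      A.hom (S := DualNumber (DualNumber K)) H4 (pt A.eqn (A.co ρ (A.ld D' x))) + A.hom (S := DualNumber (DualNumber K)) H2 (pt A.eqn (A.co ρ (A.ld D x))) := by
    rw [A.hom_hD ρ D x, map_add, hom_comp, e2, ← hom_comp, A.hom_hD ρ D' x, map_add, hom_comp, e3]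
  -- their difference
  have h3 : A.hom (S := DualNumber (DualNumber K)) H1 (A.hom (hD ρ D') (pt A.eqn x)) =
      A.hom (S := DualNumber (DualNumber K)) H2 (A.hom (hD ρ D) (pt A.eqn x)) + pt A.eqn (A.co ρB (A.ld ⁅D, D'⁆ x)) := by
    obtain ⟨h, hT, h4⟩ := A.near' ρB (cmap H2 (cmap (hD ρ D) x)) (xK := x.1) (fun c => by
      change ρB.π (H2 (hD ρ D (x.1 c))) = x.1 c
      simp [hρB, epB, hH2, gder, hD_apply, hρ, epD]) (A.D_tangent ⁅D, D'⁆ x.2)
    rw [hom_pt, hom_pt, hom_pt, hom_pt]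
    refine Eq.trans ?_ h4
    congr 1
    apply Subtype.ext
    funext c
    change H1 (hD ρ D' (x.1 c)) = H2 (hD ρ D (x.1 c)) + ρB.e * ρB.ι (⁅D, D'⁆ (x.1 c))
    rw [Derivation.commutator_apply]
    apply TrivSqZeroExt.ext
    · apply TrivSqZeroExt.ext
      · simp [hH2, hH1, gder, gmap, hD_apply, hρ, epD, hρB, epB]
      · simp [hH2, hH1, gder, gmap, hD_apply, hρ, epD, hρB, epB]
    · apply TrivSqZeroExt.ext
      · simp [hH2, hH1, gder, gmap, hD_apply, hρ, epD, hρB, epB]
      · simp [hH2, hH1, gder, gmap, hD_apply, hρ, epD, hρB, epB]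
  have h4 : A.hom (S := DualNumber (DualNumber K)) H1 (pt A.eqn (A.co ρ (A.ld D' x))) = A.hom (S := DualNumber (DualNumber K)) H4 (pt A.eqn (A.co ρ (A.ld D' x))) +
      pt A.eqn (A.co ρB (A.Dw D (A.ld D' x))) := by
    obtain ⟨h, h5⟩ := A.near_o ρB (cmap H4 (A.co ρ (A.ld D' x))) (fun c => by
      change ρB.π (H4 (algebraMap k _ (A.o c) + ρ.e * ρ.ι ((A.ld D' x).1 c))) = A.oK K c
      simp [hρB, epB, hH4, gmap, hρ, epD, TrivSqZeroExt.algebraMap_eq_inl'])
      (A.Dw D (A.ld D' x))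
    rw [hom_pt, hom_pt]
    refine Eq.trans ?_ h5
    congr 1
    apply Subtype.ext
    funext c
    change H1 (algebraMap k _ (A.o c) + ρ.e * ρ.ι ((A.ld D' x).1 c)) =
      H4 (algebraMap k _ (A.o c) + ρ.e * ρ.ι ((A.ld D' x).1 c)) +
        ρB.e * ρB.ι (D ((A.ld D' x).1 c))
    apply TrivSqZeroExt.ext
    · apply TrivSqZeroExt.ext
      · simp [hH1, hH4, gmap, hD_apply, hρ, epD, hρB, epB, TrivSqZeroExt.algebraMap_eq_inl']
      · simp [hH1, hH4, gmap, hD_apply, hρ, epD, hρB, epB, TrivSqZeroExt.algebraMap_eq_inl']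
    · apply TrivSqZeroExt.ext
      · simp [hH1, hH4, gmap, hD_apply, hρ, epD, hρB, epB, TrivSqZeroExt.algebraMap_eq_inl']
      · simp [hH1, hH4, gmap, hD_apply, hρ, epD, hρB, epB, TrivSqZeroExt.algebraMap_eq_inl']
  have h5 : A.hom (S := DualNumber (DualNumber K)) H2 (pt A.eqn (A.co ρ (A.ld D x))) = A.hom (S := DualNumber (DualNumber K)) ι1 (pt A.eqn (A.co ρ (A.ld D x))) +
      pt A.eqn (A.co ρB (A.Dw D' (A.ld D x))) := by
    obtain ⟨h, h6⟩ := A.near_o ρB (cmap ι1 (A.co ρ (A.ld D x))) (fun c => by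
      change ρB.π (ι1 (algebraMap k _ (A.o c) + ρ.e * ρ.ι ((A.ld D x).1 c))) = A.oK K c
      simp [hρB, epB, hι1, hρ, epD, TrivSqZeroExt.algebraMap_eq_inl'])
      (A.Dw D' (A.ld D x))
    rw [hom_pt, hom_pt]
    refine Eq.trans ?_ h6
    congr 1
    apply Subtype.ext
    funext c
    change H2 (algebraMap k _ (A.o c) + ρ.e * ρ.ι ((A.ld D x).1 c)) =
      ι1 (algebraMap k _ (A.o c) + ρ.e * ρ.ι ((A.ld D x).1 c)) +
        ρB.e * ρB.ι (D' ((A.ld D x).1 c))
    apply TrivSqZeroExt.ext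
    · apply TrivSqZeroExt.ext
      · simp [hH2, hι1, gder, hρ, epD, hρB, epB, TrivSqZeroExt.algebraMap_eq_inl']
      · simp [hH2, hι1, gder, hρ, epD, hρB, epB, TrivSqZeroExt.algebraMap_eq_inl']
    · apply TrivSqZeroExt.ext
      · simp [hH2, hι1, gder, hρ, epD, hρB, epB, TrivSqZeroExt.algebraMap_eq_inl']
      · simp [hH2, hι1, gder, hρ, epD, hρB, epB, TrivSqZeroExt.algebraMap_eq_inl']
  apply A.co_inj ρB
  rw [A.co_add]
  rw [h1, h2, h4, h5] at h3
  have h6 : pt A.eqn (A.co ρB (A.Dw D (A.ld D' x))) = (A.hom (S := DualNumber (DualNumber K)) (ι1.comp ρ.ι) (pt A.eqn x) +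
      A.hom (S := DualNumber (DualNumber K)) ι1 (pt A.eqn (A.co ρ (A.ld D x))) + (A.hom (S := DualNumber (DualNumber K)) H4 (pt A.eqn (A.co ρ (A.ld D' x))) +
      pt A.eqn (A.co ρB (A.Dw D (A.ld D' x))))) - A.hom (S := DualNumber (DualNumber K)) (ι1.comp ρ.ι) (pt A.eqn x) -
      A.hom (S := DualNumber (DualNumber K)) ι1 (pt A.eqn (A.co ρ (A.ld D x))) - A.hom (S := DualNumber (DualNumber K)) H4 (pt A.eqn (A.co ρ (A.ld D' x))) := by
    abel
  rw [h6, h3]
  abel

end AbelianVariety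

end Pool.Agent.K1H80.AV
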