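import Mathlib

/-!
# Abelian varieties in projective space

Abelian varieties over a field `k`, with an embedding into projective space, are described by their
equations, by the group structures on the sets of points over all local `k`-algebras `R`, and by
polynomials for addition and subtraction. All abelian varieties, with all embeddings into projective
space, are of this form.
-/

set_option autoImplicit false

namespace Pool.Agent.K1H80.AV

open MvPolynomial

section defs

variable {k : Type} [Field k] {N e : ℕ}

/-- `x` consists of homogeneous coordinates of a point over the (local) ring `R` of the closed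
subscheme of the projective space with the equations `eqn i = 0`. -/
def IsCoord (eqn : Fin e → MvPolynomial (Fin N) k) {R : Type} [CommRing R] [Algebra k R]
    (x : Fin N → R) : Prop :=
  (∃ c, IsUnit (x c)) ∧ ∀ i, aeval x (eqn i) = 0

/-- Homogeneous coordinates of the same point differ by a unit. -/
def coordSetoid (eqn : Fin e → MvPolynomial (Fin N) k) (R : Type) [CommRing R] [Algebra k R] :
    Setoid {x : Fin N → R // IsCoord eqn x} where
  r x y := ∃ u : Rˣ, ∀ c, y.1 c = u * x.1 c
  iseqv :=
    { refl := fun x => ⟨1, fun c => by simp⟩
      symm := by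
        rintro x y ⟨u, hu⟩
        refine ⟨u⁻¹, fun c => ?_⟩
        rw [hu c, ← mul_assoc, Units.inv_mul, one_mul]
      trans := by
        rintro x y z ⟨u, hu⟩ ⟨v, hv⟩
        refine ⟨v * u, fun c => ?_⟩
        rw [hv c, hu c, Units.val_mul, mul_assoc] }

/-- The points over the local ring `R`. -/
def Point (eqn : Fin e → MvPolynomial (Fin N) k) (R : Type) [CommRing R] [Algebra k R] : Type :=
  Quotient (coordSetoid eqn R)

/-- The point with the homogeneous coordinates `x`. -/
def pt (eqn : Fin e → MvPolynomial (Fin N) k) {R : Type} [CommRing R] [Algebra k R]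
    (x : {x : Fin N → R // IsCoord eqn x}) : Point eqn R :=
  Quotient.mk (coordSetoid eqn R) x

/-- The tangent space of the affine cone at `x`. -/
def tangent (eqn : Fin e → MvPolynomial (Fin N) k) {K : Type} [Field K] [Algebra k K]
    (x : Fin N → K) : Submodule K (Fin N → K) where
  carrier := {v | ∀ i, ∑ c, aeval x (pderiv c (eqn i)) * v c = 0}
  add_mem' := fun {v w} hv hw i => by
    simp only [Pi.add_apply, mul_add, Finset.sum_add_distrib]
    rw [hv i, hw i, add_zero]
  zero_mem' := fun i => by simp
  smul_mem' := fun a v hv i => by
    have h : ∑ c, aeval x (pderiv c (eqn i)) * (a • v) c =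
        a * ∑ c, aeval x (pderiv c (eqn i)) * v c := by
      rw [Finset.mul_sum]
      exact Finset.sum_congr rfl fun c _ => by rw [Pi.smul_apply, smul_eq_mul]; ring
    rw [h, hv i, mul_zero]

/-- The families `p l` of polynomials in two sets of coordinates represent a map at the arguments
`x`, `y` and the value `z`: the values of all the families are multiples of `z`, and for at least one
family one of the values is a unit. -/
def Represents {r : ℕ} (p : Fin r → Fin N → MvPolynomial (Fin N ⊕ Fin N) k) {R : Type} [CommRing R]
    [Algebra k R] (x y z : Fin N → R) : Prop :=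
  (∀ l, ∃ s : R, ∀ c, aeval (Sum.elim x y) (p l c) = s * z c) ∧
    ∃ l c, IsUnit (aeval (Sum.elim x y) (p l c))

end defs

/-- An abelian variety over `k`, embedded into the projective space with `N` coordinates. -/
structure AbelianVariety (k : Type) [Field k] (N : ℕ) where
  /-- the dimension -/
  dim : ℕ
  /-- the number of equations -/
  e : ℕ
  /-- the equations -/
  eqn : Fin e → MvPolynomial (Fin N) k
  /-- the degrees of the equations -/
  deg : Fin e → ℕ
  homogeneous : ∀ i, (eqn i).IsHomogeneous (deg i)
  /-- the tangent spaces have dimension `dim` -/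
  smooth : ∀ (K : Type) [Field K] [Algebra k K] (x : Fin N → K), IsCoord eqn x →
    Module.finrank K (tangent eqn x) = dim + 1
  /-- the variety is geometrically irreducible and has dimension at least `dim`: over every
  extension field `K` of `k` there is a generic point `x` (forms over `K` which vanish at `x` vanish
  on the variety), with `dim` algebraically independent quotients of coordinates -/
  generic : ∀ (K : Type) [Field K] [Algebra k K], ∃ (Ω : Type) (_ : Field Ω) (_ : Algebra k Ω)
    (_ : Algebra K Ω) (_ : IsScalarTower k K Ω) (x : Fin N → Ω), IsCoord eqn x ∧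
    (∀ (f : MvPolynomial (Fin N) K) (d : ℕ), f.IsHomogeneous d → aeval x f = 0 →
      ∀ (Ω' : Type) [Field Ω'] [Algebra k Ω'] [Algebra K Ω'] [IsScalarTower k K Ω']
        (y : Fin N → Ω'), IsCoord eqn y → aeval y f = 0) ∧
    ∃ (b : Fin N) (a : Fin dim → Fin N), x b ≠ 0 ∧ AlgebraicIndependent K fun i => x (a i) / x b
  /-- the group structures -/
  grp : ∀ (R : Type) [CommRing R] [IsLocalRing R] [Algebra k R], AddCommGroup (Point eqn R)
  /-- the number of families of polynomials for addition and subtraction -/
  r : ℕ
  /-- polynomials for the addition -/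
  add : Fin r → Fin N → MvPolynomial (Fin N ⊕ Fin N) k
  /-- polynomials for the subtraction -/
  sub : Fin r → Fin N → MvPolynomial (Fin N ⊕ Fin N) k
  add_spec : ∀ (R : Type) [CommRing R] [IsLocalRing R] [Algebra k R]
    (x y z : {x : Fin N → R // IsCoord eqn x}),
    (grp R).add (pt eqn x) (pt eqn y) = pt eqn z → Represents add x.1 y.1 z.1
  sub_spec : ∀ (R : Type) [CommRing R] [IsLocalRing R] [Algebra k R]
    (x y z : {x : Fin N → R // IsCoord eqn x}),
    (grp R).sub (pt eqn x) (pt eqn y) = pt eqn z → Represents sub x.1 y.1 z.1

variable {k : Type} [Field k] {N : ℕ}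

instance (A : AbelianVariety k N) (R : Type) [CommRing R] [IsLocalRing R] [Algebra k R] :
    AddCommGroup (Point A.eqn R) := A.grp R

section sub

variable {F : Type} [Field F] [Algebra k F]

/-- The subscheme of `A` over `F` with the equations `G j = 0` has codimension at least two: at a
point `q` of it, with coordinates in a field extension of `F`, no `dim A - 1` quotients of
coordinates are algebraically independent over `F`. -/
def HasCodimTwo (A : AbelianVariety k N) {w : ℕ} (G : Fin w → MvPolynomial (Fin N) F) : Prop :=
  ∀ (K : Type) [Field K] [Algebra k K] [Algebra F K] [IsScalarTower k F K] (q : Fin N → K),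
    IsCoord A.eqn q → (∀ j, aeval q (G j) = 0) →
    ∀ b, q b ≠ 0 → ∀ a : Fin (A.dim - 1) → Fin N, ¬ AlgebraicIndependent F fun i => q (a i) / q b

/-- The subscheme of `A` over `F` with the equations `G j = 0` is reduced in codimension one: the
points `q` of it at which the differentials of all `G j` vanish on the tangent space of `A` (of its
affine cone) have codimension at least two. -/
def IsReducedInCodimOne (A : AbelianVariety k N) {w : ℕ} (G : Fin w → MvPolynomial (Fin N) F) :
    Prop :=
  ∀ (K : Type) [Field K] [Algebra k K] [Algebra F K] [IsScalarTower k F K] (q : Fin N → K),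
    IsCoord A.eqn q → (∀ j, aeval q (G j) = 0) →
    (∀ j, ∀ v ∈ tangent A.eqn q, ∑ c, aeval q (pderiv c (G j)) * v c = 0) →
    ∀ b, q b ≠ 0 → ∀ a : Fin (A.dim - 1) → Fin N, ¬ AlgebraicIndependent F fun i => q (a i) / q b

/-- The form `f` over `F` does not vanish on `A`. -/
def NonVanishing (A : AbelianVariety k N) (f : MvPolynomial (Fin N) F) : Prop :=
  ∃ (K : Type) (_ : Field K) (_ : Algebra k K) (_ : Algebra F K) (_ : IsScalarTower k F K)
    (x : Fin N → K), IsCoord A.eqn x ∧ aeval x f ≠ 0

end sub

end Pool.Agent.K1H80.AV
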