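import Pool.Agent.K1H80.EC.Amalg
import Pool.Agent.K1H80.EC.Exch

/-!
# Linear disjointness of constants, and amalgamation over independent elements
-/

set_option autoImplicit false
set_option linter.unusedSectionVars false

namespace Pool.Agent.K1H80.AV

open Pool.Agent.K1H80.EC (IsD isD_left isD_right exists_ext exists_der_ext)
open scoped Classical

/-- **Constants which are independent over the constants are independent.** -/
theorem indep_const {k E M Ω : Type} [Field k] [Field E] [Field M] [Field Ω] [Algebra k M]
    [Algebra k Ω] [Algebra E M] [Algebra M Ω] [Algebra E Ω] [IsScalarTower E M Ω]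
    (D : Derivation k M M) (D' : Derivation k Ω Ω)
    (hD : ∀ m, D' (algebraMap M Ω m) = algebraMap M Ω (D m))
    (hC : ∀ m : M, D m = 0 → ∃ e : E, algebraMap E M e = m) {β : Type} (b : β → Ω)
    (hb : ∀ i, D' (b i) = 0) (hind : AlgebraicIndependent E b) : AlgebraicIndependent M b := by
  have hmon : ∀ s : β →₀ ℕ, D' (s.prod fun i n => b i ^ n) = 0 := by
    intro s
    rw [Finsupp.prod]
    have h1 : ∀ t : Finset β, D' (∏ i ∈ t, b i ^ s i) = 0 := by
      intro t
      induction t using Finset.induction_on with
      | empty => rw [Finset.prod_empty, D'.map_one_eq_zero]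
      | insert a t ha ih =>
        rw [Finset.prod_insert ha, D'.leibniz, ih, D'.leibniz_pow, hb]
        simp
    exact h1 _
  have key : ∀ n : ℕ, ∀ p : MvPolynomial β M, p.support.card = n → MvPolynomial.aeval b p = 0 →
      p = 0 := by
    intro n
    induction n using Nat.strong_induction_on with
    | _ n ih =>
      intro p hn hp
      by_contra hp0
      obtain ⟨s, hs⟩ := MvPolynomial.support_nonempty.2 hp0
      have hs0 : MvPolynomial.coeff s p ≠ 0 := MvPolynomial.mem_support_iff.1 hs
      -- normalize
      set q : MvPolynomial β M := MvPolynomial.C (MvPolynomial.coeff s p)⁻¹ * p with hq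
      have hqc : ∀ t, MvPolynomial.coeff t q = (MvPolynomial.coeff s p)⁻¹ *
          MvPolynomial.coeff t p := fun t => by rw [hq, MvPolynomial.coeff_C_mul]
      have hqs : MvPolynomial.coeff s q = 1 := by rw [hqc, inv_mul_cancel₀ hs0]
      have hqsupp : q.support = p.support := by
        ext t
        rw [MvPolynomial.mem_support_iff, MvPolynomial.mem_support_iff, hqc, Ne, mul_eq_zero,
          not_or]
        exact ⟨fun h => h.2, fun h => ⟨inv_ne_zero hs0, h⟩⟩
      have hq0 : MvPolynomial.aeval b q = 0 := by rw [hq, map_mul, hp, mul_zero]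
      -- the derivative of the coefficients
      let q' : MvPolynomial β M := ∑ t ∈ q.support, MvPolynomial.monomial t (D (q.coeff t))
      have hq'c : ∀ t, MvPolynomial.coeff t q' = D (q.coeff t) := by
        intro t
        change MvPolynomial.coeff t (∑ t ∈ q.support, MvPolynomial.monomial t (D (q.coeff t))) = _
        rw [MvPolynomial.coeff_sum]
        simp only [MvPolynomial.coeff_monomial]
        rw [Finset.sum_ite_eq' q.support t]
        split_ifs with h
        · rfl
        · rw [MvPolynomial.notMem_support_iff.1 h, map_zero]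
      have hq' : MvPolynomial.aeval b q' = 0 := by
        have h1 : MvPolynomial.aeval b q = ∑ t ∈ q.support, algebraMap M Ω (q.coeff t) *
            t.prod fun i n => b i ^ n := by
          conv_lhs => rw [q.as_sum, map_sum]
          exact Finset.sum_congr rfl fun t _ => MvPolynomial.aeval_monomial _ _ _
        rw [h1] at hq0
        have h2 := congrArg D' hq0
        rw [map_sum, map_zero] at h2
        rw [map_sum, ← h2]
        refine Finset.sum_congr rfl fun t _ => ?_
        rw [MvPolynomial.aeval_monomial, D'.leibniz, hmon, hD, smul_zero, zero_add, smul_eq_mul,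
          mul_comm]
      have hcard : q'.support.card < n := by
        rw [← hn]
        refine Finset.card_lt_card ⟨?_, fun h => ?_⟩
        · intro t ht
          rw [MvPolynomial.mem_support_iff, hq'c] at ht
          rw [← hqsupp, MvPolynomial.mem_support_iff]
          intro h
          apply ht
          rw [h, map_zero]
        · have h1 := h hs
          rw [MvPolynomial.mem_support_iff, hq'c, hqs, D.map_one_eq_zero] at h1
          exact h1 rfl
      have h3 := ih _ hcard q' rfl hq'
      have h4 : ∀ t, ∃ e : E, algebraMap E M e = q.coeff t := by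
        intro t
        apply hC
        rw [← hq'c, h3, MvPolynomial.coeff_zero]
      choose f hf using h4
      let q0 : MvPolynomial β E := ∑ t ∈ q.support, MvPolynomial.monomial t (f t)
      have hq0m : MvPolynomial.map (algebraMap E M) q0 = q := by
        conv_rhs => rw [q.as_sum]
        rw [map_sum]
        refine Finset.sum_congr rfl fun t _ => ?_
        rw [MvPolynomial.map_monomial, hf]
      have h5 : MvPolynomial.aeval b q0 = 0 := by
        rw [← hq0, ← hq0m, MvPolynomial.aeval_map_algebraMap]
      have h6 : q0 = 0 := hind (by rw [h5, map_zero])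
      have h7 : q = 0 := by rw [← hq0m, h6, map_zero]
      rw [h7, MvPolynomial.coeff_zero] at hqs
      exact zero_ne_one hqs
  intro p q hpq
  have h1 : MvPolynomial.aeval b (p - q) = 0 := by
    rw [map_sub]
    exact sub_eq_zero.2 hpq
  exact sub_eq_zero.1 (key _ _ rfl h1)

/-- a subfamily of a generating family which is independent -/
theorem exists_sub {κ Ω : Type} [Field κ] [Field Ω] [Algebra κ Ω] {ι ι' : Type} [Finite ι]
    [Finite ι'] (Δ : ι → Ω) (T : ι' → Ω) (hT : AlgebraicIndependent κ T)
    (halg : ∀ i, IsAlgebraic (Algebra.adjoin κ (Set.range Δ)) (T i)) :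
    ∃ B : Set Ω, B ⊆ Set.range Δ ∧ AlgebraicIndependent κ (fun b : B => (b : Ω)) ∧
      Nat.card ι' ≤ Nat.card B := by
  classical
  set M := AlgebraicIndependent.matroid κ Ω with hM
  obtain ⟨B, hB⟩ := M.exists_isBasis (Set.range Δ) (by
    rw [hM, AlgebraicIndependent.matroid_e]; exact Set.subset_univ _)
  have hfin : B.Finite := (Set.finite_range Δ).subset hB.subset
  refine ⟨B, hB.subset, AlgebraicIndependent.matroid_indep_iff.1 hB.indep, ?_⟩
  have h1 : M.Indep (Set.range T) := AlgebraicIndependent.matroid_indep_iff.2 hT.to_subtype_range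
  have h2 : Set.range T ⊆ M.closure (Set.range Δ) := by
    rintro _ ⟨i, rfl⟩
    rw [hM, AlgebraicIndependent.matroid_closure_eq]
    exact halg i
  have h3 : (Set.range T).encard ≤ B.encard := by
    rw [← h1.eRk_eq_encard, hB.encard_eq_eRk, ← M.eRk_closure_eq (Set.range Δ)]
    exact M.eRk_mono h2
  have h4 : (Set.range T).encard = (Nat.card ι' : ℕ∞) := by
    rw [← Set.image_univ, hT.injective.encard_image, Set.encard_univ, ENat.card_eq_coe_natCard]
  rw [h4] at h3
  have := hfin.to_subtype
  rw [← Set.Finite.cast_ncard_eq hfin] at h3
  rw [Nat.card_coe_set_eq]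
  exact_mod_cast h3

end Pool.Agent.K1H80.AV
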