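import Pool.Agent.K1H80.AV.Dsi0
import Pool.Agent.K1H80.EC.Simple

/-!
# Amalgamation over independent elements
-/

set_option autoImplicit false
set_option linter.unusedSectionVars false

namespace Pool.Agent.K1H80.AV

open Pool.Agent.K1H80
open Pool.Agent.K1H80.EC (IsD isD_left isD_right exists_ext exists_der_ext)
open scoped Classical

/-- **Amalgamation** of `U` and `κ` over `E`. -/
theorem amalg2 {k E κ U : Type} [Field k] [CharZero k] [Field E] [Field κ] [Field U] [Algebra k E]
    [Algebra k κ] [Algebra k U] [Algebra E κ] [Algebra E U] [IsScalarTower k E κ]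
    [IsScalarTower k E U] (D1 : Derivation k U U) (dκ : Derivation k κ κ) (dE : E → E)
    (hD1 : ∀ e, D1 (algebraMap E U e) = algebraMap E U (dE e))
    (hdκ : ∀ e, dκ (algebraMap E κ e) = algebraMap E κ (dE e)) {m : ℕ} (s : Fin m → U)
    (hs : AlgebraicIndependent E s)
    (halg : ∀ u : U, IsAlgebraic (Algebra.adjoin E (Set.range s)) u) :
    ∃ (Ω : Type) (_ : Field Ω) (_ : Algebra k Ω) (_ : Algebra κ Ω) (_ : IsScalarTower k κ Ω)
      (j : U →+* Ω) (DΩ : Derivation k Ω Ω), (∀ e, j (algebraMap E U e) =
        algebraMap κ Ω (algebraMap E κ e)) ∧ AlgebraicIndependent κ (fun i => j (s i)) ∧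
      (∀ u, DΩ (j u) = j (D1 u)) ∧ ∀ z : κ, DΩ (algebraMap κ Ω z) = algebraMap κ Ω (dκ z) := by
  let P := MvPolynomial (Fin m) κ
  let Ω := AlgebraicClosure (FractionRing P)
  have ikκΩ : IsScalarTower k κ Ω := inferInstance
  have iEκΩ : IsScalarTower E κ Ω := inferInstance
  have hcκ : CharZero κ := charZero_of_injective_algebraMap (algebraMap k κ).injective
  have hcE : CharZero E := charZero_of_injective_algebraMap (algebraMap k E).injective
  have hcU : CharZero U := charZero_of_injective_algebraMap (algebraMap k U).injective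
  have hcΩ : CharZero Ω := charZero_of_injective_algebraMap (algebraMap κ Ω).injective
  -- the new elements
  let T : Fin m → Ω := fun i => algebraMap P Ω (MvPolynomial.X i)
  have hT : AlgebraicIndependent κ T := by
    have h1 : AlgebraicIndependent κ (MvPolynomial.X : Fin m → P) :=
      MvPolynomial.algebraicIndependent_X (Fin m) κ
    have hinj : Function.Injective (algebraMap P Ω) := by
      rw [IsScalarTower.algebraMap_eq P (FractionRing P) Ω]
      exact (algebraMap (FractionRing P) Ω).injective.comp (IsFractionRing.injective P _)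
    exact h1.map' (f := IsScalarTower.toAlgHom κ P Ω) hinj
  have hTE : AlgebraicIndependent E T := hT.restrictScalars (algebraMap E κ).injective
  -- the homomorphism
  let R0 := MvPolynomial (Fin m) E
  let _ : Algebra R0 U := ((MvPolynomial.aeval s : R0 →ₐ[E] U) : R0 →+* U).toAlgebra
  let _ : Algebra R0 Ω := ((MvPolynomial.aeval T : R0 →ₐ[E] Ω) : R0 →+* Ω).toAlgebra
  have hiU : Function.Injective (algebraMap R0 U) := hs
  have hiΩ : Function.Injective (algebraMap R0 Ω) := hTE
  have hf1 : FaithfulSMul R0 U := (faithfulSMul_iff_algebraMap_injective _ _).2 hiU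
  have hf2 : FaithfulSMul R0 Ω := (faithfulSMul_iff_algebraMap_injective _ _).2 hiΩ
  let K := FractionRing R0
  let _ : Algebra K U := FractionRing.liftAlgebra R0 U
  let _ : Algebra K Ω := FractionRing.liftAlgebra R0 Ω
  have hs1 : IsScalarTower R0 K U := inferInstance
  have hs2 : IsScalarTower R0 K Ω := inferInstance
  have hcK : CharZero K := by
    have hinj : Function.Injective (algebraMap K Ω) := (algebraMap K Ω).injective
    exact ⟨fun a b h => by
      have h2 := congrArg (algebraMap K Ω) h
      rw [map_natCast, map_natCast] at h2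
      exact_mod_cast h2⟩
  have hER : IsScalarTower E R0 U := IsScalarTower.of_algebraMap_eq fun e => by
    change algebraMap E U e = MvPolynomial.aeval s (algebraMap E R0 e)
    rw [AlgHom.commutes]
  have halg0 : Algebra.IsAlgebraic R0 U := ⟨fun u =>
    EC.isAlg_mono' (E := E) (M := R0) hiU (S := Set.range s) (by
      rintro _ ⟨i, rfl⟩
      exact ⟨MvPolynomial.X i, MvPolynomial.aeval_X s i⟩) (halg u)⟩
  have halgK : Algebra.IsAlgebraic K U :=
    (IsFractionRing.comap_isAlgebraic_iff (A := R0) (K := K)).1 halg0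
  let j : U →ₐ[K] Ω := IsAlgClosed.lift
  have hj : ∀ r, j (algebraMap R0 U r) = algebraMap R0 Ω r := by
    intro r
    rw [IsScalarTower.algebraMap_apply R0 K U, j.commutes, ← IsScalarTower.algebraMap_apply]
  have hjE : ∀ e, j (algebraMap E U e) = algebraMap κ Ω (algebraMap E κ e) := by
    intro e
    have h1 : algebraMap E U e = algebraMap R0 U (MvPolynomial.C e) :=
      (MvPolynomial.aeval_C s e).symm
    rw [h1, hj]
    exact MvPolynomial.aeval_C T e
  have hjs : ∀ i, j (s i) = T i := by
    intro i
    have h1 : s i = algebraMap R0 U (MvPolynomial.X i) := (MvPolynomial.aeval_X s i).symm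
    rw [h1, hj]
    exact MvPolynomial.aeval_X T i
  -- the derivation
  obtain ⟨DΩ, h1, h2⟩ := exists_der_ext (k := k) (E := κ) (K := Ω)
    ((Algebra.linearMap κ Ω).compDer dκ) T hT (fun i => j (D1 (s i)))
  have h1' : ∀ z : κ, DΩ (algebraMap κ Ω z) = algebraMap κ Ω (dκ z) := h1
  refine ⟨Ω, inferInstance, inferInstance, inferInstance, ikκΩ, (j : U →+* Ω), DΩ, fun e => ?_, ?_,
    fun u => ?_, h1'⟩
  · exact hjE e
  · have h3 : (fun i => (j : U →+* Ω) (s i)) = T := funext hjs
    rw [h3]
    exact hT
  · have hH := isD_left DΩ (j : U →+* Ω)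
    have hH' := isD_right D1 (j : U →+* Ω)
    have hR0 : ∀ r : R0, DΩ (j (algebraMap R0 U r)) = j (D1 (algebraMap R0 U r)) := by
      intro r
      induction r using MvPolynomial.induction_on with
      | C e =>
        have h3 : algebraMap R0 U (MvPolynomial.C e) = algebraMap E U e := MvPolynomial.aeval_C s e
        rw [h3, hjE, h1', hdκ, hD1, hjE]
      | add p q hp hq => simp only [map_add, hp, hq]
      | mul_X p i hp =>
        have h3 : algebraMap R0 U (MvPolynomial.X i) = s i := MvPolynomial.aeval_X s i
        rw [map_mul, h3]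
        have h4 := hH.mul (algebraMap R0 U p) (s i)
        have h5 := hH'.mul (algebraMap R0 U p) (s i)
        refine h4.trans (Eq.trans ?_ h5.symm)
        have h6 : DΩ (j (s i)) = j (D1 (s i)) := by rw [hjs, h2]
        change j _ * DΩ (j (s i)) + j (s i) * DΩ (j (algebraMap R0 U p)) =
          j _ * j (D1 (s i)) + j (s i) * j (D1 (algebraMap R0 U p))
        rw [h6, hp]
    refine hH.eq_of_alg (E := K) hH' (fun m => ?_) (Algebra.IsAlgebraic.isAlgebraic u)
    obtain ⟨r, t, ht, rfl⟩ := IsFractionRing.div_surjective (A := R0) m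
    have hr : ∀ r : R0, algebraMap K U (algebraMap R0 K r) ∈ hH.eqField hH' := by
      intro r
      rw [IsD.mem_eqField, ← IsScalarTower.algebraMap_apply]
      exact hR0 r
    rw [map_div₀]
    exact div_mem (hr r) (hr t)

end Pool.Agent.K1H80.AV
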