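import Pool.Agent.K1H80.AV.Pou

/-!
# Frames of invariant differentials and vector fields
-/

set_option autoImplicit false
set_option linter.unusedSectionVars false

namespace Pool.Agent.K1H80.AV

open MvPolynomial
open scoped Classical

namespace AbelianVariety

variable {k : Type} [Field k] {N : ℕ} (A : AbelianVariety k N)

/-- a basis of the tangent space at zero -/
noncomputable def tb : Fin A.dim → Fin N → k := A.exists_basis.choose

/-- the coordinate functions -/
noncomputable def lam : Fin A.dim → Fin N → k := A.exists_basis.choose_spec.choose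

theorem tb_mem (i : Fin A.dim) : A.tb i ∈ A.To k := A.exists_basis.choose_spec.choose_spec.1 i

theorem basis_spec {K : Type} [Field K] [Algebra k K] {w : Fin N → K} (hw : w ∈ A.To K)
    (b : Fin N) : w b = ∑ i, (∑ b', algebraMap k K (A.lam i b') * w b') *
      algebraMap k K (A.tb i b) :=
  A.exists_basis.choose_spec.choose_spec.2.2 K w hw b

/-- the coordinates of a tangent vector at zero -/
noncomputable def cw {K : Type} [Field K] [Algebra k K] (w : A.To K) (i : Fin A.dim) : K :=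
  ∑ b', algebraMap k K (A.lam i b') * w.1 b'

theorem cw_inj {K : Type} [Field K] [Algebra k K] {w w' : A.To K} (h : ∀ i, A.cw w i = A.cw w' i) :
    w = w' := by
  apply Subtype.ext
  funext b
  rw [A.basis_spec w.2 b, A.basis_spec w'.2 b]
  refine Finset.sum_congr rfl fun i _ => ?_
  have := h i
  unfold cw at this
  rw [this]

theorem cw_add {K : Type} [Field K] [Algebra k K] (w w' : A.To K) (i : Fin A.dim) :
    A.cw (w + w') i = A.cw w i + A.cw w' i := by
  unfold cw
  rw [← Finset.sum_add_distrib]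
  exact Finset.sum_congr rfl fun b _ => by rw [Submodule.coe_add, Pi.add_apply, mul_add]

theorem cw_Dw {K : Type} [Field K] [Algebra k K] (D : Derivation k K K) (w : A.To K)
    (i : Fin A.dim) : A.cw (A.Dw D w) i = D (A.cw w i) := by
  unfold cw
  rw [map_sum]
  refine Finset.sum_congr rfl fun b _ => ?_
  rw [D.leibniz, D.map_algebraMap, smul_zero, add_zero, smul_eq_mul]
  rfl

/-- the multiplier for the addition of zero -/
noncomputable def A0 (c : Fin N) (l : Fin A.r) : MvPolynomial (Fin N) k :=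
  aeval (Sum.elim X fun b => C (A.o b)) (A.add l c)

/-- the coefficients of the differential of the addition -/
noncomputable def dA (c : Fin N) (l : Fin A.r) (a b : Fin N) : MvPolynomial (Fin N) k :=
  aeval (Sum.elim X fun b => C (A.o b)) (pderiv (Sum.inr b) (A.add l a)) -
    X a * aeval (Sum.elim X fun b => C (A.o b)) (pderiv (Sum.inr b) (A.add l c))

theorem exists_g (c : Fin N) : ∃ g : Fin A.r → MvPolynomial (Fin N) k,
    ∀ (R : Type) [CommRing R] [Algebra k R] (x : Fin N → R),
      (∀ i, aeval x (A.eqn i) = 0) → x c = 1 → ∑ l, aeval x (g l) * aeval x (A.S0 l) = 1 :=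
  exists_pou A.eqn A.S0 c fun _ _ _ _ hx _ => A.exists_S0K hx

section add

variable {R : Type} [CommRing R] [IsLocalRing R] [Algebra k R]

theorem add_o (x : A.Co R) {c : Fin N} (hc : x.1 c = 1) (l : Fin A.r) (a : Fin N) :
    aeval (Sum.elim x.1 fun b => algebraMap k R (A.o b)) (A.add l a) =
      aeval x.1 (A.A0 c l) * x.1 a := by
  have h1 : pt A.eqn x + pt A.eqn (A.oR R) = pt A.eqn x := by rw [pt_oR, add_zero]
  obtain ⟨s, hs⟩ := (A.rep_add h1).1 l
  have h2 := hs c
  rw [hc, mul_one] at h2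
  have h3 : aeval x.1 (A.A0 c l) = s := by
    rw [A0, aeval_elimXC]
    exact h2
  rw [h3]
  exact hs a

theorem exists_A0 (x : A.Co R) {c : Fin N} (hc : x.1 c = 1) :
    ∃ l, IsUnit (aeval x.1 (A.A0 c l)) := by
  have h1 : pt A.eqn x + pt A.eqn (A.oR R) = pt A.eqn x := by rw [pt_oR, add_zero]
  obtain ⟨l, a, h⟩ := (A.rep_add h1).2
  refine ⟨l, ?_⟩
  have h2 := A.add_o x hc l a
  change aeval (Sum.elim x.1 (A.oR R).1) (A.add l a) = _ at h2
  rw [h2] at h
  exact isUnit_of_mul_isUnit_left h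

end add

theorem exists_h (c : Fin N) : ∃ g : Fin A.r → MvPolynomial (Fin N) k,
    ∀ (R : Type) [CommRing R] [Algebra k R] (x : Fin N → R),
      (∀ i, aeval x (A.eqn i) = 0) → x c = 1 → ∑ l, aeval x (g l) * aeval x (A.A0 c l) = 1 :=
  exists_pou A.eqn (A.A0 c) c fun _ _ _ x hx hc => by
    obtain ⟨l, hl⟩ := A.exists_A0 ⟨x, hx⟩ hc
    exact ⟨l, hl.ne_zero⟩

/-- the invariant differentials in the charts -/
noncomputable def eta (c : Fin N) (i : Fin A.dim) (a : Fin N) : MvPolynomial (Fin N) k :=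
  ∑ l, (A.exists_g c).choose l * ∑ b, C (A.lam i b) * A.dS l b a

/-- the invariant vector fields in the charts -/
noncomputable def xi (c : Fin N) (i : Fin A.dim) (a : Fin N) : MvPolynomial (Fin N) k :=
  ∑ l, (A.exists_h c).choose l * ∑ b, C (A.tb i b) * A.dA c l a b

variable {K : Type} [Field K] [Algebra k K]

theorem eta_spec {x v : Fin N → K} (hx : IsCoord A.eqn x) (hv : v ∈ tangent A.eqn x) {c : Fin N}
    (hc : x c = 1) (i : Fin A.dim) :
    ∑ a, aeval x (A.eta c i a) * v a = ∑ b, algebraMap k K (A.lam i b) * A.T x v b := by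
  have hg := (A.exists_g c).choose_spec K x hx.2 hc
  set g := (A.exists_g c).choose
  have h1 : ∀ a, aeval x (A.eta c i a) * v a = ∑ l, aeval x (g l) *
      ∑ b, algebraMap k K (A.lam i b) * (aeval x (A.dS l b a) * v a) := by
    intro a
    unfold eta
    rw [map_sum, Finset.sum_mul]
    refine Finset.sum_congr rfl fun l _ => ?_
    rw [map_mul, mul_assoc, map_sum, Finset.sum_mul]
    congr 1
    refine Finset.sum_congr rfl fun b _ => ?_
    rw [map_mul, ← algebraMap_eq, AlgHom.commutes, mul_assoc]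
  rw [Finset.sum_congr rfl fun a _ => h1 a, Finset.sum_comm]
  have h2 : ∀ l, ∑ a, aeval x (g l) *
      ∑ b, algebraMap k K (A.lam i b) * (aeval x (A.dS l b a) * v a) =
      aeval x (g l) * aeval x (A.S0 l) * ∑ b, algebraMap k K (A.lam i b) * A.T x v b := by
    intro l
    rw [← Finset.mul_sum, Finset.sum_comm, mul_assoc]
    congr 1
    rw [Finset.mul_sum]
    refine Finset.sum_congr rfl fun b _ => ?_
    rw [← Finset.mul_sum, ← A.T_all hx hv l b]
    ring
  rw [Finset.sum_congr rfl fun l _ => h2 l, ← Finset.sum_mul, hg, one_mul]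

theorem dA_spec {x v : Fin N → K} (hx : IsCoord A.eqn x) (hv : v ∈ tangent A.eqn x) {c : Fin N}
    (hc : x c = 1) (hvc : v c = 0) (l : Fin A.r) (a : Fin N) :
    ∑ b, aeval x (A.dA c l a b) * A.T x v b = aeval x (A.A0 c l) * v a := by
  let ρ := epD k K
  have := ρ.isLocalRing
  obtain ⟨h, hT, h1⟩ := A.near' ρ (cmap ρ.ι ⟨x, hx⟩) (xK := x) (fun c => ρ.πι _) hv
  obtain ⟨s, hs⟩ := (A.rep_add h1.symm).1 l
  have hval : ∀ a, aeval (Sum.elim (fun c => ρ.ι (x c)) (A.co ρ ⟨_, hT⟩).1) (A.add l a) =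
      ρ.ι (aeval x (A.A0 c l)) * ρ.ι (x a) + ρ.e * ρ.ι (∑ b,
        aeval x (aeval (Sum.elim X fun b => C (A.o b)) (pderiv (Sum.inr b) (A.add l a)) :
          MvPolynomial (Fin N) k) * A.T x v b) := by
    intro a
    have h2 := taylor2 (A.add l a) (fun c => ρ.ι (x c)) (fun b => algebraMap k _ (A.o b))
      (fun b => ρ.ι (A.T x v b)) ρ.ee
    have h3 := A.add_o (cmap ρ.ι ⟨x, hx⟩) (c := c) (by change ρ.ι (x c) = 1; rw [hc, map_one]) l a
    change aeval (Sum.elim (fun c => ρ.ι (x c)) fun b => algebraMap k _ (A.o b)) (A.add l a) =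
      aeval (fun c => ρ.ι (x c)) (A.A0 c l) * ρ.ι (x a) at h3
    refine h2.trans ?_
    rw [h3, ← comp_aeval_apply]
    congr 2
    rw [map_sum]
    refine Finset.sum_congr rfl fun b _ => ?_
    rw [map_mul, comp_aeval_apply, aeval_elimXC]
  have h2 := hs c
  change aeval (Sum.elim (fun c => ρ.ι (x c)) (A.co ρ ⟨_, hT⟩).1) (A.add l c) =
    s * (ρ.ι (x c) + ρ.e * ρ.ι (v c)) at h2
  have h3 := hs a
  change aeval (Sum.elim (fun c => ρ.ι (x c)) (A.co ρ ⟨_, hT⟩).1) (A.add l a) =
    s * (ρ.ι (x a) + ρ.e * ρ.ι (v a)) at h3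
  rw [hval, hc, hvc, map_one, map_zero, mul_one, mul_zero, add_zero, mul_one] at h2
  rw [hval, ← h2] at h3
  have h4 : ∀ b, aeval x (A.dA c l a b) * A.T x v b =
      aeval x (aeval (Sum.elim X fun b => C (A.o b)) (pderiv (Sum.inr b) (A.add l a)) :
          MvPolynomial (Fin N) k) * A.T x v b -
      x a * (aeval x (aeval (Sum.elim X fun b => C (A.o b)) (pderiv (Sum.inr b) (A.add l c)) :
          MvPolynomial (Fin N) k) * A.T x v b) := by
    intro b
    unfold dA
    rw [map_sub, map_mul, aeval_X]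
    ring
  rw [Finset.sum_congr rfl fun b _ => h4 b, Finset.sum_sub_distrib, ← Finset.mul_sum]
  set u := ∑ b, aeval x (aeval (Sum.elim X fun b => C (A.o b)) (pderiv (Sum.inr b) (A.add l a)) :
          MvPolynomial (Fin N) k) * A.T x v b
  set w := ∑ b, aeval x (aeval (Sum.elim X fun b => C (A.o b)) (pderiv (Sum.inr b) (A.add l c)) :
          MvPolynomial (Fin N) k) * A.T x v b
  have h5 : ρ.e * ρ.ι (u - x a * w - aeval x (A.A0 c l) * v a) = 0 := by
    have := ρ.ee
    simp only [map_sub, map_mul]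
    linear_combination h3 + ρ.ι w * ρ.ι (v a) * ρ.ee
  have h6 := ρ.inj _ h5
  linear_combination h6

/-- **The frame.** -/
theorem frame {x v : Fin N → K} (hx : IsCoord A.eqn x) (hv : v ∈ tangent A.eqn x) {c : Fin N}
    (hc : x c = 1) (hvc : v c = 0) (a : Fin N) :
    v a = ∑ i, aeval x (A.xi c i a) * ∑ t, aeval x (A.eta c i t) * v t := by
  have hg := (A.exists_h c).choose_spec K x hx.2 hc
  set g := (A.exists_h c).choose with hgdef
  have h1 : ∀ i, ∑ t, aeval x (A.eta c i t) * v t = A.cw ⟨_, A.T_mem hx hv⟩ i := fun i =>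
    A.eta_spec hx hv hc i
  simp only [h1]
  have h2 : ∀ b, A.T x v b = ∑ i, A.cw ⟨_, A.T_mem hx hv⟩ i * algebraMap k K (A.tb i b) := fun b =>
    A.basis_spec (A.T_mem hx hv) b
  have h3 : ∀ i, aeval x (A.xi c i a) * A.cw ⟨_, A.T_mem hx hv⟩ i = ∑ l, aeval x (g l) *
      ∑ b, aeval x (A.dA c l a b) * (A.cw ⟨_, A.T_mem hx hv⟩ i * algebraMap k K (A.tb i b)) := by
    intro i
    unfold xi
    rw [map_sum, Finset.sum_mul]
    refine Finset.sum_congr rfl fun l _ => ?_
    rw [map_mul, mul_assoc, map_sum, Finset.sum_mul]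
    congr 1
    refine Finset.sum_congr rfl fun b _ => ?_
    rw [map_mul, ← algebraMap_eq, AlgHom.commutes]
    ring
  rw [Finset.sum_congr rfl fun i _ => h3 i, Finset.sum_comm]
  have h4 : ∀ l, ∑ i, aeval x (g l) *
      ∑ b, aeval x (A.dA c l a b) * (A.cw ⟨_, A.T_mem hx hv⟩ i * algebraMap k K (A.tb i b)) =
      aeval x (g l) * aeval x (A.A0 c l) * v a := by
    intro l
    rw [← Finset.mul_sum, Finset.sum_comm, mul_assoc, ← A.dA_spec hx hv hc hvc l a]
    congr 1
    refine Finset.sum_congr rfl fun b _ => ?_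
    rw [← Finset.mul_sum, ← h2]
  rw [Finset.sum_congr rfl fun l _ => h4 l, ← Finset.sum_mul, hg, one_mul]

end AbelianVariety

end Pool.Agent.K1H80.AV
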