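import Pool.Agent.K1H80.AV.Dsi1
import Pool.Agent.K1H80.AV.Fra

/-!
# Differential rings of coordinates of points with rational logarithmic derivative
-/

set_option autoImplicit false
set_option linter.unusedSectionVars false

namespace Pool.Agent.K1H80.AV

open Pool.Agent.K1H80
open Pool.Agent.K1H80.EC (IsD isD_left isD_right exists_ext exists_der_ext)
open MvPolynomial
open scoped Classical

theorem alg_aeval {k R0 Ω : Type} [Field k] [CommRing R0] [IsDomain R0] [Field Ω] [Algebra R0 Ω]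
    [Algebra k Ω] {σ : Type} (w : σ → Ω)
    (hk : ∀ t : k, IsAlgebraic R0 (algebraMap k Ω t)) (hw : ∀ i, IsAlgebraic R0 (w i))
    (p : MvPolynomial σ k) : IsAlgebraic R0 (aeval w p) := by
  induction p using MvPolynomial.induction_on with
  | C a => rw [aeval_C]; exact hk a
  | add p q hp hq => rw [map_add]; exact hp.add hq
  | mul_X p i hp => rw [map_mul, aeval_X]; exact hp.mul (hw i)

theorem alg_div {R0 Ω : Type} [CommRing R0] [IsDomain R0] [Field Ω] [Algebra R0 Ω] {a b : Ω}
    (ha : IsAlgebraic R0 a) (hb : IsAlgebraic R0 b) : IsAlgebraic R0 (a / b) := by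
  rw [div_eq_mul_inv]
  exact ha.mul hb.inv

namespace AbelianVariety

variable {k : Type} [Field k] {N : ℕ} (A : AbelianVariety k N)

theorem add_div {Ω : Type} [Field Ω] [Algebra k Ω] {x y z : A.Co Ω} (h : pt A.eqn x + pt A.eqn y =
    pt A.eqn z) {c : Fin N} (hc : z.1 c = 1) :
    ∃ l, ∀ a, z.1 a = aeval (Sum.elim x.1 y.1) (A.add l a) / aeval (Sum.elim x.1 y.1) (A.add l c) := by
  obtain ⟨h1, l, a, hla⟩ := A.rep_add h
  obtain ⟨s, hs⟩ := h1 l
  have hs0 : s ≠ 0 := by
    intro h0
    rw [hs, h0, zero_mul] at hla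
    exact hla.ne_zero rfl
  refine ⟨l, fun a => ?_⟩
  rw [hs, hs, hc, mul_one, mul_div_cancel_left₀ _ hs0]

theorem sub_div {Ω : Type} [Field Ω] [Algebra k Ω] {x y z : A.Co Ω} (h : pt A.eqn x - pt A.eqn y =
    pt A.eqn z) {c : Fin N} (hc : z.1 c = 1) :
    ∃ l, ∀ a, z.1 a = aeval (Sum.elim x.1 y.1) (A.sub l a) / aeval (Sum.elim x.1 y.1) (A.sub l c) := by
  obtain ⟨h1, l, a, hla⟩ := A.rep_sub h
  obtain ⟨s, hs⟩ := h1 l
  have hs0 : s ≠ 0 := by
    intro h0
    rw [hs, h0, zero_mul] at hla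
    exact hla.ne_zero rfl
  refine ⟨l, fun a => ?_⟩
  rw [hs, hs, hc, mul_one, mul_div_cancel_left₀ _ hs0]

end AbelianVariety

/-- A point over a differential field, in a chart, with logarithmic derivative over `E`. -/
structure Sit {k E U : Type} [Field k] [Field E] [Field U] [Algebra k E] [Algebra k U]
    [Algebra E U] {N : ℕ} (A : AbelianVariety k N) (D : Derivation k U U) (z : Fin N → U)
    (c : Fin N) : Prop where
  hz : IsCoord A.eqn z
  hc : z c = 1
  hE : ∀ e : E, ∃ e' : E, D (algebraMap E U e) = algebraMap E U e'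
  hC : ∀ u : U, D u = 0 → ∃ e : E, algebraMap E U e = u
  hW : ∀ i, ∃ e : E, algebraMap E U e = A.cw (A.ld D ⟨z, hz⟩) i

section sit

variable {k E U : Type} [Field k] [CharZero k] [Field E] [Field U] [Algebra k E] [Algebra k U]
  [Algebra E U] [IsScalarTower k E U] {N : ℕ} {A : AbelianVariety k N} {D : Derivation k U U}
  {z : Fin N → U} {c : Fin N}

/-- the coordinate ring -/
abbrev RZ (E : Type) {U : Type} [Field E] [Field U] [Algebra E U] {N : ℕ} (z : Fin N → U) :
    Subalgebra E U := Algebra.adjoin E (Set.range z)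

theorem mem_RZ (a : Fin N) : z a ∈ RZ E z := Algebra.subset_adjoin ⟨a, rfl⟩

/-- the coordinates as elements of the ring -/
def zR (E : Type) {U : Type} [Field E] [Field U] [Algebra E U] {N : ℕ} (z : Fin N → U) (a : Fin N) :
    RZ E z := ⟨z a, mem_RZ a⟩

theorem aeval_mem_RZ (p : MvPolynomial (Fin N) k) : aeval z p ∈ RZ E z := by
  have h := comp_aeval_apply (f := zR E z) ((RZ E z).val.restrictScalars k) p
  have h2 : (fun i => ((RZ E z).val.restrictScalars k) (zR E z i)) = z := rfl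
  rw [h2] at h
  rw [← h]
  exact Subtype.property _

theorem coe_aeval_zR (p : MvPolynomial (Fin N) k) : ((aeval (zR E z) p : RZ E z) : U) = aeval z p :=
  comp_aeval_apply (f := zR E z) ((RZ E z).val.restrictScalars k) p

theorem coord_zR (hz : IsCoord A.eqn z) (hc : z c = 1) : IsCoord A.eqn (zR E z) := by
  refine ⟨⟨c, ?_⟩, fun i => ?_⟩
  · have : zR E z c = 1 := Subtype.ext hc
    rw [this]
    exact isUnit_one
  · apply Subtype.ext
    rw [coe_aeval_zR, hz.2 i]
    rfl

variable (S : Sit (E := E) A D z c)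
include S

theorem Sit.sum_eta (D' : Derivation k U U) (i : Fin A.dim) :
    ∑ t, aeval z (A.eta c i t) * D' (z t) = A.cw (A.ld D' ⟨z, S.hz⟩) i :=
  A.eta_spec S.hz (A.D_tangent D' S.hz) S.hc i

theorem Sit.D_z (D' : Derivation k U U) (a : Fin N) :
    D' (z a) = ∑ i, aeval z (A.xi c i a) * A.cw (A.ld D' ⟨z, S.hz⟩) i := by
  have h := A.frame S.hz (A.D_tangent D' S.hz) S.hc (by
    rw [S.hc, D'.map_one_eq_zero]) a
  refine h.trans ?_
  refine Finset.sum_congr rfl fun i _ => ?_
  rw [← S.sum_eta D' i]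

theorem Sit.stab : ∀ r ∈ RZ E z, D r ∈ RZ E z := by
  refine EC.derA_adjoin D S.hE _ ?_
  rintro _ ⟨a, rfl⟩
  rw [S.D_z D a]
  refine sum_mem fun i _ => mul_mem (aeval_mem_RZ _) ?_
  obtain ⟨e, he⟩ := S.hW i
  rw [← he]
  exact Subalgebra.algebraMap_mem _ e

/-- the derivation of the ring -/
noncomputable def Sit.DR : Derivation k (RZ E z) (RZ E z) := EC.resA D _ S.stab

theorem Sit.coe_DR (r : RZ E z) : ((S.DR r : RZ E z) : U) = D r := rfl

/-- the logarithmic derivative in `E` -/
noncomputable def Sit.e (i : Fin A.dim) : E := (S.hW i).choose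

theorem Sit.e_spec (i : Fin A.dim) :
    algebraMap E U (S.e i) = A.cw (A.ld D ⟨z, S.hz⟩) i := (S.hW i).choose_spec

theorem Sit.sum_R (i : Fin A.dim) :
    ∑ t, aeval (zR E z) (A.eta c i t) * S.DR (zR E z t) = algebraMap E (RZ E z) (S.e i) := by
  apply Subtype.ext
  have h1 : ((algebraMap E (RZ E z) (S.e i) : RZ E z) : U) = algebraMap E U (S.e i) := rfl
  rw [h1, S.e_spec, ← S.sum_eta D i, AddSubmonoidClass.coe_finsetSum]
  refine Finset.sum_congr rfl fun t _ => ?_
  change ((aeval (zR E z) (A.eta c i t) : RZ E z) : U) * D (z t) = _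
  rw [coe_aeval_zR]

/-- the logarithmic derivative of the images of the point -/
theorem Sit.cw_hom {K : Type} [Field K] [Algebra k K] (φ : RZ E z →ₐ[k] K)
    (DK : Derivation k K K) (h : ∀ r, DK (φ r) = φ (S.DR r)) (i : Fin A.dim) :
    A.cw (A.ld DK ⟨_, (coord_zR (E := E) S.hz S.hc).map φ⟩) i =
      φ (algebraMap E (RZ E z) (S.e i)) := by
  have hx := (coord_zR (E := E) S.hz S.hc).map φ
  have h1 := A.eta_spec hx (A.D_tangent DK hx) (c := c) (by
    have : zR E z c = 1 := Subtype.ext S.hc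
    rw [this, map_one]) i
  refine h1.symm.trans ?_
  rw [← S.sum_R i, map_sum]
  refine Finset.sum_congr rfl fun t _ => ?_
  rw [map_mul, h, comp_aeval_apply]

end sit

end Pool.Agent.K1H80.AV
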