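import Pool.Agent.K1H80.AV.Dsi2

/-!
# The differential coordinate ring is simple
-/

set_option autoImplicit false
set_option linter.unusedSectionVars false

namespace Pool.Agent.K1H80.AV

open Pool.Agent.K1H80
open Pool.Agent.K1H80.EC (IsD isD_left isD_right exists_ext exists_der_ext)
open MvPolynomial
open scoped Classical

variable {k E U : Type} [Field k] [CharZero k] [Field E] [Field U] [Algebra k E] [Algebra k U]
  [Algebra E U] [IsScalarTower k E U] {N : ℕ} {A : AbelianVariety k N} {D : Derivation k U U}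
  {z : Fin N → U} {c : Fin N}

/-- **Differential homomorphisms of the coordinate ring keep independent elements independent.** -/
theorem Sit.core (S : Sit (E := E) A D z c) {κ : Type} [Field κ] [Algebra k κ] [Algebra E κ]
    [IsScalarTower k E κ] (ψ0 : RZ E z →ₐ[E] κ) (dκ : Derivation k κ κ)
    (hψ0 : ∀ r, dκ (ψ0 r) = ψ0 (S.DR r)) {m : ℕ} (s0 : Fin m → RZ E z)
    (hs0 : AlgebraicIndependent E s0)
    (hint0 : ∀ r : RZ E z, IsIntegral (Algebra.adjoin E (Set.range s0)) r) :
    AlgebraicIndependent E (fun i => ψ0 (s0 i)) := by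
  have halg0 : ∀ r : RZ E z, IsAlgebraic (Algebra.adjoin E (Set.range s0)) r := fun r =>
    (hint0 r).isAlgebraic
  have hcU : CharZero U := charZero_of_injective_algebraMap (algebraMap k U).injective
  have hcκ : CharZero κ := charZero_of_injective_algebraMap (algebraMap k κ).injective
  -- the fraction field
  let U1 := FractionRing (RZ E z)
  have hinj1 : Function.Injective (algebraMap (RZ E z) U1) := IsFractionRing.injective _ _
  have hcU1 : CharZero U1 := charZero_of_injective_algebraMap (algebraMap k U1).injective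
  obtain ⟨D1, hD1⟩ := exists_ext (k := k) (R := RZ E z) (K := U1) hinj1
    ((Algebra.linearMap (RZ E z) U1).compDer S.DR)
  have hD1' : ∀ r, D1 (algebraMap (RZ E z) U1 r) = algebraMap (RZ E z) U1 (S.DR r) := hD1
  choose dE hdE using S.hE
  have hDRE : ∀ e, S.DR (algebraMap E (RZ E z) e) = algebraMap E (RZ E z) (dE e) := fun e =>
    Subtype.ext (hdE e)
  have hD1E : ∀ e, D1 (algebraMap E U1 e) = algebraMap E U1 (dE e) := by
    intro e
    rw [IsScalarTower.algebraMap_apply E (RZ E z) U1, hD1', hDRE,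
      ← IsScalarTower.algebraMap_apply]
  have hdκE : ∀ e, dκ (algebraMap E κ e) = algebraMap E κ (dE e) := by
    intro e
    rw [← ψ0.commutes, hψ0, hDRE, ψ0.commutes]
  -- the independent elements
  let s1 : Fin m → U1 := fun i => algebraMap (RZ E z) U1 (s0 i)
  have hs1 : AlgebraicIndependent E s1 := hs0.map' (f := IsScalarTower.toAlgHom E (RZ E z) U1) hinj1
  have hU1 : ∀ u : U1, IsAlgebraic (Algebra.adjoin E (Set.range s1)) u := by
    have h1 : ∀ r : RZ E z, IsAlgebraic (Algebra.adjoin E (Set.range s1))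
        (algebraMap (RZ E z) U1 r) := by
      intro r
      obtain ⟨p, hp0, hp⟩ := halg0 r
      have hle : ∀ t : Algebra.adjoin E (Set.range s0),
          algebraMap (RZ E z) U1 t ∈ Algebra.adjoin E (Set.range s1) := by
        rintro ⟨t, ht⟩
        have h2 : Algebra.adjoin E (Set.range s1) =
            (Algebra.adjoin E (Set.range s0)).map (IsScalarTower.toAlgHom E (RZ E z) U1) := by
          rw [AlgHom.map_adjoin]
          congr 1
          rw [← Set.range_comp]
          rfl
        rw [h2]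
        exact ⟨t, ht, rfl⟩
      let f : Algebra.adjoin E (Set.range s0) →+* Algebra.adjoin E (Set.range s1) :=
        ((algebraMap (RZ E z) U1).comp
          (Algebra.adjoin E (Set.range s0)).val.toRingHom).codRestrict
            (Algebra.adjoin E (Set.range s1)).toSubring hle
      have hf : ∀ t, ((f t : Algebra.adjoin E (Set.range s1)) : U1) =
        algebraMap (RZ E z) U1 t := fun t => rfl
      refine ⟨p.map f, ?_, ?_⟩
      · rw [Ne, Polynomial.map_eq_zero_iff]
        · exact hp0
        · intro t t' h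
          have h3 := congrArg (fun w : Algebra.adjoin E (Set.range s1) => (w : U1)) h
          simp only [hf] at h3
          exact Subtype.ext (hinj1 h3)
      · rw [Polynomial.aeval_def, Polynomial.eval₂_map]
        have h3 : (algebraMap (Algebra.adjoin E (Set.range s1)) U1).comp f =
            (algebraMap (RZ E z) U1).comp (algebraMap (Algebra.adjoin E (Set.range s0)) (RZ E z)) :=
          RingHom.ext fun t => rfl
        rw [h3, ← Polynomial.hom_eval₂, ← Polynomial.aeval_def, hp, map_zero]
    intro u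
    obtain ⟨r, t, ht, rfl⟩ := IsFractionRing.div_surjective (A := RZ E z) u
    exact alg_div (h1 r) (h1 t)
  -- the amalgam
  obtain ⟨Ω, iΩ, ikΩ, iκΩ, iT, j, DΩ, hjE, hjs, hDj, hDκ⟩ := amalg2 D1 dκ dE hD1E hdκE s1 hs1 hU1
  let iEΩ : Algebra E Ω := ((algebraMap κ Ω).comp (algebraMap E κ)).toAlgebra
  have iEκΩ : IsScalarTower E κ Ω := IsScalarTower.of_algebraMap_eq fun _ => rfl
  let iUΩ : Algebra U1 Ω := j.toAlgebra
  have iEUΩ : IsScalarTower E U1 Ω := IsScalarTower.of_algebraMap_eq fun e => (hjE e).symm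
  have hkκΩ : ∀ t : k, algebraMap k Ω t = algebraMap κ Ω (algebraMap k κ t) := fun t =>
    IsScalarTower.algebraMap_apply k κ Ω t
  have hkE : ∀ t : k, algebraMap k (RZ E z) t = algebraMap E (RZ E z) (algebraMap k E t) := fun t =>
    IsScalarTower.algebraMap_apply k E (RZ E z) t
  -- the two homomorphisms
  let φ : RZ E z →ₐ[k] Ω :=
    { toRingHom := j.comp (algebraMap (RZ E z) U1)
      commutes' := fun t => by
        change j (algebraMap (RZ E z) U1 (algebraMap k (RZ E z) t)) = _
        rw [hkE, ← IsScalarTower.algebraMap_apply E (RZ E z) U1, hjE, hkκΩ,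
          ← IsScalarTower.algebraMap_apply k E κ] }
  let ψ : RZ E z →ₐ[k] Ω :=
    { toRingHom := (algebraMap κ Ω).comp (ψ0 : RZ E z →+* κ)
      commutes' := fun t => by
        change algebraMap κ Ω (ψ0 (algebraMap k (RZ E z) t)) = _
        rw [hkE, ψ0.commutes, hkκΩ, ← IsScalarTower.algebraMap_apply k E κ] }
  have hφ : ∀ r, φ r = j (algebraMap (RZ E z) U1 r) := fun r => rfl
  have hψ : ∀ r, ψ r = algebraMap κ Ω (ψ0 r) := fun r => rfl
  have hφD : ∀ r, DΩ (φ r) = φ (S.DR r) := fun r => by rw [hφ, hφ, hDj, hD1']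
  have hψD : ∀ r, DΩ (ψ r) = ψ (S.DR r) := fun r => by rw [hψ, hψ, hDκ, hψ0]
  have hφE : ∀ e, φ (algebraMap E (RZ E z) e) = algebraMap E Ω e := fun e => by
    rw [hφ, ← IsScalarTower.algebraMap_apply E (RZ E z) U1, hjE]
    rfl
  have hψE : ∀ e, ψ (algebraMap E (RZ E z) e) = algebraMap E Ω e := fun e => by
    rw [hψ, ψ0.commutes]
    rfl
  -- the two points
  have hzR := coord_zR (E := E) S.hz S.hc
  let x : A.Co Ω := ⟨_, hzR.map φ⟩
  let y : A.Co Ω := ⟨_, hzR.map ψ⟩
  obtain ⟨Δ, c', hΔ, hΔc⟩ := exists_norm A.homogeneous (pt A.eqn x - pt A.eqn y)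
  have hld : A.ld DΩ x = A.ld DΩ y := by
    apply A.cw_inj
    intro i
    rw [S.cw_hom φ DΩ hφD i, S.cw_hom ψ DΩ hψD i, hφE, hψE]
  have hadd : pt A.eqn x = pt A.eqn y + pt A.eqn Δ := by rw [hΔ]; abel
  have hldΔ : A.ld DΩ Δ = 0 := by
    have h1 := A.ld_add DΩ hadd
    rw [hld] at h1
    exact left_eq_add.1 h1
  have hΔconst : ∀ a, DΩ (Δ.1 a) = 0 := A.const_of_ld DΩ hldΔ hΔc
  have hzc : zR E z c = 1 := Subtype.ext S.hc
  have hxc : x.1 c = 1 := by
    change φ (zR E z c) = 1
    rw [hzc, map_one]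
  -- the coordinates of the first point over `κ(Δ)`
  have hT : ∀ r : RZ E z, IsAlgebraic (Algebra.adjoin κ (Set.range Δ.1)) (φ r) := by
    set R0 := Algebra.adjoin κ (Set.range Δ.1) with hR0
    have hκ0 : ∀ t : κ, IsAlgebraic R0 (algebraMap κ Ω t) := fun t =>
      isAlgebraic_algebraMap (algebraMap κ R0 t)
    have hk0 : ∀ t : k, IsAlgebraic R0 (algebraMap k Ω t) := fun t => by
      rw [hkκΩ]
      exact hκ0 _
    have hΔ0 : ∀ a, IsAlgebraic R0 (Δ.1 a) := fun a =>
      isAlgebraic_algebraMap (⟨Δ.1 a, Algebra.subset_adjoin ⟨a, rfl⟩⟩ : R0)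
    have hy0 : ∀ a, IsAlgebraic R0 (y.1 a) := fun a => hκ0 _
    obtain ⟨l, hl⟩ := A.add_div hadd.symm hxc
    have hx0 : ∀ a, IsAlgebraic R0 (x.1 a) := by
      intro a
      rw [hl a]
      refine alg_div (alg_aeval _ hk0 ?_ _) (alg_aeval _ hk0 ?_ _)
      · rintro (b | b)
        · exact hy0 b
        · exact hΔ0 b
      · rintro (b | b)
        · exact hy0 b
        · exact hΔ0 b
    rintro ⟨r, hr⟩
    have hr' := hr
    induction hr' using Algebra.adjoin_induction with
    | mem w hw =>
      obtain ⟨a, rfl⟩ := hw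
      exact hx0 a
    | algebraMap e =>
      have h1 : (⟨algebraMap E U e, hr⟩ : RZ E z) = algebraMap E (RZ E z) e := rfl
      rw [h1, hφE]
      exact hκ0 _
    | add v w hv hw h1 h2 =>
      have h3 : (⟨v + w, hr⟩ : RZ E z) = ⟨v, hv⟩ + ⟨w, hw⟩ := rfl
      rw [h3, map_add]
      exact (h1 hv).add (h2 hw)
    | mul v w hv hw h1 h2 =>
      have h3 : (⟨v * w, hr⟩ : RZ E z) = ⟨v, hv⟩ * ⟨w, hw⟩ := rfl
      rw [h3, map_mul]
      exact (h1 hv).mul (h2 hw)
  obtain ⟨B, hBΔ, hBκ, hBcard⟩ := exists_sub Δ.1 (fun i => j (s1 i)) hjs (fun i => hT (s0 i))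
  -- independence over the fraction field
  have hBE : AlgebraicIndependent E (fun b : B => (b : Ω)) :=
    hBκ.restrictScalars (algebraMap E κ).injective
  have hconst : ∀ u : U1, D1 u = 0 → ∃ e : E, algebraMap E U1 e = u := by
    -- embedding of the fraction field in `U`
    have hinjU : Function.Injective (algebraMap (RZ E z) U) := Subtype.val_injective
    let i1 : U1 →+* U := IsFractionRing.lift hinjU
    have hi1 : ∀ r, i1 (algebraMap (RZ E z) U1 r) = r := fun r =>
      IsFractionRing.lift_algebraMap hinjU r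
    have hH := isD_left D i1
    have hH' := isD_right D1 i1
    intro u hu
    have h1 : D (i1 u) = i1 (D1 u) := by
      obtain ⟨r, t, ht, rfl⟩ := IsFractionRing.div_surjective (A := RZ E z) u
      have hr : ∀ r : RZ E z, algebraMap (RZ E z) U1 r ∈ hH.eqField hH' := by
        intro r
        rw [IsD.mem_eqField]
        change D (i1 _) = i1 (D1 _)
        rw [hi1, hD1', hi1]
        rfl
      exact div_mem (hr r) (hr t)
    rw [hu, map_zero] at h1
    obtain ⟨e, he⟩ := S.hC _ h1
    refine ⟨e, i1.injective ?_⟩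
    rw [← he, IsScalarTower.algebraMap_apply E (RZ E z) U1, hi1]
    rfl
  have hBU := indep_const (k := k) (E := E) (M := U1) D1 DΩ (fun u => hDj u) hconst
    (fun b : B => (b : Ω)) (fun b => by
      obtain ⟨a, ha⟩ := hBΔ b.2
      rw [← ha]
      exact hΔconst a) hBE
  -- exchange
  have hfinB : Finite B := ((Set.finite_range Δ.1).subset hBΔ).to_subtype
  have hψU : AlgebraicIndependent U1 (fun i => ψ (s0 i)) := by
    refine EC.exch (E := U1) (fun i => ψ (s0 i)) (fun b : B => (b : Ω)) hBU ?_ ?_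
    · simpa using hBcard
    · set R0 := Algebra.adjoin U1 (Set.range fun i => ψ (s0 i)) with hR0
      have hU0 : ∀ t : U1, IsAlgebraic R0 (j t) := fun t =>
        isAlgebraic_algebraMap (algebraMap U1 R0 t)
      have hE0 : ∀ e : E, IsAlgebraic R0 (algebraMap E Ω e) := fun e => by
        have h1 : algebraMap E Ω e = j (algebraMap E U1 e) := (hjE e).symm
        rw [h1]
        exact hU0 _
      have hk0 : ∀ t : k, IsAlgebraic R0 (algebraMap k Ω t) := fun t => by
        have h1 : algebraMap k Ω t = algebraMap E Ω (algebraMap k E t) := by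
          rw [hkκΩ, IsScalarTower.algebraMap_apply k E κ]
          rfl
        rw [h1]
        exact hE0 _
      have hx0 : ∀ a, IsAlgebraic R0 (x.1 a) := fun a => hU0 _
      have hy0 : ∀ r, IsAlgebraic R0 (ψ r) := by
        intro r
        obtain ⟨p, hp0, hp⟩ := hint0 r
        have hle : ∀ t : Algebra.adjoin E (Set.range s0), ψ t ∈ R0 := by
          rintro ⟨t, ht⟩
          induction ht using Algebra.adjoin_induction with
          | mem w hw =>
            obtain ⟨i, rfl⟩ := hw
            exact Algebra.subset_adjoin ⟨i, rfl⟩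
          | algebraMap e =>
            change ψ (algebraMap E (RZ E z) e) ∈ R0
            have h1 : algebraMap E Ω e = algebraMap U1 Ω (algebraMap E U1 e) := (hjE e).symm
            rw [hψE, h1]
            exact Subalgebra.algebraMap_mem _ _
          | add v w _ _ h1 h2 =>
            change ψ (v + w) ∈ R0
            rw [map_add]
            exact add_mem h1 h2
          | mul v w _ _ h1 h2 =>
            change ψ (v * w) ∈ R0
            rw [map_mul]
            exact mul_mem h1 h2
        let f : Algebra.adjoin E (Set.range s0) →+* R0 :=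
          ((ψ : RZ E z →+* Ω).comp
            (Algebra.adjoin E (Set.range s0)).val.toRingHom).codRestrict R0.toSubring hle
        have h2 : IsIntegral R0 (ψ r) := by
          refine ⟨p.map f, hp0.map f, ?_⟩
          rw [Polynomial.eval₂_map]
          have h3 : (algebraMap R0 Ω).comp f =
              (ψ : RZ E z →+* Ω).comp (algebraMap (Algebra.adjoin E (Set.range s0)) (RZ E z)) :=
            RingHom.ext fun t => rfl
          have h4 := Polynomial.hom_eval₂ p (algebraMap (Algebra.adjoin E (Set.range s0)) (RZ E z))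
            (ψ : RZ E z →+* Ω) r
          rw [h3]
          refine h4.symm.trans ?_
          rw [hp, map_zero]
        exact h2.isAlgebraic
      have hΔ0 : ∀ a, IsAlgebraic R0 (Δ.1 a) := by
        obtain ⟨l, hl⟩ := A.sub_div hΔ.symm hΔc
        intro a
        rw [hl a]
        refine alg_div (alg_aeval _ hk0 ?_ _) (alg_aeval _ hk0 ?_ _)
        · rintro (b | b)
          · exact hx0 b
          · exact hy0 _
        · rintro (b | b)
          · exact hx0 b
          · exact hy0 _
      intro b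
      obtain ⟨a, ha⟩ := hBΔ b.2
      rw [← ha]
      exact hΔ0 a
  have hψE' : AlgebraicIndependent E (fun i => ψ (s0 i)) :=
    hψU.restrictScalars (algebraMap E U1).injective
  have h5 : (fun i => ψ (s0 i)) = (IsScalarTower.toAlgHom E κ Ω) ∘ (fun i => ψ0 (s0 i)) := rfl
  rw [h5] at hψE'
  exact hψE'.of_comp _

/-- **Prime differential ideals are zero.** -/
theorem Sit.prime_bot (S : Sit (E := E) A D z c) (I : Ideal (RZ E z)) [hI : I.IsPrime]
    (hD : ∀ r ∈ I, S.DR r ∈ I) : I = ⊥ := by
  obtain ⟨d, hd⟩ := EC.exists_resD S.DR I hD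
  have hfg : Algebra.FiniteType E (RZ E z) := by
    rw [← Subalgebra.fg_iff_finiteType]
    exact Subalgebra.fg_def.2 ⟨_, Set.finite_range z, rfl⟩
  obtain ⟨m, g, hg1, hg2⟩ := exists_finite_inj_algHom_of_fg E (RZ E z)
  let s0 : Fin m → RZ E z := fun i => g (X i)
  have hgs : g = aeval s0 := by
    apply MvPolynomial.algHom_ext
    intro i
    rw [aeval_X]
  have hs0 : AlgebraicIndependent E s0 := by
    intro p q h
    apply hg1
    rw [hgs]
    exact h
  have hint : ∀ r : RZ E z, IsIntegral (Algebra.adjoin E (Set.range s0)) r := by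
    intro r
    obtain ⟨p, hp0, hp⟩ := hg2.to_isIntegral r
    have hle : ∀ q : MvPolynomial (Fin m) E, g q ∈ Algebra.adjoin E (Set.range s0) := by
      intro q
      rw [Algebra.adjoin_range_eq_range_aeval, hgs]
      exact ⟨q, rfl⟩
    let f : MvPolynomial (Fin m) E →+* Algebra.adjoin E (Set.range s0) :=
      (g : MvPolynomial (Fin m) E →+* RZ E z).codRestrict
        (Algebra.adjoin E (Set.range s0)).toSubring hle
    refine ⟨p.map f, hp0.map f, ?_⟩
    rw [Polynomial.eval₂_map]
    exact hp
  by_contra hne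
  obtain ⟨r, hr, hr0⟩ := Submodule.exists_mem_ne_zero_of_ne_bot hne
  have hcore := S.core (κ := FractionRing (RZ E z ⧸ I))
    ((IsScalarTower.toAlgHom E (RZ E z ⧸ I) (FractionRing (RZ E z ⧸ I))).comp
      (Ideal.Quotient.mkₐ E I)) d (fun r => hd r) s0 hs0 hint
  have h1 := Ideal.comap_ne_bot_of_algebraic_mem (R := Algebra.adjoin E (Set.range s0))
    (S := RZ E z) (I := I) hr0 hr (hint r).isAlgebraic
  obtain ⟨t, ht, ht0⟩ := Submodule.exists_mem_ne_zero_of_ne_bot h1
  have ht' : (t : RZ E z) ∈ I := ht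
  obtain ⟨q, hq⟩ : ∃ q : MvPolynomial (Fin m) E, aeval s0 q = (t : RZ E z) := by
    obtain ⟨t, ht2⟩ := t
    rw [Algebra.adjoin_range_eq_range_aeval] at ht2
    exact ht2
  have h3 : aeval (fun i => ((IsScalarTower.toAlgHom E (RZ E z ⧸ I)
      (FractionRing (RZ E z ⧸ I))).comp (Ideal.Quotient.mkₐ E I)) (s0 i)) q = 0 := by
    rw [← comp_aeval_apply, hq]
    change algebraMap (RZ E z ⧸ I) (FractionRing (RZ E z ⧸ I)) (Ideal.Quotient.mk I t) = 0
    rw [Ideal.Quotient.eq_zero_iff_mem.2 ht', map_zero]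
  have h4 : q = 0 := hcore (by rw [h3, map_zero])
  apply ht0
  apply Subtype.ext
  rw [← hq, h4, map_zero]
  rfl

/-- **The differential coordinate ring is simple.** -/
theorem Sit.simple (S : Sit (E := E) A D z c) (I : Ideal (RZ E z))
    (hDI : ∀ r ∈ I, S.DR r ∈ I) (hI : I ≠ ⊥) : I = ⊤ := by
  by_contra hne
  have hcE : CharZero E := charZero_of_injective_algebraMap (algebraMap k E).injective
  have hnoeth : IsNoetherianRing (RZ E z) := by
    have h1 : Algebra.FiniteType E (RZ E z) := by
      rw [← Subalgebra.fg_iff_finiteType]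
      exact Subalgebra.fg_def.2 ⟨_, Set.finite_range z, rfl⟩
    exact Algebra.FiniteType.isNoetherianRing E _
  obtain ⟨m, ⟨hm1, hm2, hm3⟩, hmax⟩ := exists_maximal_of_wellFoundedGT
    (fun J : Ideal (RZ E z) => I ≤ J ∧ J ≠ ⊤ ∧ ∀ r ∈ J, S.DR r ∈ J)
    ⟨I, le_rfl, hne, hDI⟩
  let _ : Algebra ℚ (RZ E z) := ((algebraMap E (RZ E z)).comp (algebraMap ℚ E)).toAlgebra
  have hprime : m.IsPrime := EC.prime_of_maximal (S.DR.restrictScalars ℤ) m hm2
    (fun r hr => hm3 r hr) (fun J h1 h2 h3 => le_antisymm (hmax ⟨hm1.trans h1, h2, h3⟩ h1) h1)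
  have := S.prime_bot m hm3
  rw [this, le_bot_iff] at hm1
  exact hI hm1

end Pool.Agent.K1H80.AV
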