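import Pool.Agent.K1H80.AV.Dsi3
import Pool.Agent.K1H80.EG.Gi3

/-!
# The geometric input for a generic point of an abelian variety
-/

set_option autoImplicit false
set_option linter.unusedSectionVars false

namespace Pool.Agent.K1H80.AV

open Pool.Agent.K1H80
open Pool.Agent.K1H80.EC (IsD isD_left isD_right exists_ext exists_der_ext)
open MvPolynomial
open scoped Classical

/-- the chain rule -/
theorem chain_mv {k R K : Type} [CommRing k] [CommRing R] [CommRing K] [Algebra k R] {σ : Type}
    [Fintype σ] {φ : R →+* K} {δ : R → K} (h : IsD φ δ) (hk : ∀ t : k, δ (algebraMap k R t) = 0)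
    (z : σ → R) (p : MvPolynomial σ k) :
    δ (aeval z p) = ∑ s, φ (aeval z (pderiv s p)) * δ (z s) := by
  induction p using MvPolynomial.induction_on with
  | C a =>
    rw [aeval_C, hk]
    symm
    refine Finset.sum_eq_zero fun s _ => ?_
    rw [pderiv_C, map_zero, map_zero, zero_mul]
  | add p q hp hq =>
    rw [map_add, h.add, hp, hq, ← Finset.sum_add_distrib]
    refine Finset.sum_congr rfl fun s _ => ?_
    rw [map_add, map_add, map_add, add_mul]
  | mul_X p i hp =>
    rw [map_mul, aeval_X, h.mul, hp]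
    have h2 : ∀ s, φ (aeval z (pderiv s (p * X i))) * δ (z s) =
        φ (z i) * (φ (aeval z (pderiv s p)) * δ (z s)) +
          (if s = i then φ (aeval z p) * δ (z s) else 0) := by
      intro s
      rw [pderiv_mul, pderiv_X, map_add, map_mul, map_mul, aeval_X]
      by_cases h : s = i
      · subst h
        rw [if_pos rfl, Pi.single_eq_same, map_one, map_add, map_mul, mul_one]
        ring
      · rw [if_neg h, Pi.single_eq_of_ne (Ne.symm h), map_zero, mul_zero, add_zero, map_mul]
        ring
    rw [Finset.sum_congr rfl fun s _ => h2 s, Finset.sum_add_distrib, Finset.sum_ite_eq',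
      if_pos (Finset.mem_univ i), ← Finset.mul_sum]
    ring

variable {k E U : Type} [Field k] [CharZero k] [Field E] [Field U] [Algebra k E] [Algebra k U]
  [Algebra E U] [IsScalarTower k E U] {N : ℕ} {A : AbelianVariety k N} {D : Derivation k U U}
  {z : Fin N → U} {c : Fin N}

/-- tangent vectors from derivations along homomorphisms -/
theorem tangent_of_isD (hz : IsCoord A.eqn z) (hc : z c = 1) {K : Type} [Field K]
    [Algebra k K] (φ : RZ E z →ₐ[k] K) (δ : RZ E z → K) (h : IsD (φ : RZ E z →+* K) δ)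
    (hk : ∀ t : k, δ (algebraMap k (RZ E z) t) = 0) :
    (fun a => δ (zR E z a)) ∈ tangent A.eqn (fun a => φ (zR E z a)) := by
  have hzR := coord_zR (E := E) hz hc
  intro i
  have h1 := chain_mv h hk (zR E z) (A.eqn i)
  rw [hzR.2 i, h.zero'] at h1
  rw [h1]
  refine Finset.sum_congr rfl fun a _ => ?_
  congr 1
  exact (comp_aeval_apply (f := zR E z) φ _).symm

theorem adjoin_zR : Algebra.adjoin E (Set.range (zR E z)) = ⊤ := by
  rw [eq_top_iff]
  rintro ⟨r, hr⟩ -
  have hr' := hr
  induction hr' using Algebra.adjoin_induction with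
  | mem w hw =>
    obtain ⟨a, rfl⟩ := hw
    exact Algebra.subset_adjoin ⟨a, rfl⟩
  | algebraMap e => exact Subalgebra.algebraMap_mem _ e
  | add v w hv hw h1 h2 =>
    have h3 : (⟨v + w, hr⟩ : RZ E z) = ⟨v, hv⟩ + ⟨w, hw⟩ := rfl
    rw [h3]
    exact add_mem (h1 hv) (h2 hw)
  | mul v w hv hw h1 h2 =>
    have h3 : (⟨v * w, hr⟩ : RZ E z) = ⟨v, hv⟩ * ⟨w, hw⟩ := rfl
    rw [h3]
    exact mul_mem (h1 hv) (h2 hw)

/-- the framed chart -/
noncomputable def cht (E : Type) [Field E] [Algebra k E] [Algebra E U] [IsScalarTower k E U]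
    (hz : IsCoord A.eqn z) (hc : z c = 1) : EG.Cht k E U A.dim where
  R := RZ E z
  σ := Fin N
  fσ := inferInstance
  z := zR E z
  ξ := fun i s => aeval (zR E z) (A.xi c i s)
  η := fun i s => aeval (zR E z) (A.eta c i s)
  gen := adjoin_zR
  frame := by
    intro K _ _ φ δ h hk s
    let _ : Algebra k K := (φ.comp (algebraMap k (RZ E z))).toAlgebra
    let φ' : RZ E z →ₐ[k] K := { toRingHom := φ, commutes' := fun t => rfl }
    have hzc : zR E z c = 1 := Subtype.ext hc
    have h1 := A.frame ((coord_zR (E := E) hz hc).map φ') (tangent_of_isD hz hc φ' δ h hk) (c := c)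
      (by rw [hzc, map_one]) (by rw [hzc, h.one']) s
    refine h1.trans ?_
    have h2 : ∀ p : MvPolynomial (Fin N) k, aeval (fun a => φ' (zR E z a)) p =
        φ (aeval (zR E z) p) := fun p => (comp_aeval_apply (f := zR E z) φ' p).symm
    simp only [h2]

variable (A) in
/-- the quotients of the coordinates -/
noncomputable def nz (X : A.Co U) (c : Fin N) (a : Fin N) : U := (X.1 c)⁻¹ * X.1 a

theorem nz_c (X : A.Co U) {c : Fin N} (hc : X.1 c ≠ 0) : nz A X c c = 1 := inv_mul_cancel₀ hc

theorem nz_coord (X : A.Co U) {c : Fin N} (hc : X.1 c ≠ 0) : IsCoord A.eqn (nz A X c) :=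
  X.2.smul A.homogeneous (IsUnit.mk0 _ (inv_ne_zero hc))

theorem nz_pt (X : A.Co U) {c : Fin N} (hc : X.1 c ≠ 0) :
    pt A.eqn ⟨nz A X c, nz_coord X hc⟩ = pt A.eqn X := by
  symm
  rw [pt_eq_iff]
  exact ⟨Units.mk0 _ (inv_ne_zero hc), fun a => rfl⟩

/-- the charts -/
noncomputable def chts (E : Type) [Field E] [Algebra k E] [Algebra E U] [IsScalarTower k E U]
    (X : A.Co U) (c : {c : Fin N // X.1 c ≠ 0}) : EG.Cht k E U A.dim :=
  cht E (nz_coord X c.2) (nz_c X c.2)

/-- the logarithmic derivatives -/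
noncomputable def WW (X : A.Co U) (D' : Derivation k U U) (i : Fin A.dim) : U := A.cw (A.ld D' X) i

theorem sit_of (X : A.Co U) {c : Fin N} (hc : X.1 c ≠ 0)
    (hE : ∀ e : E, ∃ e' : E, D (algebraMap E U e) = algebraMap E U e')
    (hC : ∀ u : U, D u = 0 → ∃ e : E, algebraMap E U e = u)
    (hW : ∀ i, ∃ e : E, algebraMap E U e = WW X D i) :
    Sit (E := E) A D (nz A X c) c where
  hz := nz_coord X hc
  hc := nz_c X hc
  hE := hE
  hC := hC
  hW := fun i => by
    obtain ⟨e, he⟩ := hW i
    refine ⟨e, he.trans ?_⟩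
    unfold WW
    rw [A.ld_congr D (nz_pt X hc)]

theorem WW_sum (X : A.Co U) {c : Fin N} (hc : X.1 c ≠ 0) (D' : Derivation k U U) (i : Fin A.dim) :
    WW X D' i = ∑ t, aeval (nz A X c) (A.eta c i t) * D' (nz A X c t) := by
  unfold WW
  rw [← A.ld_congr D' (nz_pt X hc)]
  exact (A.eta_spec (nz_coord X hc) (A.D_tangent D' (nz_coord X hc)) (nz_c X hc) i).symm

theorem D_nz (X : A.Co U) {c : Fin N} (hc : X.1 c ≠ 0) (D' : Derivation k U U) (a : Fin N) :
    D' (nz A X c a) = ∑ i, aeval (nz A X c) (A.xi c i a) * WW X D' i := by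
  have h := A.frame (nz_coord X hc) (A.D_tangent D' (nz_coord X hc)) (nz_c X hc) (by
    rw [nz_c X hc, D'.map_one_eq_zero]) a
  refine h.trans ?_
  refine Finset.sum_congr rfl fun i _ => ?_
  rw [WW_sum X hc]

theorem WW_add (X : A.Co U) (D' D'' : Derivation k U U) (i : Fin A.dim) :
    WW X (D' + D'') i = WW X D' i + WW X D'' i := by
  obtain ⟨c, hc⟩ := X.2.1
  rw [WW_sum X hc.ne_zero, WW_sum X hc.ne_zero, WW_sum X hc.ne_zero, ← Finset.sum_add_distrib]
  exact Finset.sum_congr rfl fun t _ => by rw [Derivation.add_apply, mul_add]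

theorem WW_zero (X : A.Co U) (i : Fin A.dim) : WW X (0 : Derivation k U U) i = 0 := by
  obtain ⟨c, hc⟩ := X.2.1
  rw [WW_sum X hc.ne_zero]
  exact Finset.sum_eq_zero fun t _ => by rw [Derivation.zero_apply, mul_zero]

theorem WW_smul (X : A.Co U) (f : U) (D' : Derivation k U U) (i : Fin A.dim) :
    WW X (f • D') i = f * WW X D' i := by
  obtain ⟨c, hc⟩ := X.2.1
  rw [WW_sum X hc.ne_zero, WW_sum X hc.ne_zero, Finset.mul_sum]
  exact Finset.sum_congr rfl fun t _ => by rw [Derivation.smul_apply, smul_eq_mul]; ring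

theorem WW_sum' (X : A.Co U) {ι : Type*} (s : Finset ι) (β : ι → U) (D' : ι → Derivation k U U)
    (i : Fin A.dim) : WW X (∑ a ∈ s, β a • D' a) i = ∑ a ∈ s, β a * WW X (D' a) i := by
  induction s using Finset.induction_on with
  | empty => rw [Finset.sum_empty, Finset.sum_empty, WW_zero]
  | insert a s ha ih => rw [Finset.sum_insert ha, Finset.sum_insert ha, WW_add, WW_smul, ih]

theorem WW_bracket (X : A.Co U) (D D' : Derivation k U U) (i : Fin A.dim) :
    WW X ⁅D, D'⁆ i = D (WW X D' i) - D' (WW X D i) := by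
  unfold WW
  have h := congrArg (fun w => A.cw w i) (A.ld_bracket D D' X)
  simp only [A.cw_add, A.cw_Dw] at h
  rw [h]
  ring

/-- there are derivations with all values -/
theorem exists_D {F : Type} [Field F] [Algebra k F] [Algebra F U] [IsScalarTower k F U] (X : A.Co U)
    {b : Fin N} (hb : X.1 b ≠ 0) {a : Fin A.dim → Fin N}
    (hind : AlgebraicIndependent F (fun i => nz A X b (a i))) (v : Fin A.dim → U) :
    ∃ D' : Derivation k U U, (∀ f : F, D' (algebraMap F U f) = 0) ∧ WW X D' = v := by
  have hcU : CharZero U := charZero_of_injective_algebraMap (algebraMap k U).injective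
  choose Di hDi using fun i : Fin A.dim => exists_der_ext (k := F) (E := F) (K := U) 0 _ hind
    (fun j => if j = i then 1 else 0)
  have hli : LinearIndependent U (fun i => WW X ((Di i).restrictScalars k)) := by
    rw [Fintype.linearIndependent_iff]
    intro β hβ i
    have h1 : WW X (∑ j, β j • (Di j).restrictScalars k) = 0 := by
      funext l
      rw [WW_sum']
      have h2 := congrFun hβ l
      rw [Finset.sum_apply] at h2
      exact h2
    have h2 := D_nz X hb (∑ j, β j • (Di j).restrictScalars k) (a i)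
    rw [h1] at h2
    simp only [Pi.zero_apply, mul_zero, Finset.sum_const_zero] at h2
    rw [EG.der_sum, Finset.sum_eq_single i] at h2
    · rw [Derivation.smul_apply, Derivation.restrictScalars_apply, (hDi i).2, if_pos rfl,
        smul_eq_mul, mul_one] at h2
      exact h2
    · intro j _ hj
      rw [Derivation.smul_apply, Derivation.restrictScalars_apply, (hDi j).2,
        if_neg (Ne.symm hj), smul_zero]
    · intro h; exact absurd (Finset.mem_univ i) h
  have htop := hli.span_eq_top_of_card_eq_finrank' (by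
    rw [Fintype.card_fin, Module.finrank_fin_fun])
  have hmem : v ∈ Submodule.span U (Set.range fun i => WW X ((Di i).restrictScalars k)) := by
    rw [htop]; trivial
  rw [Submodule.mem_span_range_iff_exists_fun] at hmem
  obtain ⟨β, hβ⟩ := hmem
  refine ⟨∑ j, β j • (Di j).restrictScalars k, fun f => ?_, ?_⟩
  · rw [EG.der_sum]
    refine Finset.sum_eq_zero fun j _ => ?_
    rw [Derivation.smul_apply, Derivation.restrictScalars_apply, (hDi j).1]
    exact smul_zero _
  · rw [← hβ]
    funext l
    rw [WW_sum', Finset.sum_apply]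
    rfl

/-- **The geometric situation.** -/
theorem geo {F : Type} [Field F] [Algebra k F] [Algebra F E] [Algebra F U] [IsScalarTower k F E]
    [IsScalarTower F E U] (X : A.Co U)
    (hE : ∀ e : E, ∃ e' : E, D (algebraMap E U e) = algebraMap E U e')
    (hC : ∀ u : U, D u = 0 → ∃ e : E, algebraMap E U e = u)
    (hW : ∀ i, ∃ e : E, algebraMap E U e = WW X D i)
    (hinter : ∀ u : U, (∀ c, X.1 c ≠ 0 → u ∈ RZ E (nz A X c)) → ∃ e : E, algebraMap E U e = u)
    {b : Fin N} (hb : X.1 b ≠ 0) {a : Fin A.dim → Fin N}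
    (hind : AlgebraicIndependent F (fun i => nz A X b (a i))) :
    EG.Geo F D (chts E X) (WW X) where
  ne := ⟨⟨b, hb⟩⟩
  hE := hE
  hC := hC
  stab := fun c => (sit_of X c.2 hE hC hW).stab
  simple := fun c J hJ hJ0 => (sit_of X c.2 hE hC hW).simple J (fun r hr => hJ r hr) hJ0
  inter := fun u hu => hinter u fun c hc => hu ⟨c, hc⟩
  hW := fun c D' i => by
    rw [WW_sum X c.2]
    refine Finset.sum_congr rfl fun t _ => ?_
    change _ = ((aeval (zR E (nz A X c.1)) (A.eta c.1 i t) : RZ E (nz A X c.1)) : U) * _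
    rw [coe_aeval_zR]
    rfl
  closed := fun D' hD' i => by
    rw [WW_bracket]
    obtain ⟨e, he⟩ := hW i
    rw [← he, hD', sub_zero]
  gen := fun v => by
    have : IsScalarTower k F U := IsScalarTower.of_algebraMap_eq fun t => by
      rw [IsScalarTower.algebraMap_apply F E U, ← IsScalarTower.algebraMap_apply k F E,
        ← IsScalarTower.algebraMap_apply k E U]
    exact exists_D X hb hind v

end Pool.Agent.K1H80.AV
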