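import Pool.Agent.K1H80.AV.Geo

/-!
# Subschemes of codimension two, and reduced divisors
-/

set_option autoImplicit false
set_option linter.unusedSectionVars false

namespace Pool.Agent.K1H80.AV

open Pool.Agent.K1H80
open Pool.Agent.K1H80.EC (IsD isD_left isD_right exists_ext exists_der_ext)
open MvPolynomial
open scoped Classical

/-- a derivation over `F` which kills a family kills the elements algebraic over the family -/
theorem der_zero {F κ : Type} [Field F] [Field κ] [CharZero κ] [Algebra F κ] {τ : Type}
    (s : τ → κ) (d : Derivation F κ κ) (hd : ∀ i, d (s i) = 0) {x : κ}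
    (hx : IsAlgebraic (Algebra.adjoin F (Set.range s)) x) : d x = 0 := by
  have hH := isD_left d (RingHom.id κ)
  have hH0 : IsD (RingHom.id κ) (fun _ : κ => (0 : κ)) := ⟨fun x y => by simp, fun x y => by simp⟩
  -- the kernel
  let K : Subfield κ := hH.eqField hH0
  have hK : ∀ x, x ∈ K ↔ d x = 0 := fun x => Iff.rfl
  have hle : ∀ t ∈ Algebra.adjoin F (Set.range s), t ∈ K := by
    intro t ht
    induction ht using Algebra.adjoin_induction with
    | mem w hw =>
      obtain ⟨i, rfl⟩ := hw
      exact hd i
    | algebraMap e => exact d.map_algebraMap e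
    | add v w _ _ h1 h2 => exact add_mem h1 h2
    | mul v w _ _ h1 h2 => exact mul_mem h1 h2
  have hcK : CharZero K :=
    ⟨fun a b h => by
      have h2 := congrArg (algebraMap K κ) h
      rw [map_natCast, map_natCast] at h2
      exact_mod_cast h2⟩
  have hxK : IsAlgebraic K x := by
    obtain ⟨p, hp0, hp⟩ := hx
    let f : Algebra.adjoin F (Set.range s) →+* K :=
      (Algebra.adjoin F (Set.range s)).val.toRingHom.codRestrict K.toSubring (fun t => hle t t.2)
    refine ⟨p.map f, ?_, ?_⟩
    · rw [Ne, Polynomial.map_eq_zero_iff]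
      · exact hp0
      · intro t t' h
        exact Subtype.ext (congrArg (fun w : K => (w : κ)) h)
    · rw [Polynomial.aeval_def, Polynomial.eval₂_map]
      exact hp
  exact hH.alg_zero (E := K) (fun c => c.2) hxK

/-- independent derivations and generators -/
theorem card_le {F κ : Type} [Field F] [Field κ] [CharZero κ] [Algebra F κ] {σ τ ι : Type}
    [Finite τ] [Fintype ι] (q : σ → κ) (s : τ → κ) (δ : ι → Derivation F κ κ)
    (hδ : ∀ β : ι → κ, (∀ a, ∑ i, β i * δ i (q a) = 0) → β = 0)
    (halg : ∀ a, IsAlgebraic (Algebra.adjoin F (Set.range s)) (q a)) :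
    Fintype.card ι ≤ Nat.card τ := by
  have := Fintype.ofFinite τ
  let f : (ι → κ) →ₗ[κ] (τ → κ) :=
    { toFun := fun β t => ∑ i, β i * δ i (s t)
      map_add' := fun β γ => by
        funext t
        simp only [Pi.add_apply, add_mul, Finset.sum_add_distrib]
      map_smul' := fun r β => by
        funext t
        simp only [Pi.smul_apply, smul_eq_mul, RingHom.id_apply, Finset.mul_sum, mul_assoc] }
  have hinj : Function.Injective f := by
    rw [← LinearMap.ker_eq_bot, LinearMap.ker_eq_bot']
    intro β hβ
    apply hδ
    intro a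
    have h1 : (∑ i, β i • δ i) (q a) = 0 := by
      refine der_zero s _ (fun t => ?_) (halg a)
      rw [EG.der_sum]
      have h2 := congrFun hβ t
      refine Eq.trans ?_ h2
      exact Finset.sum_congr rfl fun i _ => by rw [Derivation.smul_apply, smul_eq_mul]
    rw [EG.der_sum] at h1
    refine Eq.trans ?_ h1
    exact Finset.sum_congr rfl fun i _ => by rw [Derivation.smul_apply, smul_eq_mul]
  have h1 := LinearMap.finrank_le_finrank_of_injective hinj
  rw [Module.finrank_fintype_fun_eq_card, Module.finrank_fintype_fun_eq_card] at h1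
  rwa [Nat.card_eq_fintype_card]

/-- independent derivations give independent elements -/
theorem exists_indep {F κ : Type} [Field F] [Field κ] [CharZero κ] [Algebra F κ] {σ ι : Type}
    [Finite σ] [Fintype ι] (q : σ → κ) (δ : ι → Derivation F κ κ)
    (hδ : ∀ β : ι → κ, (∀ a, ∑ i, β i * δ i (q a) = 0) → β = 0) {m : ℕ}
    (hm : m ≤ Fintype.card ι) : ∃ a : Fin m → σ, AlgebraicIndependent F (fun i => q (a i)) := by
  set M := AlgebraicIndependent.matroid F κ with hM
  obtain ⟨B, hB⟩ := M.exists_isBasis (Set.range q) (by
    rw [hM, AlgebraicIndependent.matroid_e]; exact Set.subset_univ _)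
  have hfin : Finite B := ((Set.finite_range q).subset hB.subset).to_subtype
  have hBi : AlgebraicIndependent F (fun b : B => (b : κ)) :=
    AlgebraicIndependent.matroid_indep_iff.1 hB.indep
  have hcl : Set.range q ⊆ M.closure B := hB.subset_closure
  have h1 := card_le q (fun b : B => (b : κ)) δ hδ (fun a => by
    have h2 : q a ∈ M.closure B := hcl ⟨a, rfl⟩
    rw [hM, AlgebraicIndependent.matroid_closure_eq] at h2
    rw [Subtype.range_coe]
    exact h2)
  have h2 : ∀ b : B, ∃ a, q a = b := fun b => hB.subset b.2
  choose g hg using h2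
  have := Fintype.ofFinite B
  rw [Nat.card_eq_fintype_card (α := B)] at h1
  obtain ⟨f⟩ : Nonempty (Fin m ↪ B) := Function.Embedding.nonempty_of_card_le (by
    rw [Fintype.card_fin]; omega)
  refine ⟨fun i => g (f i), ?_⟩
  have h3 : (fun i => q (g (f i))) = (fun b : B => (b : κ)) ∘ f := by
    funext i
    exact hg _
  rw [h3]
  exact hBi.comp f f.injective

end Pool.Agent.K1H80.AV
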