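import Pool.Agent.K1H80.AV.Geo2

/-!
# Subschemes of codimension two, and reduced divisors: the generic point
-/

set_option autoImplicit false
set_option linter.unusedSectionVars false

namespace Pool.Agent.K1H80.AV

open Pool.Agent.K1H80
open Pool.Agent.K1H80.EC (IsD isD_left isD_right exists_ext exists_der_ext)
open MvPolynomial
open scoped Classical

variable {k F E U : Type} [Field k] [CharZero k] [Field F] [Field E] [Field U] [Algebra k F]
  [Algebra k E] [Algebra k U] [Algebra F E] [Algebra F U] [Algebra E U] [IsScalarTower k F E]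
  [IsScalarTower k E U] [IsScalarTower F E U] {N : ℕ} {A : AbelianVariety k N}
  {D : Derivation k U U} {X : A.Co U}

/-- The generic point over a differential field. -/
structure Gs (F E : Type) {k U : Type} [Field k] [CharZero k] [Field F] [Field E] [Field U]
    [Algebra k F] [Algebra k E] [Algebra k U] [Algebra F E] [Algebra F U] [Algebra E U]
    [IsScalarTower k F E] [IsScalarTower k E U] [IsScalarTower F E U] {N : ℕ}
    (A : AbelianVariety k N) (D : Derivation k U U) (X : A.Co U) : Prop where
  hE : ∀ e : E, ∃ e' : E, D (algebraMap E U e) = algebraMap E U e'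
  hC : ∀ u : U, D u = 0 → ∃ e : E, algebraMap E U e = u
  hW : ∀ i, ∃ e : E, algebraMap E U e = WW X D i
  hinter : ∀ u : U, (∀ c, X.1 c ≠ 0 → u ∈ RZ E (nz A X c)) → ∃ e : E, algebraMap E U e = u
  hgen : ∃ b, X.1 b ≠ 0 ∧ ∃ a : Fin A.dim → Fin N, AlgebraicIndependent F (fun i => nz A X b (a i))

theorem Gs.geo (g : Gs F E A D X) : EG.Geo F D (chts E X) (WW X) := by
  obtain ⟨b, hb, a, ha⟩ := g.hgen
  exact AV.geo X g.hE g.hC g.hW g.hinter hb ha

theorem Gs.sit (g : Gs F E A D X) {c : Fin N} (hc : X.1 c ≠ 0) : Sit (E := E) A D (nz A X c) c :=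
  sit_of X hc g.hE g.hC g.hW

/-- the geometric input -/
theorem Gs.final (g : Gs F E A D X) : ∃ (I : Finset (Fin A.dim)),
    (∀ (c : Fin N) (_ : X.1 c ≠ 0) (m : ℕ) (s0 : Fin m → RZ E (nz A X c)),
      (∀ r : RZ E (nz A X c), IsIntegral (Algebra.adjoin E (Set.range s0)) r) → I.card ≤ m) ∧
    ∀ (c : Fin N) (hc : X.1 c ≠ 0) (κ : Type) [Field κ] [CharZero κ] [Algebra (RZ E (nz A X c)) κ]
      [Algebra k κ] [Algebra F κ] [Algebra E κ] [IsScalarTower E (RZ E (nz A X c)) κ]
      [IsScalarTower F E κ] [IsScalarTower k E κ]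
      (T : Type) [Fintype T] (s : T → RZ E (nz A X c)), I.card ≤ Fintype.card T + 1 →
      AlgebraicIndependent E (fun a => algebraMap (RZ E (nz A X c)) κ (s a)) →
      (0 < A.dim → ∃ i0 : Fin A.dim, ∀ i, i ≠ i0 → ∃ δ : Derivation F κ κ, ∀ j, j ≠ i0 →
        ∑ t, algebraMap (RZ E (nz A X c)) κ (aeval (zR E (nz A X c)) (A.eta c j t)) *
          δ (algebraMap (RZ E (nz A X c)) κ (zR E (nz A X c) t)) = if j = i then 1 else 0) ∧
      ∀ (Φ : RZ E (nz A X c)) (γ : Fin A.dim → RZ E (nz A X c)),
        (∀ (d : Derivation F (RZ E (nz A X c)) κ), d Φ = ∑ i, algebraMap (RZ E (nz A X c)) κ (γ i) *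
          ∑ t, algebraMap (RZ E (nz A X c)) κ (aeval (zR E (nz A X c)) (A.eta c i t)) *
            d (zR E (nz A X c) t)) →
        algebraMap (RZ E (nz A X c)) κ Φ = 0 →
        algebraMap (RZ E (nz A X c)) κ ((g.sit hc).DR Φ) = 0 →
        (∃ i, algebraMap (RZ E (nz A X c)) κ (γ i) ≠ 0) → ∀ r : RZ E (nz A X c),
          algebraMap (RZ E (nz A X c)) κ r = 0 →
          algebraMap (RZ E (nz A X c)) κ ((g.sit hc).DR r) = 0 := by
  have hcU : CharZero U := charZero_of_injective_algebraMap (algebraMap k U).injective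
  obtain ⟨I, l, h1, h2, h3⟩ := g.geo.final
  refine ⟨I, fun c hc m s0 hint => ?_, fun c hc κ i1 i2 i3 i4 i5 i6 i7 i8 i9 T i10 s hcard hind =>
    ?_⟩
  · choose D' hD' using h1
    have h4 := card_le (F := E) (κ := U) (σ := Fin N) (τ := Fin m) (ι := I) (nz A X c)
      (fun i => ((s0 i : RZ E (nz A X c)) : U))
      (fun i => EG.toF E (D' i i.2) (hD' i i.2).1) (fun β hβ => ?_) (fun a => ?_)
    · rw [Fintype.card_coe, Nat.card_eq_fintype_card, Fintype.card_fin] at h4
      exact h4
    · have h5 : WW X (∑ i : I, β i • D' i i.2) = 0 := by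
        funext j
        rw [WW_sum X hc]
        refine Finset.sum_eq_zero fun t _ => ?_
        have h6 := hβ t
        simp only [EG.toF_apply] at h6
        rw [EG.der_sum]
        have h7 : ∑ i : I, (β i • D' i i.2) (nz A X c t) = 0 := h6
        rw [h7, mul_zero]
      funext j
      have h6 := congrFun h5 j
      rw [WW_sum', Pi.zero_apply, Finset.sum_eq_single j] at h6
      · rw [(hD' j j.2).2, h2 j j.2 j j.2, if_pos rfl, map_one, mul_one] at h6
        exact h6
      · intro i _ hi
        rw [(hD' i i.2).2, h2 i i.2 j j.2, if_neg (fun h => hi (Subtype.ext h.symm)), map_zero,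
          mul_zero]
      · intro h; exact absurd (Finset.mem_univ j) h
    · obtain ⟨p, hp0, hp⟩ := hint (zR E (nz A X c) a)
      have hle : ∀ t : Algebra.adjoin E (Set.range s0), ((t : RZ E (nz A X c)) : U) ∈
          Algebra.adjoin E (Set.range fun i => ((s0 i : RZ E (nz A X c)) : U)) := by
        rintro ⟨t, ht⟩
        have h5 : Algebra.adjoin E (Set.range fun i => ((s0 i : RZ E (nz A X c)) : U)) =
            (Algebra.adjoin E (Set.range s0)).map (RZ E (nz A X c)).val := by
          rw [AlgHom.map_adjoin]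
          congr 1
          rw [← Set.range_comp]
          rfl
        rw [h5]
        exact ⟨t, ht, rfl⟩
      let f : Algebra.adjoin E (Set.range s0) →+*
          Algebra.adjoin E (Set.range fun i => ((s0 i : RZ E (nz A X c)) : U)) :=
        ((RZ E (nz A X c)).val.toRingHom.comp
          (Algebra.adjoin E (Set.range s0)).val.toRingHom).codRestrict
            (Algebra.adjoin E
              (Set.range fun i => ((s0 i : RZ E (nz A X c)) : U))).toSubring hle
      have h6 : IsIntegral (Algebra.adjoin E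
          (Set.range fun i => ((s0 i : RZ E (nz A X c)) : U))) (nz A X c a) := by
        refine ⟨p.map f, hp0.map f, ?_⟩
        rw [Polynomial.eval₂_map]
        have h4 := Polynomial.hom_eval₂ p
          (algebraMap (Algebra.adjoin E (Set.range s0)) (RZ E (nz A X c)))
          (RZ E (nz A X c)).val.toRingHom (zR E (nz A X c) a)
        refine Eq.trans ?_ (h4.symm.trans ?_)
        · rfl
        · rw [hp, map_zero]
      exact h6.isAlgebraic
  · exact @h3 ⟨c, hc⟩ κ i1 i2 i3 i4 i5 i6 i7 i8 i9 T i10 s hcard hind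

end Pool.Agent.K1H80.AV
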