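import Pool.Agent.K1H80.AV.Geo3

/-!
# Subschemes of codimension two, and reduced divisors, in a chart
-/

set_option autoImplicit false
set_option linter.unusedSectionVars false
set_option linter.unusedVariables false

namespace Pool.Agent.K1H80.AV

open Pool.Agent.K1H80
open Pool.Agent.K1H80.EC (IsD isD_left isD_right exists_ext exists_der_ext)
open MvPolynomial
open scoped Classical

variable {k F E U : Type} [Field k] [CharZero k] [Field F] [Field E] [Field U] [Algebra k F]
  [Algebra k E] [Algebra k U] [Algebra F E] [Algebra F U] [Algebra E U] [IsScalarTower k F E]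
  [IsScalarTower k E U] [IsScalarTower F E U] {N : ℕ} {A : AbelianVariety k N}
  {D : Derivation k U U} {X : A.Co U}

theorem coe_aeval_zRF {z : Fin N → U} (p : MvPolynomial (Fin N) F) :
    ((aeval (zR E z) p : RZ E z) : U) = aeval z p :=
  comp_aeval_apply (f := zR E z) ((RZ E z).val.restrictScalars F) p

theorem card_ne {m : ℕ} (a0 : Fin m) : Fintype.card {a : Fin m // a ≠ a0} + 1 = m := by
  rw [Fintype.card_subtype_compl, Fintype.card_fin, Fintype.card_unique]
  have := a0.2
  omega

theorem zR_c {c : Fin N} (hc : X.1 c ≠ 0) : zR E (nz A X c) c = 1 := Subtype.ext (nz_c X hc)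

section kappa

variable {c : Fin N} {κ : Type} [Field κ] [CharZero κ] [Algebra (RZ E (nz A X c)) κ]
  [Algebra k κ] [Algebra F κ] [Algebra E κ] [IsScalarTower E (RZ E (nz A X c)) κ]
  [IsScalarTower F E κ] [IsScalarTower k E κ]

/-- the residue point -/
noncomputable abbrev qq (X : A.Co U) (c : Fin N) (κ : Type) [Field κ] [Algebra (RZ E (nz A X c)) κ] (a : Fin N) :
    κ := algebraMap (RZ E (nz A X c)) κ (zR E (nz A X c) a)

/-- the independent elements at a point of a chart -/
theorem Gs.indep (g : Gs F E A D X) (hc : X.1 c ≠ 0) {m : ℕ}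
    (s0 : Fin m → RZ E (nz A X c))
    (hint0 : ∀ r : RZ E (nz A X c), IsIntegral (Algebra.adjoin E (Set.range s0)) r)
    {T : Type} [Fintype T] (s : T → RZ E (nz A X c)) (hm : m ≤ Fintype.card T + 1)
    (hind : AlgebraicIndependent E (fun a => algebraMap (RZ E (nz A X c)) κ (s a))) :
    (∃ a : Fin (A.dim - 1) → Fin N, AlgebraicIndependent F (fun i => qq (E := E) X c κ (a i))) ∧
    ∀ (Φ : RZ E (nz A X c)) (γ : Fin A.dim → RZ E (nz A X c)),
        (∀ (d : Derivation F (RZ E (nz A X c)) κ), d Φ =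
          ∑ i, algebraMap (RZ E (nz A X c)) κ (γ i) *
          ∑ t, algebraMap (RZ E (nz A X c)) κ
            (aeval (zR E (nz A X c)) (A.eta c i t)) * d (zR E (nz A X c) t)) →
        algebraMap (RZ E (nz A X c)) κ Φ = 0 →
        algebraMap (RZ E (nz A X c)) κ ((g.sit hc).DR Φ) = 0 →
        (∃ i, algebraMap (RZ E (nz A X c)) κ (γ i) ≠ 0) → ∀ r : RZ E (nz A X c),
          algebraMap (RZ E (nz A X c)) κ r = 0 →
          algebraMap (RZ E (nz A X c)) κ ((g.sit hc).DR r) = 0 := by
  obtain ⟨I, h1, h2⟩ := g.final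
  obtain ⟨h4, h5⟩ := h2 c hc κ T s ((h1 c hc m s0 hint0).trans hm) hind
  refine ⟨?_, h5⟩
  rcases Nat.eq_zero_or_pos A.dim with h0 | h0
  · refine ⟨fun i => absurd i.2 (by omega), ?_⟩
    have : IsEmpty (Fin (A.dim - 1)) := by
      rw [h0]
      exact Fin.isEmpty
    rw [algebraicIndependent_empty_type_iff]
    exact (algebraMap F κ).injective
  · obtain ⟨i0, h6⟩ := h4 h0
    choose δ hδ using fun i : {i : Fin A.dim // i ≠ i0} => h6 i i.2
    obtain ⟨a, ha⟩ := exists_indep (F := F) (κ := κ) (qq (E := E) X c κ) δ (fun β hβ => by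
        funext i
        have h7 : ∑ t, ∑ l, algebraMap (RZ E (nz A X c)) κ
            (aeval (zR E (nz A X c)) (A.eta c i t)) *
            (β l * δ l (algebraMap (RZ E (nz A X c)) κ (zR E (nz A X c) t))) = 0 :=
          Finset.sum_eq_zero fun t _ => by rw [← Finset.mul_sum, hβ t, mul_zero]
        rw [Finset.sum_comm] at h7
        have h8 : ∀ l, ∑ t, algebraMap (RZ E (nz A X c)) κ
            (aeval (zR E (nz A X c)) (A.eta c i t)) *
            (β l * δ l (algebraMap (RZ E (nz A X c)) κ (zR E (nz A X c) t))) =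
            β l * if (i : Fin A.dim) = l then 1 else 0 := by
          intro l
          rw [← hδ l i i.2, Finset.mul_sum]
          exact Finset.sum_congr rfl fun t _ => by ring
        rw [Finset.sum_congr rfl fun l _ => h8 l, Finset.sum_eq_single i] at h7
        · rw [if_pos rfl, mul_one] at h7
          exact h7
        · intro l _ hl
          rw [if_neg (fun h => hl (Subtype.ext h.symm)), mul_zero]
        · intro h; exact absurd (Finset.mem_univ i) h) (m := A.dim - 1) (by
          have := card_ne i0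
          omega)
    exact ⟨a, ha⟩

theorem tower1 (k F E κ : Type) [Field k] [Field F] [Field E] [Field κ] [Algebra k F] [Algebra k E]
    [Algebra F E] [IsScalarTower k F E] [Algebra k κ] [Algebra F κ] [Algebra E κ]
    [IsScalarTower F E κ] [IsScalarTower k E κ] : IsScalarTower k F κ :=
  IsScalarTower.of_algebraMap_eq fun t => by
    rw [IsScalarTower.algebraMap_apply k E κ, IsScalarTower.algebraMap_apply k F E,
      ← IsScalarTower.algebraMap_apply F E κ]

theorem tower2 : IsScalarTower F (RZ E (nz A X c)) κ :=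
  IsScalarTower.of_algebraMap_eq fun t => by
    rw [IsScalarTower.algebraMap_apply F E κ,
      IsScalarTower.algebraMap_apply E (RZ E (nz A X c)) κ]
    congr 1
    apply Subtype.ext
    change algebraMap E U (algebraMap F E t) = algebraMap F U t
    rw [← IsScalarTower.algebraMap_apply F E U]

theorem tower3 : IsScalarTower k (RZ E (nz A X c)) κ :=
  IsScalarTower.of_algebraMap_eq fun t => by
    rw [IsScalarTower.algebraMap_apply k E κ,
      IsScalarTower.algebraMap_apply E (RZ E (nz A X c)) κ]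
    congr 1
    apply Subtype.ext
    change algebraMap E U (algebraMap k E t) = algebraMap k U t
    rw [← IsScalarTower.algebraMap_apply k E U]

theorem coord_qq (hc : X.1 c ≠ 0) : IsCoord A.eqn (qq (E := E) X c κ) := by
  have := tower3 (k := k) (E := E) (A := A) (X := X) (c := c) (κ := κ)
  exact (coord_zR (E := E) (nz_coord X hc) (nz_c X hc)).map
    (IsScalarTower.toAlgHom k (RZ E (nz A X c)) κ)

theorem aeval_qqF (p : MvPolynomial (Fin N) F) : aeval (qq (E := E) X c κ) p =
    algebraMap (RZ E (nz A X c)) κ (aeval (zR E (nz A X c)) p) := by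
  have := tower2 (k := k) (F := F) (E := E) (A := A) (X := X) (c := c) (κ := κ)
  exact (comp_aeval_apply (f := zR E (nz A X c))
      (IsScalarTower.toAlgHom F (RZ E (nz A X c)) κ) p).symm

theorem aeval_qqk (p : MvPolynomial (Fin N) k) : aeval (qq (E := E) X c κ) p =
    algebraMap (RZ E (nz A X c)) κ (aeval (zR E (nz A X c)) p) := by
  have := tower3 (k := k) (E := E) (A := A) (X := X) (c := c) (κ := κ)
  exact (comp_aeval_apply (f := zR E (nz A X c))
      (IsScalarTower.toAlgHom k (RZ E (nz A X c)) κ) p).symm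

/-- **Codimension two.** -/
theorem Gs.cod (g : Gs F E A D X) {w : ℕ} {G : Fin w → MvPolynomial (Fin N) F}
    (hcod : HasCodimTwo A G) (hc : X.1 c ≠ 0) {m : ℕ}
    (s0 : Fin m → RZ E (nz A X c))
    (hint0 : ∀ r : RZ E (nz A X c), IsIntegral (Algebra.adjoin E (Set.range s0)) r)
    {T : Type} [Fintype T] (s : T → RZ E (nz A X c)) (hm : m ≤ Fintype.card T + 1)
    (hG : ∀ j, algebraMap (RZ E (nz A X c)) κ (aeval (zR E (nz A X c)) (G j)) = 0) :
    ¬ AlgebraicIndependent E (fun a => algebraMap (RZ E (nz A X c)) κ (s a)) := by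
  intro hind
  obtain ⟨⟨a, ha⟩, -⟩ := g.indep (κ := κ) hc s0 hint0 s hm hind
  have h1 : qq (E := E) X c κ c = 1 := by
    unfold qq
    rw [zR_c hc, map_one]
  have := tower1 k F E κ
  refine hcod κ (qq (E := E) X c κ) (coord_qq hc) (fun j => ?_) c
    (by rw [h1]; exact one_ne_zero) a ?_
  · rw [aeval_qqF (k := k)]
    exact hG j
  · rw [h1]
    simp only [div_one]
    exact ha

/-- **Reduced divisors.** -/
theorem Gs.red (g : Gs F E A D X) {w : ℕ} {G : Fin w → MvPolynomial (Fin N) F} {d : Fin w → ℕ}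
    (hGd : ∀ j, (G j).IsHomogeneous (d j))
    (hred : IsReducedInCodimOne A G) (hc : X.1 c ≠ 0) {m : ℕ}
    (s0 : Fin m → RZ E (nz A X c))
    (hint0 : ∀ r : RZ E (nz A X c), IsIntegral (Algebra.adjoin E (Set.range s0)) r)
    {T : Type} [Fintype T] (s : T → RZ E (nz A X c)) (hm : m ≤ Fintype.card T + 1)
    (hG : ∀ j, algebraMap (RZ E (nz A X c)) κ (aeval (zR E (nz A X c)) (G j)) = 0)
    (hDG : ∀ j, algebraMap (RZ E (nz A X c)) κ
      ((g.sit hc).DR (aeval (zR E (nz A X c)) (G j))) = 0)
    (hne : ∃ j, aeval (zR E (nz A X c)) (G j) ≠ 0) :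
    ¬ AlgebraicIndependent E (fun a => algebraMap (RZ E (nz A X c)) κ (s a)) := by
  intro hind
  obtain ⟨⟨a, ha⟩, hsimp⟩ := g.indep (κ := κ) hc s0 hint0 s hm hind
  have h1 : qq (E := E) X c κ c = 1 := by
    unfold qq
    rw [zR_c hc, map_one]
  -- the coefficients of the differentials
  let γ : Fin w → Fin A.dim → RZ E (nz A X c) := fun j i =>
    ∑ t, aeval (zR E (nz A X c)) (pderiv t (G j)) * aeval (zR E (nz A X c)) (A.xi c i t)
  have hγ : ∀ j i, algebraMap (RZ E (nz A X c)) κ (γ j i) = 0 := by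
    by_contra hcon
    push Not at hcon
    obtain ⟨j, i, hji⟩ := hcon
    have hst := hsimp (aeval (zR E (nz A X c)) (G j)) (γ j) (fun d => ?_) (hG j) (hDG j) ⟨i, hji⟩
    · have hst' : ∀ r ∈ RingHom.ker (algebraMap (RZ E (nz A X c)) κ),
          (g.sit hc).DR r ∈ RingHom.ker (algebraMap (RZ E (nz A X c)) κ) := fun r hr => hst r hr
      have h2 : RingHom.ker (algebraMap (RZ E (nz A X c)) κ) = ⊥ := by
        by_contra hne'
        exact (RingHom.ker_isPrime (algebraMap (RZ E (nz A X c)) κ)).ne_top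
          ((g.sit hc).simple _ hst' hne')
      obtain ⟨j', hj'⟩ := hne
      apply hj'
      have h3 : aeval (zR E (nz A X c)) (G j') ∈ RingHom.ker (algebraMap (RZ E (nz A X c)) κ) :=
        hG j'
      rw [h2, Ideal.mem_bot] at h3
      exact h3
    · have hId : IsD (algebraMap (RZ E (nz A X c)) κ) d := ⟨fun x y => map_add d x y, fun x y => by
        rw [d.leibniz, Algebra.smul_def, Algebra.smul_def]⟩
      have h2 := chain_mv (k := F) hId (fun t => d.map_algebraMap t) (zR E (nz A X c)) (G j)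
      have hdk : ∀ t : k, d (algebraMap k (RZ E (nz A X c)) t) = 0 := by
        intro t
        have h4 : algebraMap k (RZ E (nz A X c)) t = algebraMap F (RZ E (nz A X c))
            (algebraMap k F t) := by
          apply Subtype.ext
          change algebraMap k U t = algebraMap F U (algebraMap k F t)
          rw [IsScalarTower.algebraMap_apply F E U, ← IsScalarTower.algebraMap_apply k F E,
            ← IsScalarTower.algebraMap_apply k E U]
        rw [h4]
        exact d.map_algebraMap _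
      have h3 := fun s => (cht E (nz_coord X hc) (nz_c X hc)).frame κ
        (algebraMap (RZ E (nz A X c)) κ) d hId hdk s
      rw [h2]
      have h5 : ∀ s, algebraMap (RZ E (nz A X c)) κ (aeval (zR E (nz A X c)) (pderiv s (G j))) *
          d (zR E (nz A X c) s) = ∑ i, algebraMap (RZ E (nz A X c)) κ
            (aeval (zR E (nz A X c)) (pderiv s (G j)) * aeval (zR E (nz A X c)) (A.xi c i s)) *
            ∑ t, algebraMap (RZ E (nz A X c)) κ (aeval (zR E (nz A X c)) (A.eta c i t)) *
              d (zR E (nz A X c) t) := by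
        intro s
        have h6 : d (zR E (nz A X c) s) = ∑ i, algebraMap (RZ E (nz A X c)) κ
            (aeval (zR E (nz A X c)) (A.xi c i s)) * ∑ t, algebraMap (RZ E (nz A X c)) κ
              (aeval (zR E (nz A X c)) (A.eta c i t)) * d (zR E (nz A X c) t) := h3 s
        conv_lhs => rw [h6]
        rw [Finset.mul_sum]
        refine Finset.sum_congr rfl fun i _ => ?_
        rw [map_mul, mul_assoc]
      rw [Finset.sum_congr rfl fun s _ => h5 s, Finset.sum_comm]
      refine Finset.sum_congr rfl fun i _ => ?_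
      rw [← Finset.sum_mul, ← map_sum]
  have := tower1 k F E κ
  refine hred κ (qq (E := E) X c κ) (coord_qq hc)
    (fun j => ?_) (fun j v hv => ?_) c (by rw [h1]; exact one_ne_zero) a ?_
  · rw [aeval_qqF (k := k)]
    exact hG j
  · have hq : IsCoord A.eqn (qq (E := E) X c κ) := coord_qq hc
    set q : Fin N → κ := qq (E := E) X c κ with hqdef
    have hv' : v - v c • q ∈ tangent A.eqn q :=
      Submodule.sub_mem _ hv (Submodule.smul_mem _ _ (A.euler hq))
    have h2 := A.frame hq hv' (c := c) h1 (by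
      rw [Pi.sub_apply, Pi.smul_apply, smul_eq_mul]
      rw [h1, mul_one, sub_self])
    have h3 : ∑ t, aeval q (pderiv t (G j)) * q t = 0 := by
      have h4 := (hGd j).sum_X_mul_pderiv
      have h5 := congrArg (aeval q) h4
      rw [map_sum, map_nsmul, hqdef, aeval_qqF (k := k), hG j, smul_zero, ← hqdef] at h5
      rw [← h5]
      refine Finset.sum_congr rfl fun t _ => ?_
      rw [map_mul, aeval_X, mul_comm]
    have h4 : ∑ t, aeval q (pderiv t (G j)) * (v - v c • q) t = 0 := by
      have h5 : ∀ t, aeval q (pderiv t (G j)) * (v - v c • q) t =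
          ∑ i, algebraMap (RZ E (nz A X c)) κ (aeval (zR E (nz A X c)) (pderiv t (G j)) *
            aeval (zR E (nz A X c)) (A.xi c i t)) *
            ∑ t, aeval q (A.eta c i t) * (v - v c • q) t := by
        intro t
        conv_lhs => rw [h2 t]
        rw [Finset.mul_sum]
        refine Finset.sum_congr rfl fun i _ => ?_
        rw [map_mul, hqdef, aeval_qqF (k := k), aeval_qqk, mul_assoc]
      rw [Finset.sum_congr rfl fun t _ => h5 t, Finset.sum_comm]
      refine Finset.sum_eq_zero fun i _ => ?_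
      rw [← Finset.sum_mul, ← map_sum]
      have h6 := hγ j i
      change algebraMap (RZ E (nz A X c)) κ (∑ t, aeval (zR E (nz A X c)) (pderiv t (G j)) *
        aeval (zR E (nz A X c)) (A.xi c i t)) = 0 at h6
      rw [h6, zero_mul]
    have h5 : ∀ t, aeval q (pderiv t (G j)) * v t = aeval q (pderiv t (G j)) * (v - v c • q) t +
        v c * (aeval q (pderiv t (G j)) * q t) := by
      intro t
      rw [Pi.sub_apply, Pi.smul_apply, smul_eq_mul]
      ring
    rw [Finset.sum_congr rfl fun t _ => h5 t, Finset.sum_add_distrib, h4, ← Finset.mul_sum, h3,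
      mul_zero, add_zero]
  · rw [h1]
    simp only [div_one]
    exact ha

end kappa

section ideal

variable {c : Fin N}

/-- independence modulo a prime ideal, in the residue field -/
theorem indep_res {T : Type} (s : T → RZ E (nz A X c)) (𝔭 : Ideal (RZ E (nz A X c)))
    [h𝔭 : 𝔭.IsPrime] (hind : AlgebraicIndependent E (fun a =>
      (Ideal.Quotient.mk 𝔭 (s a) : RZ E (nz A X c) ⧸ 𝔭))) :
    AlgebraicIndependent E (fun a =>
      algebraMap (RZ E (nz A X c)) (FractionRing (RZ E (nz A X c) ⧸ 𝔭)) (s a)) := by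
  have h3 := hind.map' (f := IsScalarTower.toAlgHom E (RZ E (nz A X c) ⧸ 𝔭)
    (FractionRing (RZ E (nz A X c) ⧸ 𝔭))) (IsFractionRing.injective _ _)
  exact h3

theorem zero_res (𝔭 : Ideal (RZ E (nz A X c))) [h𝔭 : 𝔭.IsPrime] {r : RZ E (nz A X c)}
    (hr : r ∈ 𝔭) :
    algebraMap (RZ E (nz A X c)) (FractionRing (RZ E (nz A X c) ⧸ 𝔭)) r = 0 := by
  rw [IsScalarTower.algebraMap_apply (RZ E (nz A X c)) (RZ E (nz A X c) ⧸ 𝔭)
    (FractionRing (RZ E (nz A X c) ⧸ 𝔭))]
  have h1 : algebraMap (RZ E (nz A X c)) (RZ E (nz A X c) ⧸ 𝔭) r = 0 :=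
    Ideal.Quotient.eq_zero_iff_mem.2 hr
  rw [h1, map_zero]

/-- **Codimension two**, for prime ideals. -/
theorem Gs.codI (g : Gs F E A D X) {w : ℕ} {G : Fin w → MvPolynomial (Fin N) F}
    (hcod : HasCodimTwo A G) (hc : X.1 c ≠ 0) {m : ℕ}
    (s0 : Fin m → RZ E (nz A X c))
    (hint0 : ∀ r : RZ E (nz A X c), IsIntegral (Algebra.adjoin E (Set.range s0)) r)
    (𝔭 : Ideal (RZ E (nz A X c))) (h𝔭 : 𝔭.IsPrime)
    (hG : ∀ j, aeval (zR E (nz A X c)) (G j) ∈ 𝔭) (a0 : Fin m) :
    ¬ AlgebraicIndependent E (fun a : {a : Fin m // a ≠ a0} =>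
      (Ideal.Quotient.mk 𝔭 (s0 a) : RZ E (nz A X c) ⧸ 𝔭)) := by
  intro hind
  have hcκ : CharZero (FractionRing (RZ E (nz A X c) ⧸ 𝔭)) :=
    charZero_of_injective_algebraMap
      (algebraMap k (FractionRing (RZ E (nz A X c) ⧸ 𝔭))).injective
  exact g.cod (κ := FractionRing (RZ E (nz A X c) ⧸ 𝔭)) hcod hc s0 hint0
    (fun a : {a : Fin m // a ≠ a0} => s0 a) (card_ne a0).ge (fun j => zero_res 𝔭 (hG j))
    (indep_res (fun a : {a : Fin m // a ≠ a0} => s0 a) 𝔭 hind)

/-- **Reduced divisors**, for prime ideals. -/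
theorem Gs.redI (g : Gs F E A D X) {w : ℕ} {G : Fin w → MvPolynomial (Fin N) F} {d : Fin w → ℕ}
    (hGd : ∀ j, (G j).IsHomogeneous (d j))
    (hred : IsReducedInCodimOne A G) (hc : X.1 c ≠ 0) {m : ℕ}
    (s0 : Fin m → RZ E (nz A X c))
    (hint0 : ∀ r : RZ E (nz A X c), IsIntegral (Algebra.adjoin E (Set.range s0)) r)
    (𝔭 : Ideal (RZ E (nz A X c))) (h𝔭 : 𝔭.IsPrime)
    (hG : ∀ j, aeval (zR E (nz A X c)) (G j) ∈ 𝔭)
    (hDG : ∀ j, (g.sit hc).DR (aeval (zR E (nz A X c)) (G j)) ∈ 𝔭)
    (hne : ∃ j, aeval (zR E (nz A X c)) (G j) ≠ 0) (a0 : Fin m) :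
    ¬ AlgebraicIndependent E (fun a : {a : Fin m // a ≠ a0} =>
      (Ideal.Quotient.mk 𝔭 (s0 a) : RZ E (nz A X c) ⧸ 𝔭)) := by
  intro hind
  have hcκ : CharZero (FractionRing (RZ E (nz A X c) ⧸ 𝔭)) :=
    charZero_of_injective_algebraMap
      (algebraMap k (FractionRing (RZ E (nz A X c) ⧸ 𝔭))).injective
  exact g.red (κ := FractionRing (RZ E (nz A X c) ⧸ 𝔭)) hGd hred hc s0 hint0
    (fun a : {a : Fin m // a ≠ a0} => s0 a) (card_ne a0).ge (fun j => zero_res 𝔭 (hG j))
    (fun j => zero_res 𝔭 (hDG j)) hne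
    (indep_res (fun a : {a : Fin m // a ≠ a0} => s0 a) 𝔭 hind)

end ideal

end Pool.Agent.K1H80.AV
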