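import Pool.Agent.K1H80.AV.Ul
import Pool.Agent.K1H80.EC.Ct2

/-!
# Heights and common zeros in the charts
-/

set_option autoImplicit false
set_option linter.unusedSectionVars false
set_option linter.unusedVariables false

namespace Pool.Agent.K1H80.AV

open Pool.Agent.K1H80
open FF Filter MvPolynomial Module Pool.Agent.W603.LV Pool.Agent.W603.PV Pool.Agent.W603.CZ
open Pool.Agent.Y731.FG
open Pool.Agent.K1H80.EC (BQ mem_BQ)
open scoped Classical

section one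

variable {k : Type} [Field k] [IsAlgClosed k] [CharZero k] {K : Type} [Field K] [Algebra k K]
  [IsFF k K]

theorem hgt_div_le {ι : Type} [Finite ι] {x : ι → K} (a : ι) {c : ι} (hc : x c ≠ 0) :
    hgt k ((x c)⁻¹ * x a) ≤ hgtP k x := by
  have hx : ∃ c, x c ≠ 0 := ⟨c, hc⟩
  have hf := ((finite_support (k := k) ((x c)⁻¹ * x a)).union (minOrd_finite (k := k) hx)).union
    (finite_support (k := k) (x c))
  have h1 : ∀ P : Place k K, P.ord ((x c)⁻¹ * x a) ≠ 0 → P ∈ hf.toFinset := fun P hP => by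
    rw [Set.Finite.mem_toFinset]
    exact Or.inl (Or.inl hP)
  have h2 : ∀ P : Place k K, minOrd P x ≠ 0 → P ∈ hf.toFinset := fun P hP => by
    rw [Set.Finite.mem_toFinset]
    exact Or.inl (Or.inr hP)
  have h3 : ∀ P : Place k K, P.ord (x c) ≠ 0 → P ∈ hf.toFinset := fun P hP => by
    rw [Set.Finite.mem_toFinset]
    exact Or.inr hP
  have h5 := sum_ord_finset (k := k) (x c) hf.toFinset h3
  rw [hgt_finset _ hf.toFinset h1, hgtP_finset hx hf.toFinset h2]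
  have h6 : -∑ P ∈ hf.toFinset, minOrd P x = ∑ P ∈ hf.toFinset, (P.ord (x c) - minOrd P x) := by
    rw [Finset.sum_sub_distrib, h5, zero_sub]
  rw [h6]
  refine Finset.sum_le_sum fun P _ => max_le ?_ ?_
  · by_cases ha : x a = 0
    · rw [ha, mul_zero, P.ord_zero]
      have h4 := minOrd_le P hc
      omega
    · have h4 := minOrd_le P ha
      rw [P.ord_mul (inv_ne_zero hc) ha, P.ord_inv]
      omega
  · have h4 := minOrd_le P hc
    omega

end one

variable {I : Type} {𝒰 : Ultrafilter I} {k F : Type} [Field k] [IsAlgClosed k] [CharZero k]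
  [Field F] [Algebra k F] {L : I → Type} [∀ i, Field (L i)] [∀ i, Algebra k (L i)]
  [∀ i, Algebra F (L i)] [∀ i, IsScalarTower k F (L i)]
  [∀ i, IsFF k (L i)] {Δ : Dt 𝒰 k F L} {N : ℕ} {A : AbelianVariety k N}

theorem hp_nonneg (X : A.Co (UL 𝒰 L)) : ∀ᶠ i in (𝒰 : Filter I), 0 ≤ hp k X.1 i := by
  obtain ⟨c, hc⟩ := X.2.1
  filter_upwards [hp_eq (k := k) X.1, rep_ne hc.ne_zero] with i h1 h2
  rw [h1]
  exact le_trans (hgt_nonneg _) (hgt_div_le (k := k) (x := fun c => rep (X.1 c) i) c h2)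

theorem ht_nz (X : A.Co (UL 𝒰 L)) {c : Fin N} (hc : X.1 c ≠ 0) (a : Fin N) :
    ∀ᶠ i in (𝒰 : Filter I), ht k (nz A X c a) i ≤ hp k X.1 i := by
  filter_upwards [hp_eq (k := k) X.1, rep_ne hc, rep_mul (X.1 c)⁻¹ (X.1 a), rep_inv (X.1 c)] with
    i h1 h2 h3 h4
  rw [h1]
  unfold ht nz
  rw [h3, h4]
  exact hgt_div_le (k := k) (x := fun c => rep (X.1 c) i) a h2

theorem ht_one_le (X : A.Co (UL 𝒰 L)) :
    ∀ᶠ i in (𝒰 : Filter I), ht k (1 : UL 𝒰 L) i ≤ hp k X.1 i := by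
  obtain ⟨c, hc⟩ := X.2.1
  filter_upwards [ht_nz X hc.ne_zero c] with i h1
  rw [nz_c X hc.ne_zero] at h1
  exact h1

/-- heights of the elements of the charts -/
theorem ht_RZ (X : A.Co (UL 𝒰 L)) {c : Fin N} (hc : X.1 c ≠ 0) {s : UL 𝒰 L}
    (hs : s ∈ RZ Δ.E (nz A X c)) : ∃ C B : ℕ, ∀ᶠ i in (𝒰 : Filter I),
      ht k s i ≤ C * hp k X.1 i + B * Δ.χ i := by
  let y : Fin N → UL 𝒰 L := fun a => if nz A X c a = 0 then 1 else nz A X c a
  have hy : ∀ a, y a ≠ 0 := by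
    intro a
    simp only [y]
    split_ifs with h
    · exact one_ne_zero
    · exact h
  have hle : RZ Δ.E (nz A X c) ≤ Algebra.adjoin Δ.E (Set.range y) := by
    refine Algebra.adjoin_le ?_
    rintro _ ⟨a, rfl⟩
    by_cases h : nz A X c a = 0
    · change nz A X c a ∈ Algebra.adjoin Δ.E (Set.range y)
      rw [h]
      exact zero_mem _
    · refine Algebra.subset_adjoin ⟨a, ?_⟩
      simp only [y, if_neg h]
  have hs' := hle hs
  rw [Algebra.adjoin_range_eq_range_aeval] at hs'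
  obtain ⟨p, hp'⟩ := hs'
  obtain ⟨B, hB⟩ := EC.ht_poly (Δ := Δ) y hy p le_rfl
  refine ⟨p.totalDegree * N, B, ?_⟩
  have h1 : ∀ᶠ i in (𝒰 : Filter I), ∀ a, ht k (y a) i ≤ hp k X.1 i := by
    rw [eventually_all]
    intro a
    simp only [y]
    split_ifs with h
    · exact ht_one_le X
    · exact ht_nz X hc a
  filter_upwards [hB, h1] with i h2 h3
  have h4 : Hu k y i ≤ N * hp k X.1 i := by
    unfold Hu
    refine (Finset.sum_le_sum fun a _ => h3 a).trans ?_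
    rw [Finset.sum_const, Finset.card_univ, Fintype.card_fin, nsmul_eq_mul]
  have h5 : aeval y p = s := hp'
  rw [h5] at h2
  refine h2.trans ?_
  push_cast
  have h6 := mul_le_mul_of_nonneg_left h4 (Int.natCast_nonneg p.totalDegree)
  linarith

/-- change of the height -/
theorem ng_of {H H' : I → ℤ} {e : Om k L → ℤ} (h : Ng 𝒰 Δ.χ H e) {C B : ℕ}
    (hH : ∀ᶠ i in (𝒰 : Filter I), H i ≤ C * H' i + B * Δ.χ i)
    (hH' : ∀ᶠ i in (𝒰 : Filter I), 0 ≤ H' i) : Ng 𝒰 Δ.χ H' e := by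
  intro ε hε
  have hC : (0 : ℝ) < C + 1 := by positivity
  obtain ⟨B', hB'⟩ := h (ε / (C + 1)) (by positivity)
  refine ⟨B' + ε / (C + 1) * B, ?_⟩
  filter_upwards [hB', hH, hH'] with i h1 h2 h3 T
  refine (h1 T).trans ?_
  have h4 : (H i : ℝ) ≤ C * H' i + B * Δ.χ i := by exact_mod_cast h2
  have h5 : (0 : ℝ) ≤ H' i := by exact_mod_cast h3
  have h6 : ε / (C + 1) * H i ≤ ε / (C + 1) * (C * H' i + B * Δ.χ i) :=
    mul_le_mul_of_nonneg_left h4 (by positivity)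
  have h7 : ε / (C + 1) * (C * H' i) ≤ ε * H' i := by
    rw [div_mul_eq_mul_div, div_le_iff₀ hC]
    nlinarith [mul_nonneg hε.le h5]
  nlinarith

/-- **Common zeros in a chart.** -/
theorem ctA {X : A.Co (UL 𝒰 L)} (g : Gs F Δ.E A (uD Δ.D) X) {c : Fin N} (hc : X.1 c ≠ 0)
    {w : ℕ} (ψ : Fin w → RZ Δ.E (nz A X c))
    (hψ : ∀ (m : ℕ) (s0 : Fin m → RZ Δ.E (nz A X c)),
      (∀ r : RZ Δ.E (nz A X c), IsIntegral (Algebra.adjoin Δ.E (Set.range s0)) r) →
      ∀ 𝔭 : Ideal (RZ Δ.E (nz A X c)), 𝔭.IsPrime → (∀ j, ψ j ∈ 𝔭) → ∀ a0,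
        ¬ AlgebraicIndependent Δ.E (fun a : {a : Fin m // a ≠ a0} =>
          (Ideal.Quotient.mk 𝔭 (s0 a) : RZ Δ.E (nz A X c) ⧸ 𝔭)))
    (h0 : ∃ j, ψ j ≠ 0) :
    Ng 𝒰 Δ.χ (hp k X.1) (fun ω : Om k L => if ω ∈ QC X.1 c then
      mo (fun j => (ψ j : UL 𝒰 L)) ω else 0) := by
  have hfg : Algebra.FiniteType Δ.E (RZ Δ.E (nz A X c)) := by
    rw [← Subalgebra.fg_iff_finiteType]
    exact Subalgebra.fg_def.2 ⟨_, Set.finite_range _, rfl⟩
  obtain ⟨m, g0, hg1, hg2⟩ := exists_finite_inj_algHom_of_fg Δ.E (RZ Δ.E (nz A X c))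
  let s0 : Fin m → RZ Δ.E (nz A X c) := fun i => g0 (MvPolynomial.X i)
  have hgs : g0 = aeval s0 := by
    apply MvPolynomial.algHom_ext
    intro i
    rw [aeval_X]
  have hs0 : AlgebraicIndependent Δ.E s0 := by
    intro p q h
    apply hg1
    rw [hgs]
    exact h
  have hint : ∀ r : RZ Δ.E (nz A X c), IsIntegral (Algebra.adjoin Δ.E (Set.range s0)) r := by
    intro r
    obtain ⟨p, hp0, hp⟩ := hg2.to_isIntegral r
    have hle : ∀ q : MvPolynomial (Fin m) Δ.E, g0 q ∈ Algebra.adjoin Δ.E (Set.range s0) := by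
      intro q
      rw [Algebra.adjoin_range_eq_range_aeval, hgs]
      exact ⟨q, rfl⟩
    let f : MvPolynomial (Fin m) Δ.E →+* Algebra.adjoin Δ.E (Set.range s0) :=
      (g0 : MvPolynomial (Fin m) Δ.E →+* RZ Δ.E (nz A X c)).codRestrict
        (Algebra.adjoin Δ.E (Set.range s0)).toSubring hle
    refine ⟨p.map f, hp0.map f, ?_⟩
    rw [Polynomial.eval₂_map]
    exact hp
  set s : Fin m → UL 𝒰 L := fun i => ((s0 i : RZ Δ.E (nz A X c)) : UL 𝒰 L) with hsdef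
  have hs : AlgebraicIndependent Δ.E s :=
    hs0.map' (f := (RZ Δ.E (nz A X c)).val) Subtype.val_injective
  have key := EC.ct (Δ := Δ) s hs (RZ Δ.E (nz A X c)) (fun a => (s0 a).2) (g.sit hc).stab
    (fun J hJ hJ0 => (g.sit hc).simple J (fun r hr => hJ r hr) hJ0)
    (by
      have h1 : (aeval (fun a => (⟨s a, (s0 a).2⟩ : RZ Δ.E (nz A X c))) :
          MvPolynomial (Fin m) Δ.E →ₐ[Δ.E] RZ Δ.E (nz A X c)) = g0 := by
        rw [hgs]
      rw [h1]
      exact hg2) (QC X.1 c) (RZ_le X hc) ψ (fun 𝔭 h𝔭 hj a0 => hψ m s0 hint 𝔭 h𝔭 hj a0) h0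
  -- the heights
  choose C B hCB using fun j : Fin m => ht_RZ (Δ := Δ) X hc (s0 j).2
  refine ng_of key (C := ∑ j, C j) (B := ∑ j, B j) ?_ (hp_nonneg X)
  filter_upwards [eventually_all.2 hCB] with i h1
  unfold Hu
  refine (Finset.sum_le_sum fun j _ => h1 j).trans ?_
  rw [Finset.sum_add_distrib, ← Finset.sum_mul, ← Finset.sum_mul]
  push_cast
  exact le_rfl

end Pool.Agent.K1H80.AV
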