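import Pool.Agent.K1H80.AV.Tu
import Pool.Agent.K1H80.EC.Main

/-!
# The truncated inequality of Vojta for constant abelian varieties
-/

set_option autoImplicit false
set_option linter.unusedSectionVars false
set_option linter.unusedVariables false

namespace Pool.Agent.K1H80.AV

open Pool.Agent.K1H80
open FF Filter MvPolynomial Module Pool.Agent.W603.LV Pool.Agent.W603.PV Pool.Agent.W603.CZ
open Pool.Agent.Y731.FG
open scoped Classical

/-- homogenization -/
theorem exists_homog {F : Type} [Field F] {N n : ℕ} (p : MvPolynomial (Fin n) F) (b : Fin N)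
    (a : Fin n → Fin N) : ∃ (f : MvPolynomial (Fin N) F) (m : ℕ), f.IsHomogeneous m ∧
      ∀ (K : Type) [Field K] [Algebra F K] (x : Fin N → K), x b ≠ 0 →
        aeval x f = x b ^ m * aeval (fun i => x (a i) / x b) p := by
  refine ⟨∑ t ∈ p.support, C (p.coeff t) * (X b ^ (p.totalDegree - t.sum fun _ e => e) *
    ∏ i, X (a i) ^ t i), p.totalDegree, ?_, ?_⟩
  · refine IsHomogeneous.sum _ _ _ fun t ht => ?_
    have h1 : (t.sum fun _ e => e) ≤ p.totalDegree := le_totalDegree ht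
    have h2 : (t.sum fun _ e => e) = ∑ i, t i := Finsupp.sum_fintype _ _ (fun _ => rfl)
    have h3 : (X b ^ (p.totalDegree - t.sum fun _ e => e) : MvPolynomial (Fin N) F).IsHomogeneous
        (p.totalDegree - t.sum fun _ e => e) := by
      have := (isHomogeneous_X F b).pow (p.totalDegree - t.sum fun _ e => e)
      rwa [one_mul] at this
    have h4 : (∏ i, X (a i) ^ t i : MvPolynomial (Fin N) F).IsHomogeneous (∑ i, t i) := by
      refine IsHomogeneous.prod _ _ _ fun i _ => ?_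
      have := (isHomogeneous_X F (a i)).pow (t i)
      rwa [one_mul] at this
    have h5 := (isHomogeneous_C (Fin N) (p.coeff t)).mul (h3.mul h4)
    have h6 : 0 + (p.totalDegree - (t.sum fun _ e => e) + ∑ i, t i) = p.totalDegree := by
      rw [← h2]; omega
    rwa [h6] at h5
  · intro K _ _ x hx
    rw [map_sum]
    have h1 : aeval (fun i => x (a i) / x b) p = ∑ t ∈ p.support, algebraMap F K (p.coeff t) *
        ∏ i, (x (a i) / x b) ^ t i := by
      rw [aeval_def, eval₂_eq']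
    rw [h1, Finset.mul_sum]
    refine Finset.sum_congr rfl fun t ht => ?_
    have h2 : (t.sum fun _ e => e) ≤ p.totalDegree := le_totalDegree ht
    have h3 : (t.sum fun _ e => e) = ∑ i, t i := Finsupp.sum_fintype _ _ (fun _ => rfl)
    rw [map_mul, map_mul, map_pow, aeval_X, map_prod, aeval_C]
    simp only [map_pow, aeval_X, div_pow]
    rw [Finset.prod_div_distrib, Finset.prod_pow_eq_pow_sum, ← h3]
    have h4 : x b ^ p.totalDegree = x b ^ (p.totalDegree - t.sum fun _ e => e) *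
        x b ^ (t.sum fun _ e => e) := by
      rw [← pow_add]
      congr 1
      omega
    have h5 : x b ^ (t.sum fun _ e => e) ≠ 0 := pow_ne_zero _ hx
    rw [h4]
    field_simp

/-- **The main theorem**, for divisors (`τ = 1`) and for subschemes of codimension at least two
(`τ = 0`). -/
theorem avMain {k F : Type} [Field k] [IsAlgClosed k] [CharZero k] [Field F] [Algebra k F]
    [IsFF k F] {N w : ℕ} (A : AbelianVariety k N)
    (G : Fin w → MvPolynomial (Fin N) F) (d : Fin w → ℕ)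
    (hG : ∀ j, (G j).IsHomogeneous (d j)) (τ : ℕ)
    (hτ : (τ = 1 ∧ IsReducedInCodimOne A G) ∨ (τ = 0 ∧ HasCodimTwo A G))
    (ε : ℝ) (hε : 0 < ε) :
    ∃ (f : MvPolynomial (Fin N) F) (m C : ℕ), f.IsHomogeneous m ∧ NonVanishing A f ∧
      ∀ (L : Type) [Field L] [Algebra k L] [Algebra F L] [IsScalarTower k F L]
        [FiniteDimensional F L] (x : Fin N → L), IsCoord A.eqn x →
        aeval x f ≠ 0 → (∃ j, aeval x (G j) ≠ 0) →
        ((∑ᶠ P : Place k L, locH G d P x : ℤ) : ℝ) ≤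
          τ * ({P : Place k L | 0 < locH G d P x}.ncard : ℝ) +
            ε * (hgtP k x : ℝ) + C * (Module.finrank F L + disc k F L) := by
  by_contra hcon
  have hF0 : CharZero F := charZero_of_injective_algebraMap (algebraMap k F).injective
  obtain ⟨Ω, iΩ, ikΩ, iFΩ, iTΩ, xg, hxg, hgen0, b, a, hb, hind⟩ := A.generic F
  let S : Set (MvPolynomial (Fin N) F) := {f | ∃ m, f.IsHomogeneous m ∧ NonVanishing A f}
  have hSx : ∀ f ∈ S, aeval xg f ≠ 0 := by
    rintro f ⟨m, hm, K, i1, i2, i3, i4, y, hy, hfy⟩ h0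
    exact hfy (hgen0 f m hm h0 K y hy)
  obtain ⟨𝒰, h𝒰⟩ := exists_uf S (fun f hf h0 => hSx f hf (by rw [h0, map_zero]))
    (fun f hf g hg => by
      obtain ⟨m, hm, -⟩ := id hf
      obtain ⟨m', hm', -⟩ := id hg
      exact ⟨m + m', hm.mul hm', Ω, iΩ, ikΩ, iFΩ, iTΩ, xg, hxg, by
        rw [map_mul]; exact mul_ne_zero (hSx f hf) (hSx g hg)⟩)
    ⟨1, 0, isHomogeneous_one _ _, Ω, iΩ, ikΩ, iFΩ, iTΩ, xg, hxg, by
      rw [map_one]; exact one_ne_zero⟩
  have hex : ∀ i : S × ℕ, ∃ (L : Type) (_ : Field L) (_ : Algebra k L) (_ : Algebra F L)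
      (_ : IsScalarTower k F L) (_ : FiniteDimensional F L) (x : Fin N → L), IsCoord A.eqn x ∧
        aeval x (i.1 : MvPolynomial (Fin N) F) ≠ 0 ∧ (∃ j, aeval x (G j) ≠ 0) ∧
        ¬ ((∑ᶠ P : Place k L, locH G d P x : ℤ) : ℝ) ≤
          τ * ({P : Place k L | 0 < locH G d P x}.ncard : ℝ) +
            ε * (hgtP k x : ℝ) + i.2 * (Module.finrank F L + disc k F L) := by
    rintro ⟨⟨f, m, hm, hf⟩, C⟩
    by_contra hno
    apply hcon
    refine ⟨f, m, C, hm, hf, ?_⟩
    intro L _ _ _ _ _ x h1 h2 h3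
    by_contra h7
    exact hno ⟨L, _, _, _, inferInstance, inferInstance, x, h1, h2, h3, h7⟩
  choose L iF ikL iFL iT iD x h1 h2 h3 h7 using hex
  have iFF : ∀ i, IsFF k (L i) := fun i => isFF_of_finite (F := F)
  set χ : S × ℕ → ℤ := fun i => (Module.finrank F (L i) : ℤ) + disc k F (L i) with hχ
  obtain ⟨Δ, hΔ⟩ := allDT (𝒰 := 𝒰) (k := k) (F := F) (L := L) χ (fun i => le_rfl)
  -- the point of the ultraproduct
  set xu : Fin N → UL 𝒰 L := fun c => um 𝒰 (fun i => x i c) with hxu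
  have hxuc : IsCoord A.eqn xu := by
    refine ⟨?_, fun l => ?_⟩
    · have h8 : ∀ᶠ i in (𝒰 : Filter (S × ℕ)), ∃ c, x i c ≠ 0 := Eventually.of_forall fun i => by
        obtain ⟨c, hc⟩ := (h1 i).1
        exact ⟨c, hc.ne_zero⟩
      obtain ⟨c, hc⟩ := Pool.Agent.Y852.FG.ev_exists h8
      exact ⟨c, Ne.isUnit (um_ne_iff.2 hc)⟩
    · rw [hxu, ← um_aeval 𝒰 (fun c i => x i c) (A.eqn l), um_zero_iff]
      exact Eventually.of_forall fun i => (h1 i).2 l
  let X : A.Co (UL 𝒰 L) := ⟨xu, hxuc⟩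
  have hgen : ∀ (f : MvPolynomial (Fin N) F) (m : ℕ), f.IsHomogeneous m → aeval xu f = 0 →
      aeval xg f = 0 := by
    intro f m hm hf
    by_contra hf0
    have hfS : f ∈ S := ⟨m, hm, Ω, iΩ, ikΩ, iFΩ, iTΩ, xg, hxg, hf0⟩
    rw [hxu, ← um_aeval 𝒰 (fun c i => x i c) f, um_zero_iff] at hf
    obtain ⟨i, hi1, hi2⟩ := (hf.and (h𝒰 f hfS 0)).exists
    apply h2 i
    obtain ⟨g, hg⟩ := hi2.1
    rw [hg, map_mul]
    have : aeval (x i) f = 0 := hi1
    rw [this, zero_mul]
  have hXb : xu b ≠ 0 := by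
    intro h0
    have h8 := hgen (MvPolynomial.X b) 1 (isHomogeneous_X F b) (by rw [aeval_X]; exact h0)
    rw [aeval_X] at h8
    exact hb h8
  have hXind : AlgebraicIndependent F (fun i => nz A X b (a i)) := by
    have h8 : (fun i => nz A X b (a i)) = fun i => xu (a i) / xu b := by
      funext i
      unfold nz
      rw [div_eq_inv_mul]
    rw [h8, algebraicIndependent_iff]
    intro p hp
    obtain ⟨f, m, hm, hf⟩ := exists_homog p b a
    have h9 := hgen f m hm (by rw [hf _ xu hXb, hp, mul_zero])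
    rw [hf _ xg hb] at h9
    have h10 := (mul_eq_zero.1 h9).resolve_left (pow_ne_zero _ hb)
    exact hind (by rw [h10, map_zero])
  have hgs : Gs F Δ.E A (uD Δ.D) X := gs_of X hXb hXind
  have hne : ∃ j, aeval xu (G j) ≠ 0 := by
    have h8 : ∀ᶠ i in (𝒰 : Filter (S × ℕ)), ∃ j, aeval (x i) (G j) ≠ 0 :=
      Eventually.of_forall h3
    obtain ⟨j, hj⟩ := Pool.Agent.Y852.FG.ev_exists h8
    refine ⟨j, ?_⟩
    rw [hxu, ← um_aeval 𝒰 (fun c i => x i c) (G j), um_ne_iff]
    exact hj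
  -- the inequality at almost all places
  have hT : ∃ e : Om k L → ℤ, Ng 𝒰 Δ.χ (hp k xu) e ∧
      ∀ᶠ ω in EV 𝒰 k L, lam G d xu ω -
        τ * (if 0 < lam G d xu ω then 1 else 0) ≤ e ω := by
    rcases hτ with ⟨rfl, hred⟩ | ⟨rfl, hcod⟩
    · obtain ⟨e, he1, he2⟩ := T1u (Δ := Δ) (X := X) hG hne hgs hred
      refine ⟨e, he1, ?_⟩
      filter_upwards [he2] with ω h
      rw [Nat.cast_one, one_mul]
      exact h
    · obtain ⟨e, he1, he2⟩ := T2u (Δ := Δ) (X := X) hG hne hgs hcod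
      refine ⟨e, he1, ?_⟩
      filter_upwards [he2] with ω h
      rw [Nat.cast_zero, zero_mul, sub_zero]
      exact h
  obtain ⟨e, he1, he2⟩ := hT
  obtain ⟨B, hB⟩ := he1 ε hε
  obtain ⟨C0, hC0⟩ := exists_nat_ge B
  have hrep : ∀ᶠ i in (𝒰 : Filter (S × ℕ)), ∀ c, rep (xu c) i = x i c := by
    rw [eventually_all]
    intro c
    exact rep_um _
  obtain ⟨i, hi1, hi2, hi3, hi4, hi5, hi6, hi7⟩ := (hB.and ((ev_iff.1 he2).and
    ((lam_eq (k := k) G d xu).and (hrep.and ((hp_eq (k := k) xu).and (Δ.nonneg.and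
      (h𝒰 1 ⟨0, isHomogeneous_one _ _, Ω, iΩ, ikΩ, iFΩ, iTΩ, xg, hxg, by
        rw [map_one]; exact one_ne_zero⟩ C0))))))).exists
  apply h7 i
  have hxi : (fun c => rep (xu c) i) = x i := funext hi4
  rw [hxi] at hi3 hi5
  have hxi0 : ∃ c, x i c ≠ 0 := by
    obtain ⟨c, hc⟩ := (h1 i).1
    exact ⟨c, hc.ne_zero⟩
  have hfin := locH_finite (k := k) (d := d) hxi0 (h3 i)
  set T := hfin.toFinset with hTdef
  have e1 : ∑ᶠ P : Place k (L i), locH G d P (x i) =
      ∑ P ∈ T, locH G d P (x i) := by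
    rw [finsum_eq_sum_of_support_subset]
    intro P hP
    rw [hTdef, Set.Finite.coe_toFinset]
    exact hP
  have e2 : {P : Place k (L i) | 0 < locH G d P (x i)}.ncard =
      (T.filter fun P => 0 < locH G d P (x i)).card := by
    rw [← Set.ncard_coe_finset]
    congr 1
    ext P
    rw [Finset.coe_filter, hTdef]
    simp only [Set.Finite.mem_toFinset]
    exact ⟨fun h => ⟨ne_of_gt h, h⟩, fun h => h.2⟩
  have e3 : ∑ P ∈ T, locH G d P (x i) ≤
      τ * ((T.filter fun P => 0 < locH G d P (x i)).card : ℤ) +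
        ∑ P ∈ T, e ⟨i, P⟩ := by
    rw [Finset.card_filter]
    push_cast
    rw [Finset.mul_sum, ← Finset.sum_add_distrib]
    refine Finset.sum_le_sum fun P _ => ?_
    have := hi2 P
    rw [hi3] at this
    linarith
  have e4 : ((∑ P ∈ T, locH G d P (x i) : ℤ) : ℝ) ≤
      τ * ((T.filter fun P => 0 < locH G d P (x i)).card : ℝ) +
        ((∑ P ∈ T, e ⟨i, P⟩ : ℤ) : ℝ) := by exact_mod_cast e3
  rw [e1, e2]
  refine e4.trans ?_
  rw [add_assoc]
  refine add_le_add le_rfl ((hi1 T).trans ?_)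
  have g1 : (0 : ℝ) ≤ Δ.χ i := by exact_mod_cast hi6
  have g2 : (B : ℝ) ≤ i.2 := hC0.trans (by exact_mod_cast hi7.2)
  have g3 : (Δ.χ i : ℝ) = Module.finrank F (L i) + disc k F (L i) := by
    rw [hΔ, hχ]
    push_cast
    rfl
  rw [← g3, ← hi5]
  have g9 := mul_le_mul_of_nonneg_right g2 g1
  linarith

end Pool.Agent.K1H80.AV
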