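import Pool.Agent.K1H80.AV.Clo

/-!
# Frames of invariant differentials and vector fields
-/

set_option autoImplicit false
set_option linter.unusedSectionVars false

namespace Pool.Agent.K1H80.AV

open MvPolynomial
open scoped Classical

section pou

variable {k : Type} [Field k] {N e : ℕ}

/-- a partition of unity on the chart where the coordinate `c` is one -/
theorem exists_pou (eqn : Fin e → MvPolynomial (Fin N) k) {r : ℕ}
    (P : Fin r → MvPolynomial (Fin N) k) (c : Fin N)
    (h : ∀ (K : Type) [Field K] [Algebra k K] (x : Fin N → K), IsCoord eqn x → x c = 1 →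
      ∃ l, aeval x (P l) ≠ 0) :
    ∃ g : Fin r → MvPolynomial (Fin N) k, ∀ (R : Type) [CommRing R] [Algebra k R] (x : Fin N → R),
      (∀ i, aeval x (eqn i) = 0) → x c = 1 → ∑ l, aeval x (g l) * aeval x (P l) = 1 := by
  let v : Fin e ⊕ Unit ⊕ Fin r → MvPolynomial (Fin N) k :=
    Sum.elim eqn (Sum.elim (fun _ => X c - 1) P)
  have h1 : Ideal.span (Set.range v) = ⊤ := by
    by_contra hne
    obtain ⟨m, hm, hle⟩ := Ideal.exists_le_maximal _ hne
    let _ : Field (MvPolynomial (Fin N) k ⧸ m) := Ideal.Quotient.field m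
    let x : Fin N → MvPolynomial (Fin N) k ⧸ m := fun i => Ideal.Quotient.mk m (X i)
    have hx : ∀ p : MvPolynomial (Fin N) k, aeval x p = Ideal.Quotient.mk m p := by
      intro p
      have h2 : aeval x = Ideal.Quotient.mkₐ k m := by
        apply MvPolynomial.algHom_ext
        intro i
        rw [aeval_X]
        rfl
      rw [h2]
      rfl
    have hmem : ∀ i, aeval x (v i) = 0 := by
      intro i
      rw [hx, Ideal.Quotient.eq_zero_iff_mem]
      exact hle (Ideal.subset_span ⟨i, rfl⟩)
    have hxc : x c = 1 := by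
      have h2 : aeval x (X c - 1 : MvPolynomial (Fin N) k) = 0 := hmem (Sum.inr (Sum.inl ()))
      rw [map_sub, aeval_X, map_one, sub_eq_zero] at h2
      exact h2
    obtain ⟨l, hl⟩ := h _ x ⟨⟨c, by rw [hxc]; exact isUnit_one⟩, fun i => hmem (Sum.inl i)⟩ hxc
    exact hl (hmem (Sum.inr (Sum.inr l)))
  have h2 : (1 : MvPolynomial (Fin N) k) ∈ Ideal.span (Set.range v) := by rw [h1]; trivial
  rw [Ideal.mem_span_range_iff_exists_fun] at h2
  obtain ⟨g, hg⟩ := h2
  refine ⟨fun l => g (Sum.inr (Sum.inr l)), fun R _ _ x hx hxc => ?_⟩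
  have h3 := congrArg (aeval x) hg
  rw [map_one, Fintype.sum_sum_type, Fintype.sum_sum_type, map_add, map_add, map_sum, map_sum,
    map_sum] at h3
  have h4 : ∑ i, aeval x (g (Sum.inl i) * v (Sum.inl i)) = 0 :=
    Finset.sum_eq_zero fun i _ => by
      rw [map_mul]
      change _ * aeval x (eqn i) = 0
      rw [hx, mul_zero]
  have h5 : ∑ i, aeval x (g (Sum.inr (Sum.inl i)) * v (Sum.inr (Sum.inl i))) = 0 :=
    Finset.sum_eq_zero fun i _ => by
      rw [map_mul]
      change _ * aeval x (X c - 1 : MvPolynomial (Fin N) k) = 0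
      rw [map_sub, aeval_X, map_one, hxc, sub_self, mul_zero]
  rw [h4, h5, zero_add, zero_add] at h3
  rw [← h3]
  refine Finset.sum_congr rfl fun l _ => ?_
  rw [map_mul]
  rfl

end pou

namespace AbelianVariety

variable {k : Type} [Field k] {N : ℕ} (A : AbelianVariety k N)

theorem finrank_To (K : Type) [Field K] [Algebra k K] : Module.finrank K (A.To K) = A.dim := by
  have h1 := A.smooth K (A.oK K) A.oK_coord
  set Tn := tangent A.eqn (A.oK K)
  let f : Tn →ₗ[K] K := (LinearMap.proj A.c0 : (Fin N → K) →ₗ[K] K).comp Tn.subtype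
  have h2 := f.finrank_range_add_finrank_ker
  have h3 : LinearMap.range f = ⊤ := by
    rw [LinearMap.range_eq_top]
    intro z
    refine ⟨z • ⟨A.oK K, A.euler A.oK_coord⟩, ?_⟩
    change (z • A.oK K) A.c0 = z
    rw [Pi.smul_apply, smul_eq_mul]
    change z * algebraMap k K (A.o A.c0) = z
    rw [o_c0, map_one, mul_one]
  rw [h3, finrank_top, Module.finrank_self, h1] at h2
  have h4 : Module.finrank K (LinearMap.ker f) = A.dim := by omega
  have h5 : A.To K = (LinearMap.ker f).map Tn.subtype := by
    ext w
    constructor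
    · intro hw
      exact ⟨⟨w, (A.mem_To.1 hw).1⟩, (A.mem_To.1 hw).2, rfl⟩
    · rintro ⟨w', hw', rfl⟩
      exact A.mem_To.2 ⟨w'.2, hw'⟩
  rw [h5, Submodule.finrank_map_subtype_eq, h4]

/-- a basis of the tangent space at zero, with coordinate functions -/
theorem exists_basis : ∃ (t lam : Fin A.dim → Fin N → k), (∀ i, t i ∈ A.To k) ∧
    (∀ i j, ∑ b, lam i b * t j b = if j = i then 1 else 0) ∧
    ∀ (K : Type) [Field K] [Algebra k K] (w : Fin N → K), w ∈ A.To K → ∀ b,
      w b = ∑ i, (∑ b', algebraMap k K (lam i b') * w b') * algebraMap k K (t i b) := by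
  obtain ⟨bs⟩ : Nonempty (Module.Basis (Fin A.dim) k (A.To k)) := by
    rw [← A.finrank_To k]
    exact ⟨Module.finBasis k (A.To k)⟩
  choose g hg using fun i => LinearMap.exists_extend (bs.coord i)
  have hg' : ∀ i (w : A.To k), g i w.1 = bs.coord i w := fun i w =>
    LinearMap.congr_fun (hg i) w
  have hsum : ∀ i (w : Fin N → k), ∑ b, g i (Pi.single b 1) * w b = g i w := by
    intro i w
    rw [LinearMap.pi_apply_eq_sum_univ (g i) w]
    refine Finset.sum_congr rfl fun b _ => ?_
    rw [smul_eq_mul, mul_comm]
    congr 2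
    funext j
    rw [Pi.single_apply]
    by_cases h : j = b
    · rw [if_pos h, if_pos h.symm]
    · rw [if_neg h, if_neg (Ne.symm h)]
  refine ⟨fun i => (bs i).1, fun i b => g i (Pi.single b 1), fun i => (bs i).2, fun i j => ?_, ?_⟩
  · rw [hsum, hg', Module.Basis.coord_apply, Module.Basis.repr_self, Finsupp.single_apply]
  · intro K _ _ w hw b
    -- the basis over `K`
    have h1 : ∀ i, (fun b => algebraMap k K ((bs i).1 b)) ∈ A.To K := by
      intro i
      have h2 := A.mem_To.1 (bs i).2
      refine A.mem_To.2 ⟨fun l => ?_, ?_⟩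
      · have h3 := congrArg (algebraMap k K) (h2.1 l)
        rw [map_sum, map_zero] at h3
        rw [← h3]
        refine Finset.sum_congr rfl fun c _ => ?_
        rw [map_mul, aeval_oK]
        congr 1
      · rw [h2.2, map_zero]
    let v : Fin A.dim → A.To K := fun i => ⟨_, h1 i⟩
    have hdual : ∀ (c : Fin A.dim → K) i,
        ∑ b', algebraMap k K (g i (Pi.single b' 1)) * (∑ j, c j • v j).1 b' = c i := by
      intro c i
      have h2 : ∀ b', (∑ j, c j • v j).1 b' = ∑ j, c j * algebraMap k K ((bs j).1 b') := by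
        intro b'
        rw [Submodule.coe_sum, Finset.sum_apply]
        rfl
      simp only [h2, Finset.mul_sum]
      rw [Finset.sum_comm, Finset.sum_eq_single i]
      · have h3 : ∀ b', algebraMap k K (g i (Pi.single b' 1)) * (c i * algebraMap k K ((bs i).1 b'))
            = c i * algebraMap k K (g i (Pi.single b' 1) * (bs i).1 b') := by
          intro b'
          rw [map_mul]; ring
        simp only [h3]
        rw [← Finset.mul_sum, ← map_sum, hsum, hg', Module.Basis.coord_apply,
          Module.Basis.repr_self, Finsupp.single_apply, if_pos rfl, map_one, mul_one]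
      · intro j _ hj
        have h3 : ∀ b', algebraMap k K (g i (Pi.single b' 1)) * (c j * algebraMap k K ((bs j).1 b'))
            = c j * algebraMap k K (g i (Pi.single b' 1) * (bs j).1 b') := by
          intro b'
          rw [map_mul]; ring
        simp only [h3]
        rw [← Finset.mul_sum, ← map_sum, hsum, hg', Module.Basis.coord_apply,
          Module.Basis.repr_self, Finsupp.single_apply, if_neg hj, map_zero, mul_zero]
      · intro h; exact absurd (Finset.mem_univ i) h
    have hli : LinearIndependent K v := by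
      rw [Fintype.linearIndependent_iff]
      intro c hc i
      rw [← hdual c i, hc]
      simp
    have htop := hli.span_eq_top_of_card_eq_finrank' (by rw [Fintype.card_fin, A.finrank_To K])
    have hmem : (⟨w, hw⟩ : A.To K) ∈ Submodule.span K (Set.range v) := by rw [htop]; trivial
    rw [Submodule.mem_span_range_iff_exists_fun] at hmem
    obtain ⟨c, hc⟩ := hmem
    have h2 : ∀ i, ∑ b', algebraMap k K (g i (Pi.single b' 1)) * w b' = c i := by
      intro i
      rw [← hdual c i, hc]
    simp only [h2]
    have h3 := congrFun (congrArg Subtype.val hc) b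
    rw [Submodule.coe_sum, Finset.sum_apply] at h3
    exact h3.symm

end AbelianVariety

end Pool.Agent.K1H80.AV
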