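import Pool.Agent.K1H80.AV.Def

/-!
# Points of abelian varieties: functoriality
-/

set_option autoImplicit false
set_option linter.unusedSectionVars false

namespace Pool.Agent.K1H80.AV

open MvPolynomial

section general

variable {k : Type} [Field k] {N e : ℕ} {eqn : Fin e → MvPolynomial (Fin N) k}
  {R S T : Type} [CommRing R] [Algebra k R] [CommRing S] [Algebra k S] [CommRing T] [Algebra k T]

theorem IsCoord.map {x : Fin N → R} (hx : IsCoord eqn x) (f : R →ₐ[k] S) :
    IsCoord eqn (fun c => f (x c)) := by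
  obtain ⟨⟨c, hc⟩, h⟩ := hx
  refine ⟨⟨c, hc.map f⟩, fun i => ?_⟩
  have h1 := comp_aeval_apply (f := x) f (eqn i)
  rw [← h1, h i, map_zero]

/-- the coordinates over another ring -/
def cmap (f : R →ₐ[k] S) (x : {x : Fin N → R // IsCoord eqn x}) :
    {x : Fin N → S // IsCoord eqn x} := ⟨fun c => f (x.1 c), x.2.map f⟩

/-- the point over another ring -/
def pmap (f : R →ₐ[k] S) : Point eqn R → Point eqn S :=
  Quotient.map (cmap f) (by
    rintro x y ⟨u, hu⟩
    refine ⟨Units.map (f : R →* S) u, fun c => ?_⟩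
    change f (y.1 c) = f u * f (x.1 c)
    rw [hu, map_mul])

theorem pmap_pt (f : R →ₐ[k] S) (x : {x : Fin N → R // IsCoord eqn x}) :
    pmap f (pt eqn x) = pt eqn (cmap f x) := rfl

theorem pmap_comp (f : R →ₐ[k] S) (g : S →ₐ[k] T) (P : Point eqn R) :
    pmap g (pmap f P) = pmap (g.comp f) P := by
  induction P using Quotient.inductionOn with
  | _ x => rfl

theorem pt_eq_iff {x y : {x : Fin N → R // IsCoord eqn x}} :
    pt eqn x = pt eqn y ↔ ∃ u : Rˣ, ∀ c, y.1 c = u * x.1 c := Quotient.eq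

theorem exists_pt (P : Point eqn R) : ∃ x, pt eqn x = P := Quotient.exists_rep P

/-- proportional coordinates -/
theorem pt_eq_of {x y : {x : Fin N → R // IsCoord eqn x}} {s t : R} (hs : IsUnit s)
    (h : ∀ c, s * x.1 c = t * y.1 c) : pt eqn x = pt eqn y := by
  obtain ⟨c, hc⟩ := x.2.1
  have ht : IsUnit t := by
    have h1 := hs.mul hc
    rw [h c] at h1
    exact isUnit_of_mul_isUnit_left h1
  obtain ⟨s, rfl⟩ := hs
  obtain ⟨t, rfl⟩ := ht
  rw [pt_eq_iff]
  refine ⟨t⁻¹ * s, fun c => ?_⟩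
  rw [Units.val_mul, mul_assoc, h c, ← mul_assoc, Units.inv_mul, one_mul]

/-- points with a coordinate one in common -/
theorem eq_of_pt {x y : {x : Fin N → R // IsCoord eqn x}} (h : pt eqn x = pt eqn y) {c : Fin N}
    (hx : x.1 c = 1) (hy : y.1 c = 1) : x.1 = y.1 := by
  rw [pt_eq_iff] at h
  obtain ⟨u, hu⟩ := h
  have h1 := hu c
  rw [hx, hy, mul_one] at h1
  funext c
  rw [hu c, ← h1, one_mul]

theorem aeval_smul {σ : Type*} {f : MvPolynomial σ k} {d : ℕ} (hf : f.IsHomogeneous d) (u : R)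
    (x : σ → R) : aeval (fun c => u * x c) f = u ^ d * aeval x f := by
  rw [aeval_def, eval₂_eq, aeval_def, eval₂_eq, Finset.mul_sum]
  refine Finset.sum_congr rfl fun m hm => ?_
  rw [Finset.prod_congr rfl (fun i _ => mul_pow u (x i) (m i)), Finset.prod_mul_distrib,
    Finset.prod_pow_eq_pow_sum]
  have h := hf (mem_support_iff.1 hm)
  rw [Finsupp.weight_apply, Finsupp.sum] at h
  simp only [Pi.one_apply, smul_eq_mul, mul_one] at h
  rw [h]
  ring

/-- multiplication by a unit -/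
theorem IsCoord.smul {deg : Fin e → ℕ} (hom : ∀ i, (eqn i).IsHomogeneous (deg i)) {x : Fin N → R}
    (hx : IsCoord eqn x) {u : R} (hu : IsUnit u) : IsCoord eqn (fun c => u * x c) := by
  obtain ⟨⟨c, hc⟩, h⟩ := hx
  refine ⟨⟨c, hu.mul hc⟩, fun i => ?_⟩
  rw [aeval_smul (hom i), h i, mul_zero]

theorem IsCoord.of_smul {deg : Fin e → ℕ} (hom : ∀ i, (eqn i).IsHomogeneous (deg i))
    {x y : Fin N → R} (hx : IsCoord eqn x) {s t : R} (hs : IsUnit s)
    (h : ∀ c, s * x c = t * y c) (ht : IsUnit t) : IsCoord eqn y := by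
  obtain ⟨t, rfl⟩ := ht
  have h1 : y = fun c => ((t⁻¹ : Rˣ) : R) * (s * x c) := by
    funext c
    rw [h c, ← mul_assoc, Units.inv_mul, one_mul]
  rw [h1]
  exact (hx.smul hom hs).smul hom (Units.isUnit _)

/-- normalized coordinates -/
theorem exists_norm {deg : Fin e → ℕ} (hom : ∀ i, (eqn i).IsHomogeneous (deg i)) (P : Point eqn R) :
    ∃ (x : {x : Fin N → R // IsCoord eqn x}) (c : Fin N), pt eqn x = P ∧ x.1 c = 1 := by
  obtain ⟨x, rfl⟩ := exists_pt P
  obtain ⟨c, hc⟩ := x.2.1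
  obtain ⟨u, hu⟩ := hc
  refine ⟨⟨fun a => ((u⁻¹ : Rˣ) : R) * x.1 a, x.2.smul hom (Units.isUnit _)⟩, c, ?_, ?_⟩
  · symm
    rw [pt_eq_iff]
    exact ⟨u⁻¹, fun c => rfl⟩
  · change ((u⁻¹ : Rˣ) : R) * x.1 c = 1
    rw [← hu, Units.inv_mul]

end general

namespace AbelianVariety

variable {k : Type} [Field k] {N : ℕ} (A : AbelianVariety k N)

/-- the coordinates of points -/
abbrev Co (R : Type) [CommRing R] [Algebra k R] : Type := {x : Fin N → R // IsCoord A.eqn x}

variable {R S : Type} [CommRing R] [IsLocalRing R] [Algebra k R] [CommRing S] [IsLocalRing S]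
  [Algebra k S]

theorem rep_add {x y z : A.Co R} (h : pt A.eqn x + pt A.eqn y = pt A.eqn z) :
    Represents A.add x.1 y.1 z.1 := A.add_spec R x y z h

theorem rep_sub {x y z : A.Co R} (h : pt A.eqn x - pt A.eqn y = pt A.eqn z) :
    Represents A.sub x.1 y.1 z.1 := A.sub_spec R x y z h

/-- representing polynomials are compatible with homomorphisms -/
theorem rep_map {p : Fin A.r → Fin N → MvPolynomial (Fin N ⊕ Fin N) k} {x y z : A.Co R}
    (h : Represents p x.1 y.1 z.1) (f : R →ₐ[k] S) {w : A.Co S}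
    (hw : Represents p (cmap f x).1 (cmap f y).1 w.1) : pt A.eqn w = pt A.eqn (cmap f z) := by
  obtain ⟨h1, l, c, hlc⟩ := h
  obtain ⟨h2, -⟩ := hw
  obtain ⟨s, hs⟩ := h1 l
  obtain ⟨t, ht⟩ := h2 l
  have hel : Sum.elim (cmap f x).1 (cmap f y).1 = fun i => f (Sum.elim x.1 y.1 i) := by
    funext i
    rcases i with i | i <;> rfl
  have h3 : ∀ c, f s * (cmap f z).1 c = t * w.1 c := by
    intro c
    rw [← ht, hel, ← comp_aeval_apply, hs, map_mul]
    rfl
  have hsu : IsUnit s := by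
    rw [hs] at hlc
    exact isUnit_of_mul_isUnit_left hlc
  exact (pt_eq_of (hsu.map f) h3).symm

/-- the maps of points as homomorphisms -/
def hom (f : R →ₐ[k] S) : Point A.eqn R →+ Point A.eqn S :=
  AddMonoidHom.mk' (pmap f) (by
    intro P Q
    obtain ⟨x, rfl⟩ := exists_pt P
    obtain ⟨y, rfl⟩ := exists_pt Q
    obtain ⟨z, hz⟩ := exists_pt (pt A.eqn x + pt A.eqn y)
    obtain ⟨w, hw⟩ := exists_pt (pmap f (pt A.eqn x) + pmap f (pt A.eqn y))
    rw [← hz, ← hw, pmap_pt]
    exact (A.rep_map (A.rep_add hz.symm) f (A.rep_add hw.symm)).symm)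

theorem hom_apply (f : R →ₐ[k] S) (P : Point A.eqn R) : A.hom f P = pmap f P := rfl

theorem hom_pt (f : R →ₐ[k] S) (x : A.Co R) : A.hom f (pt A.eqn x) = pt A.eqn (cmap f x) := rfl

theorem hom_comp {T : Type} [CommRing T] [IsLocalRing T] [Algebra k T] (f : R →ₐ[k] S)
    (g : S →ₐ[k] T) (P : Point A.eqn R) : A.hom g (A.hom f P) = A.hom (g.comp f) P :=
  pmap_comp f g P

theorem exists_zero : ∃ (o : A.Co k) (c : Fin N), pt A.eqn o = 0 ∧ o.1 c = 1 :=
  exists_norm A.homogeneous (0 : Point A.eqn k)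

/-- coordinates of zero -/
noncomputable def o : Fin N → k := A.exists_zero.choose.1

/-- a coordinate of zero which is one -/
noncomputable def c0 : Fin N := A.exists_zero.choose_spec.choose

theorem o_c0 : A.o A.c0 = 1 := A.exists_zero.choose_spec.choose_spec.2

theorem o_coord : IsCoord A.eqn A.o := A.exists_zero.choose.2

/-- coordinates of zero over `R` -/
noncomputable def oR (R : Type) [CommRing R] [Algebra k R] : A.Co R :=
  ⟨fun c => algebraMap k R (A.o c), A.o_coord.map (Algebra.ofId k R)⟩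

theorem oR_apply (c : Fin N) : (A.oR R).1 c = algebraMap k R (A.o c) := rfl

theorem pt_oR : pt A.eqn (A.oR R) = 0 := by
  have h1 : pt A.eqn A.exists_zero.choose = 0 := A.exists_zero.choose_spec.choose_spec.1
  have h2 : A.hom (Algebra.ofId k R) (pt A.eqn A.exists_zero.choose) = pt A.eqn (A.oR R) := rfl
  rw [← h2, h1, map_zero]

end AbelianVariety

end Pool.Agent.K1H80.AV
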