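import Pool.Agent.K1H80.AV.Pt

/-!
# Tangent vectors of abelian varieties, translated to zero
-/

set_option autoImplicit false
set_option linter.unusedSectionVars false

namespace Pool.Agent.K1H80.AV

open MvPolynomial
open scoped Classical

section taylor

variable {k : Type} [Field k] {R : Type} [CommRing R] [Algebra k R]

/-- the Taylor formula -/
theorem taylor {σ : Type} [Fintype σ] (p : MvPolynomial σ k) (x v : σ → R) {e : R} (he : e * e = 0) :
    aeval (fun i => x i + e * v i) p = aeval x p + e * ∑ i, aeval x (pderiv i p) * v i := by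
  induction p using MvPolynomial.induction_on with
  | C a => simp
  | add p q hp hq =>
    simp only [map_add, hp, hq, add_mul, Finset.sum_add_distrib]
    ring
  | mul_X p n hp =>
    have h1 : ∑ i, aeval x (pderiv i (p * X n)) * v i =
        (∑ i, aeval x (pderiv i p) * v i) * x n + aeval x p * v n := by
      have h2 : ∀ i, aeval x (pderiv i (p * X n)) * v i = aeval x (pderiv i p) * v i * x n +
          (if i = n then aeval x p * v n else 0) := by
        intro i
        rw [pderiv_mul, pderiv_X, map_add, map_mul, map_mul, aeval_X]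
        by_cases h : i = n
        · subst h
          rw [if_pos rfl, Pi.single_eq_same, map_one]
          ring
        · rw [if_neg h, Pi.single_eq_of_ne (Ne.symm h), map_zero]
          ring
      rw [Finset.sum_congr rfl fun i _ => h2 i, Finset.sum_add_distrib, Finset.sum_ite_eq' ,
        if_pos (Finset.mem_univ n), Finset.sum_mul]
    rw [map_mul, hp, aeval_X, map_mul, aeval_X, h1]
    linear_combination (∑ i, aeval x (pderiv i p) * v i) * v n * he

/-- the Taylor formula in the first argument -/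
theorem taylor1 {N : ℕ} (p : MvPolynomial (Fin N ⊕ Fin N) k) (x y v : Fin N → R) {e : R}
    (he : e * e = 0) : aeval (Sum.elim (fun i => x i + e * v i) y) p =
      aeval (Sum.elim x y) p + e * ∑ i, aeval (Sum.elim x y) (pderiv (Sum.inl i) p) * v i := by
  have h1 := taylor p (Sum.elim x y) (Sum.elim v 0) he
  have h2 : (fun i => Sum.elim x y i + e * Sum.elim v 0 i) = Sum.elim (fun i => x i + e * v i) y := by
    funext i
    rcases i with i | i <;> simp
  rw [h2] at h1
  rw [h1, Fintype.sum_sum_type]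
  simp

/-- the Taylor formula in the second argument -/
theorem taylor2 {N : ℕ} (p : MvPolynomial (Fin N ⊕ Fin N) k) (x y v : Fin N → R) {e : R}
    (he : e * e = 0) : aeval (Sum.elim x (fun i => y i + e * v i)) p =
      aeval (Sum.elim x y) p + e * ∑ i, aeval (Sum.elim x y) (pderiv (Sum.inr i) p) * v i := by
  have h1 := taylor p (Sum.elim x y) (Sum.elim (0 : Fin N → R) v) he
  have h2 : (fun i => Sum.elim x y i + e * Sum.elim (0 : Fin N → R) v i) =
      Sum.elim x (fun i => y i + e * v i) := by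
    funext i
    rcases i with i | i <;> simp
  rw [h2] at h1
  rw [h1, Fintype.sum_sum_type]
  simp

theorem aeval_elimXX {N : ℕ} (p : MvPolynomial (Fin N ⊕ Fin N) k) (x : Fin N → R) :
    aeval x (aeval (Sum.elim X X) p : MvPolynomial (Fin N) k) = aeval (Sum.elim x x) p := by
  rw [comp_aeval_apply]
  congr 2
  funext i
  rcases i with i | i <;> simp

theorem aeval_elimXC {N : ℕ} (p : MvPolynomial (Fin N ⊕ Fin N) k) (o : Fin N → k) (x : Fin N → R) :
    aeval x (aeval (Sum.elim X fun c => C (o c)) p : MvPolynomial (Fin N) k) =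
      aeval (Sum.elim x fun c => algebraMap k R (o c)) p := by
  rw [comp_aeval_apply]
  congr 2
  funext i
  rcases i with i | i
  · simp
  · simp only [Sum.elim_inr]
    rw [← algebraMap_eq, AlgHom.commutes]

end taylor

/-- a ring with an element `e` which is annihilated by the maximal ideal -/
structure Ep (k K R : Type) [Field k] [Field K] [CommRing R] [Algebra k K] [Algebra k R] where
  ι : K →ₐ[k] R
  π : R →ₐ[k] K
  e : R
  πι : ∀ a, π (ι a) = a
  πe : π e = 0
  res : ∀ r, e * r = e * ι (π r)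
  inj : ∀ a, e * ι a = 0 → a = 0
  loc : ∀ r, π r ≠ 0 → IsUnit r

section ep

variable {k K R : Type} [Field k] [Field K] [CommRing R] [Algebra k K] [Algebra k R]

theorem Ep.ee (ρ : Ep k K R) : ρ.e * ρ.e = 0 := by
  rw [ρ.res, ρ.πe, map_zero, mul_zero]

theorem Ep.nontrivial (ρ : Ep k K R) : Nontrivial R := by
  refine ⟨⟨0, 1, fun h => ?_⟩⟩
  have h1 := congrArg ρ.π h
  rw [map_zero, map_one] at h1
  exact zero_ne_one h1

theorem Ep.isLocalRing (ρ : Ep k K R) : IsLocalRing R := by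
  have := ρ.nontrivial
  refine IsLocalRing.of_isUnit_or_isUnit_one_sub_self fun a => ?_
  by_cases h : ρ.π a = 0
  · right
    apply ρ.loc
    rw [map_sub, map_one, h, sub_zero]
    exact one_ne_zero
  · left
    exact ρ.loc a h

variable {N e : ℕ} {eqn : Fin e → MvPolynomial (Fin N) k}

theorem mem_tangent {x v : Fin N → K} :
    v ∈ tangent eqn x ↔ ∀ i, ∑ c, aeval x (pderiv c (eqn i)) * v c = 0 := Iff.rfl

/-- infinitesimally near points -/
theorem Ep.coord_iff (ρ : Ep k K R) {x : Fin N → R} (hx : IsCoord eqn x) {v : Fin N → K} :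
    IsCoord eqn (fun c => x c + ρ.e * ρ.ι (v c)) ↔ v ∈ tangent eqn (fun c => ρ.π (x c)) := by
  have h1 : ∀ i, aeval (fun c => x c + ρ.e * ρ.ι (v c)) (eqn i) =
      ρ.e * ρ.ι (∑ c, aeval (fun c => ρ.π (x c)) (pderiv c (eqn i)) * v c) := by
    intro i
    rw [taylor (eqn i) x (fun c => ρ.ι (v c)) ρ.ee, hx.2 i, zero_add, ρ.res]
    congr 2
    rw [map_sum]
    refine Finset.sum_congr rfl fun c _ => ?_
    rw [map_mul, ρ.πι, comp_aeval_apply]
  constructor
  · rintro ⟨-, h⟩ i
    apply ρ.inj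
    rw [← h1, h]
  · intro h
    refine ⟨?_, fun i => ?_⟩
    · obtain ⟨c, hc⟩ := hx.1
      refine ⟨c, ρ.loc _ ?_⟩
      rw [map_add, map_mul, ρ.πe, zero_mul, add_zero]
      exact (hc.map ρ.π).ne_zero
    · rw [h1, h i, map_zero, mul_zero]

end ep

namespace AbelianVariety

variable {k : Type} [Field k] {N : ℕ} (A : AbelianVariety k N)

/-- the multiplier of the `l`-th family on the diagonal -/
noncomputable def S0 (l : Fin A.r) : MvPolynomial (Fin N) k :=
  aeval (Sum.elim X X) (A.sub l A.c0)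

/-- the coefficients of the differential of the subtraction -/
noncomputable def dS (l : Fin A.r) (b a : Fin N) : MvPolynomial (Fin N) k :=
  aeval (Sum.elim X X) (pderiv (Sum.inl a) (A.sub l b)) -
    C (A.o b) * aeval (Sum.elim X X) (pderiv (Sum.inl a) (A.sub l A.c0))

section loc

variable {R : Type} [CommRing R] [IsLocalRing R] [Algebra k R]

theorem diag (x : A.Co R) (l : Fin A.r) (c : Fin N) :
    aeval (Sum.elim x.1 x.1) (A.sub l c) = aeval x.1 (A.S0 l) * algebraMap k R (A.o c) := by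
  have h1 : pt A.eqn x - pt A.eqn x = pt A.eqn (A.oR R) := by rw [sub_self, pt_oR]
  obtain ⟨s, hs⟩ := (A.rep_sub h1).1 l
  have h2 := hs A.c0
  rw [oR_apply, o_c0, map_one, mul_one] at h2
  rw [hs c, S0, aeval_elimXX, h2, oR_apply]

theorem exists_S0 (x : A.Co R) : ∃ l, IsUnit (aeval x.1 (A.S0 l)) := by
  have h1 : pt A.eqn x - pt A.eqn x = pt A.eqn (A.oR R) := by rw [sub_self, pt_oR]
  obtain ⟨l, c, h⟩ := (A.rep_sub h1).2
  refine ⟨l, ?_⟩
  rw [diag] at h
  exact isUnit_of_mul_isUnit_left h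

end loc

section tan

variable {K : Type} [Field K] [Algebra k K]

theorem exists_S0K {x : Fin N → K} (hx : IsCoord A.eqn x) : ∃ l, aeval x (A.S0 l) ≠ 0 := by
  obtain ⟨l, hl⟩ := A.exists_S0 ⟨x, hx⟩
  exact ⟨l, hl.ne_zero⟩

/-- the translate to zero of the tangent vector `v` at `x` -/
noncomputable def T (x v : Fin N → K) (b : Fin N) : K :=
  if h : ∃ l, aeval x (A.S0 l) ≠ 0 then
    (aeval x (A.S0 h.choose))⁻¹ * ∑ a, aeval x (A.dS h.choose b a) * v a
  else 0

theorem T_spec {x : Fin N → K} (hx : IsCoord A.eqn x) (v : Fin N → K) :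
    ∃ l, aeval x (A.S0 l) ≠ 0 ∧
      ∀ b, aeval x (A.S0 l) * A.T x v b = ∑ a, aeval x (A.dS l b a) * v a := by
  have h := A.exists_S0K hx
  refine ⟨h.choose, h.choose_spec, fun b => ?_⟩
  unfold T
  rw [dif_pos h, ← mul_assoc, mul_inv_cancel₀ h.choose_spec, one_mul]

theorem T_c0 {x : Fin N → K} (hx : IsCoord A.eqn x) (v : Fin N → K) : A.T x v A.c0 = 0 := by
  obtain ⟨l, h1, h2⟩ := A.T_spec hx v
  have h3 := h2 A.c0
  have h4 : ∀ a, A.dS l A.c0 a = 0 := by
    intro a
    rw [dS, o_c0, C_1, one_mul, sub_self]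
  simp only [h4, map_zero, zero_mul, Finset.sum_const_zero] at h3
  exact (mul_eq_zero.1 h3).resolve_left h1

variable {R : Type} [CommRing R] [IsLocalRing R] [Algebra k R]

theorem sub_near (ρ : Ep k K R) (x : A.Co R) (v : Fin N → K) (l : Fin A.r) (b : Fin N) :
    aeval (Sum.elim (fun c => x.1 c + ρ.e * ρ.ι (v c)) x.1) (A.sub l b) -
      aeval (Sum.elim (fun c => x.1 c + ρ.e * ρ.ι (v c)) x.1) (A.sub l A.c0) *
        algebraMap k R (A.o b) =
      ρ.e * ρ.ι (∑ a, aeval (fun c => ρ.π (x.1 c)) (A.dS l b a) * v a) := by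
  have h1 : ∀ b, aeval (Sum.elim (fun c => x.1 c + ρ.e * ρ.ι (v c)) x.1) (A.sub l b) =
      aeval x.1 (A.S0 l) * algebraMap k R (A.o b) + ρ.e * ∑ a, aeval x.1
        (aeval (Sum.elim X X) (pderiv (Sum.inl a) (A.sub l b)) : MvPolynomial (Fin N) k) *
          ρ.ι (v a) := by
    intro b
    rw [taylor1 _ _ _ (fun c => ρ.ι (v c)) ρ.ee, diag]
    congr 2
    exact Finset.sum_congr rfl fun a _ => by rw [aeval_elimXX]
  rw [h1 b, h1 A.c0, o_c0, map_one, mul_one]
  have h2 : ρ.e * ρ.ι (∑ a, aeval (fun c => ρ.π (x.1 c)) (A.dS l b a) * v a) =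
      ρ.e * ∑ a, aeval x.1 (A.dS l b a) * ρ.ι (v a) := by
    rw [ρ.res (∑ a, aeval x.1 (A.dS l b a) * ρ.ι (v a))]
    congr 2
    rw [map_sum]
    refine Finset.sum_congr rfl fun a _ => ?_
    rw [map_mul, ρ.πι, comp_aeval_apply]
  rw [h2]
  have h3 : ∀ a, aeval x.1 (A.dS l b a) = aeval x.1
      (aeval (Sum.elim X X) (pderiv (Sum.inl a) (A.sub l b)) : MvPolynomial (Fin N) k) -
      algebraMap k R (A.o b) * aeval x.1 (aeval (Sum.elim X X)
        (pderiv (Sum.inl a) (A.sub l A.c0)) : MvPolynomial (Fin N) k) := by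
    intro a
    unfold dS
    rw [map_sub, map_mul, ← algebraMap_eq, AlgHom.commutes]
  have h4 : ∑ a, aeval x.1 (A.dS l b a) * ρ.ι (v a) =
      ∑ a, aeval x.1 (aeval (Sum.elim X X) (pderiv (Sum.inl a) (A.sub l b)) :
        MvPolynomial (Fin N) k) * ρ.ι (v a) -
      algebraMap k R (A.o b) * ∑ a, aeval x.1 (aeval (Sum.elim X X)
        (pderiv (Sum.inl a) (A.sub l A.c0)) : MvPolynomial (Fin N) k) * ρ.ι (v a) := by
    rw [Finset.mul_sum, ← Finset.sum_sub_distrib]
    exact Finset.sum_congr rfl fun a _ => by rw [h3]; ring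
  rw [h4]
  ring

/-- **Infinitesimally near points.** -/
theorem near (ρ : Ep k K R) (x : A.Co R) {v : Fin N → K}
    (hv : IsCoord A.eqn (fun c => x.1 c + ρ.e * ρ.ι (v c))) :
    (∀ l b, aeval (fun c => ρ.π (x.1 c)) (A.S0 l) * A.T (fun c => ρ.π (x.1 c)) v b =
      ∑ a, aeval (fun c => ρ.π (x.1 c)) (A.dS l b a) * v a) ∧
    ∃ h : IsCoord A.eqn (fun c => algebraMap k R (A.o c) +
        ρ.e * ρ.ι (A.T (fun c => ρ.π (x.1 c)) v c)),
      pt A.eqn ⟨_, hv⟩ = pt A.eqn x + pt A.eqn ⟨_, h⟩ := by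
  obtain ⟨z, hz⟩ := exists_pt (pt A.eqn ⟨_, hv⟩ - pt A.eqn x)
  have hxK : IsCoord A.eqn (fun c => ρ.π (x.1 c)) := x.2.map ρ.π
  obtain ⟨hrep1, -⟩ := A.rep_sub hz.symm
  obtain ⟨l, hl, hl2⟩ := A.T_spec hxK v
  set xK := fun c => ρ.π (x.1 c) with hxKdef
  have hval : ∀ l b, aeval (Sum.elim (fun c => x.1 c + ρ.e * ρ.ι (v c)) x.1) (A.sub l b) =
      aeval (Sum.elim (fun c => x.1 c + ρ.e * ρ.ι (v c)) x.1) (A.sub l A.c0) *
        algebraMap k R (A.o b) + ρ.e * ρ.ι (∑ a, aeval xK (A.dS l b a) * v a) := by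
    intro l b
    rw [← A.sub_near ρ x v l b]
    ring
  have hres : ∀ l, ρ.π (aeval (Sum.elim (fun c => x.1 c + ρ.e * ρ.ι (v c)) x.1) (A.sub l A.c0)) =
      aeval xK (A.S0 l) := by
    intro l
    rw [comp_aeval_apply, S0, aeval_elimXX]
    congr 2
    funext i
    rcases i with i | i
    · simp only [Sum.elim_inl, map_add, map_mul, ρ.πe, zero_mul, add_zero]
      rfl
    · rfl
  have hval2 : ∀ l, aeval xK (A.S0 l) ≠ 0 → ∀ b,
      aeval (Sum.elim (fun c => x.1 c + ρ.e * ρ.ι (v c)) x.1) (A.sub l b) =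
      aeval (Sum.elim (fun c => x.1 c + ρ.e * ρ.ι (v c)) x.1) (A.sub l A.c0) *
        (algebraMap k R (A.o b) + ρ.e * ρ.ι ((aeval xK (A.S0 l))⁻¹ *
          ∑ a, aeval xK (A.dS l b a) * v a)) := by
    intro l hl b
    rw [hval, mul_add]
    congr 1
    rw [mul_left_comm, ρ.res (_ * _), map_mul, hres, ρ.πι, ← mul_assoc, mul_inv_cancel₀ hl, one_mul]
  obtain ⟨s, hs⟩ := hrep1 l
  have hTl : ∀ b, (aeval xK (A.S0 l))⁻¹ * ∑ a, aeval xK (A.dS l b a) * v a = A.T xK v b := by
    intro b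
    rw [← hl2 b, ← mul_assoc, inv_mul_cancel₀ hl, one_mul]
  have hu : IsUnit (aeval (Sum.elim (fun c => x.1 c + ρ.e * ρ.ι (v c)) x.1) (A.sub l A.c0)) := by
    apply ρ.loc
    rw [hres]
    exact hl
  have hsu : IsUnit s := by
    have h1 := hs A.c0
    change aeval (Sum.elim (fun c => x.1 c + ρ.e * ρ.ι (v c)) x.1) (A.sub l A.c0) = _ at h1
    rw [h1] at hu
    exact isUnit_of_mul_isUnit_left hu
  have hprop : ∀ b, s * z.1 b =
      aeval (Sum.elim (fun c => x.1 c + ρ.e * ρ.ι (v c)) x.1) (A.sub l A.c0) *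
        (algebraMap k R (A.o b) + ρ.e * ρ.ι (A.T xK v b)) := by
    intro b
    rw [← hs b, ← hTl b]
    exact hval2 l hl b
  have hco := IsCoord.of_smul A.homogeneous z.2 hsu hprop hu
  have hpt : pt A.eqn z = pt A.eqn ⟨_, hco⟩ := pt_eq_of hsu hprop
  refine ⟨fun l' b => ?_, hco, ?_⟩
  · -- the other families
    obtain ⟨s', hs'⟩ := (A.rep_sub (z := ⟨_, hco⟩) (by rw [← hpt, hz] :
      pt A.eqn ⟨_, hv⟩ - pt A.eqn x = pt A.eqn ⟨_, hco⟩)).1 l'
    have h1 := hs' A.c0
    change aeval (Sum.elim (fun c => x.1 c + ρ.e * ρ.ι (v c)) x.1) (A.sub l' A.c0) =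
      s' * (algebraMap k R (A.o A.c0) + ρ.e * ρ.ι (A.T xK v A.c0)) at h1
    rw [o_c0, map_one, A.T_c0 hxK, map_zero, mul_zero, add_zero, mul_one] at h1
    have h2 := hs' b
    change aeval (Sum.elim (fun c => x.1 c + ρ.e * ρ.ι (v c)) x.1) (A.sub l' b) =
      s' * (algebraMap k R (A.o b) + ρ.e * ρ.ι (A.T xK v b)) at h2
    rw [← h1, hval, mul_add, add_left_cancel_iff, mul_left_comm, ρ.res (_ * _), map_mul, hres,
      ρ.πι] at h2
    have h3 : ρ.e * ρ.ι (aeval xK (A.S0 l') * A.T xK v b -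
        ∑ a, aeval xK (A.dS l' b a) * v a) = 0 := by
      rw [map_sub, mul_sub, h2, sub_self]
    exact sub_eq_zero.1 (ρ.inj _ h3)
  · rw [← hpt, hz]
    abel

end tan

end AbelianVariety

end Pool.Agent.K1H80.AV
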