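import Pool.Agent.K1H80.AV.Tan

/-!
# Logarithmic derivatives of points
-/

set_option autoImplicit false
set_option linter.unusedSectionVars false

namespace Pool.Agent.K1H80.AV

open MvPolynomial
open scoped Classical

section ep

variable {k K R : Type} [Field k] [Field K] [CommRing R] [Algebra k K] [Algebra k R]

/-- the dual numbers -/
noncomputable def epD (k K : Type) [Field k] [Field K] [Algebra k K] : Ep k K (DualNumber K) where
  ι := TrivSqZeroExt.inlAlgHom k K K
  π := TrivSqZeroExt.fstHom k K K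
  e := DualNumber.eps
  πι := fun a => rfl
  πe := rfl
  res := fun r => by
    apply TrivSqZeroExt.ext
    · simp
    · simp
  inj := fun a h => by
    have h1 := congrArg TrivSqZeroExt.snd h
    simpa using h1
  loc := fun r hr => by
    rw [TrivSqZeroExt.isUnit_iff_isUnit_fst]
    exact (Ne.isUnit hr : _)

/-- the homomorphism of a derivation -/
noncomputable def hD (ρ : Ep k K R) (D : Derivation k K K) : K →ₐ[k] R where
  toFun := fun a => ρ.ι a + ρ.e * ρ.ι (D a)
  map_one' := by simp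
  map_zero' := by simp
  map_add' := fun a b => by simp only [map_add]; ring
  map_mul' := fun a b => by
    rw [D.leibniz, smul_eq_mul, smul_eq_mul, map_add, map_mul, map_mul, map_mul]
    linear_combination (-(ρ.ι (D a) * ρ.ι (D b))) * ρ.ee
  commutes' := fun t => by
    rw [D.map_algebraMap, map_zero, mul_zero, add_zero, AlgHom.commutes]

theorem hD_apply (ρ : Ep k K R) (D : Derivation k K K) (a : K) :
    hD ρ D a = ρ.ι a + ρ.e * ρ.ι (D a) := rfl

end ep

namespace AbelianVariety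

variable {k : Type} [Field k] {N : ℕ} (A : AbelianVariety k N)
variable {K : Type} [Field K] [Algebra k K]

/-- zero over a field -/
noncomputable abbrev oK (K : Type) [Field K] [Algebra k K] : Fin N → K := fun c => algebraMap k K (A.o c)

theorem oK_coord : IsCoord A.eqn (A.oK K) := (A.oR K).2

/-- the tangent space at zero -/
noncomputable def To (K : Type) [Field K] [Algebra k K] : Submodule K (Fin N → K) :=
  tangent A.eqn (A.oK K) ⊓ LinearMap.ker (LinearMap.proj A.c0 : (Fin N → K) →ₗ[K] K)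

theorem mem_To {w : Fin N → K} : w ∈ A.To K ↔ w ∈ tangent A.eqn (A.oK K) ∧ w A.c0 = 0 := Iff.rfl

theorem euler {x : Fin N → K} (hx : IsCoord A.eqn x) : x ∈ tangent A.eqn x := by
  intro i
  have h1 := (A.homogeneous i).sum_X_mul_pderiv
  have h2 := congrArg (aeval x) h1
  rw [map_sum, map_nsmul, hx.2 i, smul_zero] at h2
  rw [← h2]
  refine Finset.sum_congr rfl fun c _ => ?_
  rw [map_mul, aeval_X, mul_comm]

variable {R : Type} [CommRing R] [IsLocalRing R] [Algebra k R]

theorem coord_o_iff (ρ : Ep k K R) {w : Fin N → K} :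
    IsCoord A.eqn (fun c => algebraMap k R (A.o c) + ρ.e * ρ.ι (w c)) ↔
      w ∈ tangent A.eqn (A.oK K) := by
  have h := ρ.coord_iff (x := (A.oR R).1) (A.oR R).2 (v := w)
  have h2 : (fun c => ρ.π ((A.oR R).1 c)) = A.oK K := by
    funext c
    rw [oR_apply, AlgHom.commutes]
  rw [h2] at h
  exact h

/-- the point `o + e w` -/
noncomputable def co (ρ : Ep k K R) (w : A.To K) : A.Co R :=
  ⟨fun c => algebraMap k R (A.o c) + ρ.e * ρ.ι (w.1 c), (A.coord_o_iff ρ).2 w.2.1⟩

theorem co_c0 (ρ : Ep k K R) (w : A.To K) : (A.co ρ w).1 A.c0 = 1 := by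
  change algebraMap k R (A.o A.c0) + ρ.e * ρ.ι (w.1 A.c0) = 1
  rw [o_c0, map_one, (A.mem_To.1 w.2).2, map_zero, mul_zero, add_zero]

theorem co_inj (ρ : Ep k K R) {w w' : A.To K} (h : pt A.eqn (A.co ρ w) = pt A.eqn (A.co ρ w')) :
    w = w' := by
  have h1 := eq_of_pt h (A.co_c0 ρ w) (A.co_c0 ρ w')
  apply Subtype.ext
  funext c
  have h2 := congrFun h1 c
  change algebraMap k R (A.o c) + ρ.e * ρ.ι (w.1 c) = algebraMap k R (A.o c) + ρ.e * ρ.ι (w'.1 c)
    at h2
  have h3 : ρ.e * ρ.ι (w.1 c - w'.1 c) = 0 := by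
    rw [map_sub, mul_sub, add_left_cancel h2, sub_self]
  exact sub_eq_zero.1 (ρ.inj _ h3)

/-- a tangent vector, translated to zero -/
theorem T_mem {x v : Fin N → K} (hx : IsCoord A.eqn x) (hv : v ∈ tangent A.eqn x) :
    A.T x v ∈ A.To K := by
  let ρ := epD k K
  have := ρ.isLocalRing
  have hx' : IsCoord A.eqn (fun c => ρ.ι (x c)) := hx.map ρ.ι
  have h1 : (fun c => ρ.π (ρ.ι (x c))) = x := funext fun c => ρ.πι _
  have hv' : IsCoord A.eqn (fun c => ρ.ι (x c) + ρ.e * ρ.ι (v c)) := by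
    rw [ρ.coord_iff hx', h1]
    exact hv
  obtain ⟨-, h2, -⟩ := A.near ρ ⟨_, hx'⟩ hv'
  change IsCoord A.eqn (fun c => algebraMap k _ (A.o c) +
    ρ.e * ρ.ι (A.T (fun c => ρ.π (ρ.ι (x c))) v c)) at h2
  rw [h1, A.coord_o_iff ρ] at h2
  exact A.mem_To.2 ⟨h2, A.T_c0 hx v⟩

/-- the translate to zero, in all families -/
theorem T_all {x v : Fin N → K} (hx : IsCoord A.eqn x) (hv : v ∈ tangent A.eqn x) (l : Fin A.r)
    (b : Fin N) : aeval x (A.S0 l) * A.T x v b = ∑ a, aeval x (A.dS l b a) * v a := by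
  let ρ := epD k K
  have := ρ.isLocalRing
  have hx' : IsCoord A.eqn (fun c => ρ.ι (x c)) := hx.map ρ.ι
  have h1 : (fun c => ρ.π (ρ.ι (x c))) = x := funext fun c => ρ.πι _
  have hv' : IsCoord A.eqn (fun c => ρ.ι (x c) + ρ.e * ρ.ι (v c)) := by
    rw [ρ.coord_iff hx', h1]
    exact hv
  obtain ⟨h2, -⟩ := A.near ρ ⟨_, hx'⟩ hv'
  have h3 := h2 l b
  change aeval (fun c => ρ.π (ρ.ι (x c))) (A.S0 l) * A.T (fun c => ρ.π (ρ.ι (x c))) v b =
    ∑ a, aeval (fun c => ρ.π (ρ.ι (x c))) (A.dS l b a) * v a at h3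
  rw [h1] at h3
  exact h3

/-- infinitesimally near points, with translates to zero -/
theorem near' (ρ : Ep k K R) (x : A.Co R) {xK : Fin N → K} (hxK : ∀ c, ρ.π (x.1 c) = xK c)
    {v : Fin N → K} (hv : v ∈ tangent A.eqn xK) :
    ∃ (h : IsCoord A.eqn (fun c => x.1 c + ρ.e * ρ.ι (v c))) (hT : A.T xK v ∈ A.To K),
      pt A.eqn ⟨_, h⟩ = pt A.eqn x + pt A.eqn (A.co ρ ⟨_, hT⟩) := by
  have h1 : (fun c => ρ.π (x.1 c)) = xK := funext hxK
  have hx' : IsCoord A.eqn xK := by
    rw [← h1]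
    exact x.2.map ρ.π
  have h := (ρ.coord_iff x.2 (v := v)).2 (by rw [h1]; exact hv)
  obtain ⟨-, h2, h3⟩ := A.near ρ x h
  refine ⟨h, A.T_mem hx' hv, ?_⟩
  rw [h3]
  congr 2
  apply Subtype.ext
  funext c
  change algebraMap k R (A.o c) + ρ.e * ρ.ι (A.T (fun c => ρ.π (x.1 c)) v c) =
    algebraMap k R (A.o c) + ρ.e * ρ.ι (A.T xK v c)
  rw [h1]

/-- tangent vectors at zero -/
theorem T_o (w : A.To K) : A.T (A.oK K) w.1 = w.1 := by
  let ρ := epD k K
  have := ρ.isLocalRing
  obtain ⟨h, hT, h1⟩ := A.near' ρ (A.oR (DualNumber K)) (xK := A.oK K) (v := w.1) (fun c => by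
    rw [oR_apply, AlgHom.commutes]) w.2.1
  rw [pt_oR, zero_add] at h1
  have h2 : (⟨A.T (A.oK K) w.1, hT⟩ : A.To K) = w := by
    apply A.co_inj ρ
    rw [← h1]
    rfl
  exact congrArg Subtype.val h2

/-- tangent vectors at points with residue zero -/
theorem near_o (ρ : Ep k K R) (x : A.Co R) (hx : ∀ c, ρ.π (x.1 c) = A.oK K c) (w : A.To K) :
    ∃ h : IsCoord A.eqn (fun c => x.1 c + ρ.e * ρ.ι (w.1 c)),
      pt A.eqn ⟨_, h⟩ = pt A.eqn x + pt A.eqn (A.co ρ w) := by
  obtain ⟨h, hT, h1⟩ := A.near' ρ x hx w.2.1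
  refine ⟨h, ?_⟩
  rw [h1]
  congr 3
  exact Subtype.ext (A.T_o w)

/-- additivity -/
theorem co_add (ρ : Ep k K R) (w w' : A.To K) :
    pt A.eqn (A.co ρ (w + w')) = pt A.eqn (A.co ρ w) + pt A.eqn (A.co ρ w') := by
  obtain ⟨h, h1⟩ := A.near_o ρ (A.co ρ w) (fun c => by
    change ρ.π (algebraMap k R (A.o c) + ρ.e * ρ.ι (w.1 c)) = _
    rw [map_add, map_mul, ρ.πe, zero_mul, add_zero, AlgHom.commutes]) w'
  rw [← h1]
  congr 1
  apply Subtype.ext
  funext c
  change algebraMap k R (A.o c) + ρ.e * ρ.ι ((w + w').1 c) =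
    algebraMap k R (A.o c) + ρ.e * ρ.ι (w.1 c) + ρ.e * ρ.ι (w'.1 c)
  rw [Submodule.coe_add, Pi.add_apply, map_add]
  ring

theorem co_zero (ρ : Ep k K R) : pt A.eqn (A.co ρ 0) = 0 := by
  rw [← A.pt_oR]
  congr 1
  apply Subtype.ext
  funext c
  change algebraMap k R (A.o c) + ρ.e * ρ.ι ((0 : A.To K).1 c) = _
  simp [oR_apply]

theorem D_tangent (D : Derivation k K K) {x : Fin N → K} (hx : IsCoord A.eqn x) :
    (fun c => D (x c)) ∈ tangent A.eqn x := by
  let ρ := epD k K
  have := ρ.isLocalRing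
  have h1 : IsCoord A.eqn (fun c => hD ρ D (x c)) := hx.map (hD ρ D)
  have hx' : IsCoord A.eqn (fun c => ρ.ι (x c)) := hx.map ρ.ι
  have h2 := (ρ.coord_iff hx' (v := fun c => D (x c))).1 h1
  have h3 : (fun c => ρ.π (ρ.ι (x c))) = x := funext fun c => ρ.πι _
  rwa [h3] at h2

/-- **The logarithmic derivative** of the point `x`. -/
noncomputable def ld (D : Derivation k K K) (x : A.Co K) : A.To K :=
  ⟨A.T x.1 (fun c => D (x.1 c)), A.T_mem x.2 (A.D_tangent D x.2)⟩

theorem hom_hD (ρ : Ep k K R) (D : Derivation k K K) (x : A.Co K) :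
    A.hom (hD ρ D) (pt A.eqn x) = A.hom ρ.ι (pt A.eqn x) + pt A.eqn (A.co ρ (A.ld D x)) := by
  obtain ⟨h, hT, h1⟩ := A.near' ρ (cmap ρ.ι x) (xK := x.1) (fun c => ρ.πι _) (A.D_tangent D x.2)
  exact h1

theorem ld_eq_iff (D : Derivation k K K) {x : A.Co K} {w : A.To K} : A.ld D x = w ↔
    haveI := (epD k K).isLocalRing
    A.hom (hD (epD k K) D) (pt A.eqn x) =
      A.hom (epD k K).ι (pt A.eqn x) + pt A.eqn (A.co (epD k K) w) := by
  have := (epD k K).isLocalRing
  constructor
  · rintro rfl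
    exact A.hom_hD (epD k K) D x
  · intro h
    rw [A.hom_hD (epD k K) D x] at h
    exact A.co_inj _ (add_left_cancel h)

/-- the logarithmic derivative depends on the point only -/
theorem ld_congr (D : Derivation k K K) {x y : A.Co K} (h : pt A.eqn x = pt A.eqn y) :
    A.ld D x = A.ld D y := by
  rw [ld_eq_iff, h, ← ld_eq_iff]

/-- additivity of the logarithmic derivative -/
theorem ld_add (D : Derivation k K K) {x y z : A.Co K}
    (h : pt A.eqn z = pt A.eqn x + pt A.eqn y) : A.ld D z = A.ld D x + A.ld D y := by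
  have := (epD k K).isLocalRing
  rw [ld_eq_iff, h, map_add, map_add, A.co_add, A.hom_hD (epD k K) D x, A.hom_hD (epD k K) D y]
  abel

/-- points with logarithmic derivative zero are constant -/
theorem const_of_ld (D : Derivation k K K) {x : A.Co K} (h : A.ld D x = 0) {c : Fin N}
    (hc : x.1 c = 1) (a : Fin N) : D (x.1 a) = 0 := by
  have := (epD k K).isLocalRing
  rw [ld_eq_iff, co_zero, add_zero, hom_pt, hom_pt] at h
  have h1 := eq_of_pt h (c := c) (by change hD (epD k K) D (x.1 c) = 1; rw [hc, map_one])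
    (by change (epD k K).ι (x.1 c) = 1; rw [hc, map_one])
  have h2 := congrFun h1 a
  change (epD k K).ι (x.1 a) + (epD k K).e * (epD k K).ι (D (x.1 a)) = (epD k K).ι (x.1 a) at h2
  exact (epD k K).inj _ (by linear_combination h2)

theorem T_add {x : Fin N → K} (v w : Fin N → K) (b : Fin N) :
    A.T x (v + w) b = A.T x v b + A.T x w b := by
  unfold T
  split_ifs with h
  · rw [← mul_add, ← Finset.sum_add_distrib]
    congr 1
    exact Finset.sum_congr rfl fun a _ => by rw [Pi.add_apply, mul_add]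
  · rw [add_zero]

theorem T_smul {x : Fin N → K} (s : K) (v : Fin N → K) (b : Fin N) :
    A.T x (s • v) b = s * A.T x v b := by
  unfold T
  split_ifs with h
  · rw [mul_left_comm]
    congr 1
    rw [Finset.mul_sum]
    exact Finset.sum_congr rfl fun a _ => by rw [Pi.smul_apply, smul_eq_mul]; ring
  · rw [mul_zero]

/-- tangent vectors and field extensions -/
theorem T_map {K' : Type} [Field K'] [Algebra k K'] (j : K →ₐ[k] K') {x v : Fin N → K}
    (hx : IsCoord A.eqn x) (hv : v ∈ tangent A.eqn x) (b : Fin N) :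
    A.T (fun c => j (x c)) (fun c => j (v c)) b = j (A.T x v b) := by
  obtain ⟨l, hl⟩ := A.exists_S0K hx
  have hx' := hx.map j
  have hv' : (fun c => j (v c)) ∈ tangent A.eqn (fun c => j (x c)) := by
    intro i
    have h1 := congrArg j (hv i)
    rw [map_sum, map_zero] at h1
    rw [← h1]
    refine Finset.sum_congr rfl fun c _ => ?_
    rw [map_mul, comp_aeval_apply]
  have h1 := A.T_all hx hv l b
  have h2 := A.T_all hx' hv' l b
  have h3 : aeval (fun c => j (x c)) (A.S0 l) = j (aeval x (A.S0 l)) := (comp_aeval_apply _ _ _).symm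
  have h4 : ∑ a, aeval (fun c => j (x c)) (A.dS l b a) * j (v a) =
      j (∑ a, aeval x (A.dS l b a) * v a) := by
    rw [map_sum]
    refine Finset.sum_congr rfl fun a _ => ?_
    rw [map_mul, comp_aeval_apply]
  rw [h4, ← h1, map_mul, h3] at h2
  exact mul_left_cancel₀ ((map_ne_zero j).2 hl) h2

/-- the logarithmic derivative and field extensions -/
theorem ld_map {K' : Type} [Field K'] [Algebra k K'] (j : K →ₐ[k] K') {D : Derivation k K K}
    {D' : Derivation k K' K'} (h : ∀ z, D' (j z) = j (D z)) (x : A.Co K) (b : Fin N) :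
    (A.ld D' (cmap j x)).1 b = j ((A.ld D x).1 b) := by
  have h1 := A.T_map j x.2 (A.D_tangent D x.2) b
  change A.T (fun c => j (x.1 c)) (fun c => D' (j (x.1 c))) b = _
  simp only [h]
  exact h1

end AbelianVariety

end Pool.Agent.K1H80.AV
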