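import Pool.Agent.K1H80.AV.Ht

/-!
# The inequalities in the ultraproduct
-/

set_option autoImplicit false
set_option linter.unusedSectionVars false
set_option linter.unusedVariables false

namespace Pool.Agent.K1H80.AV

open Pool.Agent.K1H80
open FF Filter MvPolynomial Module Pool.Agent.W603.LV Pool.Agent.W603.PV Pool.Agent.W603.CZ
open Pool.Agent.Y731.FG
open Pool.Agent.K1H80.EC (BQ mem_BQ)
open scoped Classical

variable {I : Type} {𝒰 : Ultrafilter I} {k F : Type} [Field k] [IsAlgClosed k] [CharZero k]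
  [Field F] [Algebra k F] {L : I → Type} [∀ i, Field (L i)] [∀ i, Algebra k (L i)]
  [∀ i, Algebra F (L i)] [∀ i, IsScalarTower k F (L i)]
  [∀ i, IsFF k (L i)] {Δ : Dt 𝒰 k F L} {N : ℕ} {A : AbelianVariety k N} {X : A.Co (UL 𝒰 L)}
  {w : ℕ} {G : Fin w → MvPolynomial (Fin N) F} {d : Fin w → ℕ}

/-- the admissible charts -/
abbrev Cc (X : A.Co (UL 𝒰 L)) : Type := {c : Fin N // X.1 c ≠ 0}

/-- the equations in a chart -/
theorem chart_val (hG : ∀ j, (G j).IsHomogeneous (d j)) {c : Fin N} (hc : X.1 c ≠ 0) (j : Fin w) :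
    aeval X.1 (G j) = X.1 c ^ d j * ((aeval (zR Δ.E (nz A X c)) (G j) : RZ Δ.E (nz A X c)) :
      UL 𝒰 L) := by
  rw [coe_aeval_zRF, ← aeval_smul_hom (hG j)]
  congr 2
  funext a
  unfold nz
  rw [mul_inv_cancel_left₀ hc]

theorem chart_iff (hG : ∀ j, (G j).IsHomogeneous (d j)) {c : Fin N} (hc : X.1 c ≠ 0) (j : Fin w) :
    aeval X.1 (G j) ≠ 0 ↔ aeval (zR Δ.E (nz A X c)) (G j) ≠ 0 := by
  rw [chart_val (Δ := Δ) hG hc, mul_ne_zero_iff]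
  refine ⟨fun h h0 => h.2 (by rw [h0]; rfl), fun h => ⟨pow_ne_zero _ hc, fun h0 =>
    h (Subtype.ext h0)⟩⟩

/-- the local height is at most the order of the equations in a chart -/
theorem lam_chart (hG : ∀ j, (G j).IsHomogeneous (d j)) {c : Fin N} (hc : X.1 c ≠ 0) :
    ∀ᶠ ω in EV 𝒰 k L, ω ∈ QC X.1 c → ∀ j, aeval (zR Δ.E (nz A X c)) (G j) ≠ 0 →
      lam G d X.1 ω ≤ oo ((aeval (zR Δ.E (nz A X c)) (G j) : RZ Δ.E (nz A X c)) : UL 𝒰 L) ω := by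
  have hord : ∀ᶠ ω in EV 𝒰 k L, ∀ j, aeval (zR Δ.E (nz A X c)) (G j) ≠ 0 →
      oo (aeval X.1 (G j)) ω = d j * oo (X.1 c) ω +
        oo ((aeval (zR Δ.E (nz A X c)) (G j) : RZ Δ.E (nz A X c)) : UL 𝒰 L) ω := by
    rw [eventually_all]
    intro j
    by_cases hj : aeval (zR Δ.E (nz A X c)) (G j) = 0
    · exact Eventually.of_forall fun ω h => absurd hj h
    have hj' : ((aeval (zR Δ.E (nz A X c)) (G j) : RZ Δ.E (nz A X c)) : UL 𝒰 L) ≠ 0 :=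
      fun h0 => hj (Subtype.ext h0)
    filter_upwards [oo_mul (k := k) (pow_ne_zero (d j) hc) hj', oo_pow (k := k) (X.1 c) (d j)] with
      ω h4 h5 _
    rw [chart_val (Δ := Δ) hG hc, h4, h5]
  filter_upwards [hord] with ω h1 hω j hj
  have h3 := lam_le G d X.1 ((chart_iff hG hc j).2 hj) ω
  rw [h1 j hj] at h3
  have h4 : oo (X.1 c) ω = mo X.1 ω := hω
  rw [h4] at h3
  linarith

variable (hG : ∀ j, (G j).IsHomogeneous (d j)) (hne : ∃ j, aeval X.1 (G j) ≠ 0)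
  (g : Gs F Δ.E A (uD Δ.D) X)

include hG hne g in
/-- **The inequality for subschemes of codimension two.** -/
theorem T2u (hcod : HasCodimTwo A G) : ∃ e : Om k L → ℤ, Ng 𝒰 Δ.χ (hp k X.1) e ∧
    ∀ᶠ ω in EV 𝒰 k L, lam G d X.1 ω ≤ e ω := by
  have hH := hp_nonneg X
  set ψ : (c : Cc X) → Fin w → RZ Δ.E (nz A X c.1) := fun c j =>
    aeval (zR Δ.E (nz A X c.1)) (G j) with hψ
  have hct : ∀ c : Cc X, Ng 𝒰 Δ.χ (hp k X.1) (fun ω : Om k L =>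
      if ω ∈ QC X.1 c.1 then mo (fun j => (ψ c j : UL 𝒰 L)) ω else 0) := by
    intro c
    refine ctA g c.2 (ψ c) (fun m s0 hint 𝔭 h𝔭 h1 a0 => ?_) ?_
    · exact g.codI hcod c.2 s0 hint 𝔭 h𝔭 h1 a0
    · obtain ⟨j, hj⟩ := hne
      exact ⟨j, (chart_iff hG c.2 j).1 hj⟩
  refine ⟨fun ω => ∑ c : Cc X, max (if ω ∈ QC X.1 c.1 then
    mo (fun j => (ψ c j : UL 𝒰 L)) ω else 0) 0,
    Ng.sum Δ.nonneg hH Finset.univ fun c _ => (hct c).pos, ?_⟩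
  filter_upwards [eventually_all.2 fun c : Cc X => lam_chart (Δ := Δ) hG c.2] with ω h1
  obtain ⟨c, hc, hω⟩ := exists_QC X ω
  obtain ⟨j0, hj0⟩ := hne
  obtain ⟨j, hj, hj2⟩ := exists_mo (fun j => (ψ ⟨c, hc⟩ j : UL 𝒰 L))
    ⟨j0, fun h => (chart_iff hG hc j0).1 hj0 (Subtype.ext h)⟩ ω
  have h2 : lam G d X.1 ω ≤ oo ((ψ ⟨c, hc⟩ j : RZ Δ.E (nz A X c)) : UL 𝒰 L) ω :=
    h1 ⟨c, hc⟩ hω j (fun h => hj (by
      change ((aeval (zR Δ.E (nz A X c)) (G j) : RZ Δ.E (nz A X c)) : UL 𝒰 L) = 0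
      rw [h]; rfl))
  have h3 := Finset.single_le_sum (f := fun c : Cc X => max (if ω ∈ QC X.1 c.1 then
    mo (fun j => (ψ c j : UL 𝒰 L)) ω else 0) 0) (fun c _ => le_max_right _ _)
    (Finset.mem_univ (⟨c, hc⟩ : Cc X))
  refine h2.trans (le_trans ?_ h3)
  simp only [if_pos hω]
  rw [← hj2]
  exact le_max_left _ _

include hG hne g in
/-- **The inequality for divisors.** -/
theorem T1u (hred : IsReducedInCodimOne A G) : ∃ e : Om k L → ℤ, Ng 𝒰 Δ.χ (hp k X.1) e ∧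
    ∀ᶠ ω in EV 𝒰 k L, lam G d X.1 ω - (if 0 < lam G d X.1 ω then 1 else 0) ≤ e ω := by
  have hH := hp_nonneg X
  set ψ : (c : Cc X) → Fin (w + w) → RZ Δ.E (nz A X c.1) := fun c =>
    Fin.append (fun j => aeval (zR Δ.E (nz A X c.1)) (G j))
      (fun j => (g.sit c.2).DR (aeval (zR Δ.E (nz A X c.1)) (G j))) with hψ
  have hψl : ∀ c j, ψ c (Fin.castAdd w j) = aeval (zR Δ.E (nz A X c.1)) (G j) := fun c j => by
    simp only [hψ, Fin.append_left]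
  have hψr : ∀ c j, ψ c (Fin.natAdd w j) =
      (g.sit c.2).DR (aeval (zR Δ.E (nz A X c.1)) (G j)) := fun c j => by
    simp only [hψ, Fin.append_right]
  have hct : ∀ c : Cc X, Ng 𝒰 Δ.χ (hp k X.1) (fun ω : Om k L =>
      if ω ∈ QC X.1 c.1 then mo (fun j => (ψ c j : UL 𝒰 L)) ω else 0) := by
    intro c
    refine ctA g c.2 (ψ c) (fun m s0 hint 𝔭 h𝔭 h1 a0 => ?_) ?_
    · refine g.redI hG hred c.2 s0 hint 𝔭 h𝔭 (fun j => ?_) (fun j => ?_) ?_ a0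
      · rw [← hψl]; exact h1 _
      · rw [← hψr]; exact h1 _
      · obtain ⟨j, hj⟩ := hne
        exact ⟨j, (chart_iff hG c.2 j).1 hj⟩
    · obtain ⟨j, hj⟩ := hne
      exact ⟨Fin.castAdd w j, by rw [hψl]; exact (chart_iff hG c.2 j).1 hj⟩
  refine ⟨fun ω => ∑ c : Cc X, max (if ω ∈ QC X.1 c.1 then
    mo (fun j => (ψ c j : UL 𝒰 L)) ω else 0) 0 + |vo ω.2 (Δ.D ω.1)|,
    (Ng.sum Δ.nonneg hH Finset.univ fun c _ => (hct c).pos).add (Δ.vo_bd.ng hH), ?_⟩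
  have hder : ∀ᶠ ω in EV 𝒰 k L, ∀ (c : Cc X) (j : Fin w),
      uD Δ.D ((aeval (zR Δ.E (nz A X c.1)) (G j) : RZ Δ.E (nz A X c.1)) : UL 𝒰 L) = 0 ∨
      oo ((aeval (zR Δ.E (nz A X c.1)) (G j) : RZ Δ.E (nz A X c.1)) : UL 𝒰 L) ω - 1 -
        |vo ω.2 (Δ.D ω.1)| ≤
      oo (uD Δ.D ((aeval (zR Δ.E (nz A X c.1)) (G j) : RZ Δ.E (nz A X c.1)) : UL 𝒰 L)) ω :=
    eventually_all.2 fun c => eventually_all.2 fun j => EC.oo_uD_ge Δ _
  filter_upwards [eventually_all.2 fun c : Cc X => lam_chart (Δ := Δ) hG c.2, hder] with ω h1 hder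
  obtain ⟨c, hc, hω⟩ := exists_QC X ω
  obtain ⟨j0, hj0⟩ := hne
  have hvo := abs_nonneg (vo ω.2 (Δ.D ω.1))
  have hsum : 0 ≤ ∑ c : Cc X, max (if ω ∈ QC X.1 c.1 then
    mo (fun j => (ψ c j : UL 𝒰 L)) ω else 0) 0 := Finset.sum_nonneg fun c _ => le_max_right _ _
  by_cases hl : 0 < lam G d X.1 ω
  swap
  · rw [if_neg hl]
    linarith [not_lt.1 hl]
  rw [if_pos hl]
  obtain ⟨j, hj, hj2⟩ := exists_mo (fun j => (ψ ⟨c, hc⟩ j : UL 𝒰 L))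
    ⟨Fin.castAdd w j0, fun h => (chart_iff hG hc j0).1 hj0
      (Subtype.ext (by rw [← hψl ⟨c, hc⟩]; exact h))⟩ ω
  have h3 := Finset.single_le_sum (f := fun c : Cc X => max (if ω ∈ QC X.1 c.1 then
    mo (fun j => (ψ c j : UL 𝒰 L)) ω else 0) 0) (fun c _ => le_max_right _ _)
    (Finset.mem_univ (⟨c, hc⟩ : Cc X))
  have h5 : oo ((ψ ⟨c, hc⟩ j : RZ Δ.E (nz A X c)) : UL 𝒰 L) ω ≤
      ∑ c : Cc X, max (if ω ∈ QC X.1 c.1 then
        mo (fun j => (ψ c j : UL 𝒰 L)) ω else 0) 0 := by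
    refine le_trans ?_ h3
    simp only [if_pos hω]
    rw [← hj2]
    exact le_max_left _ _
  have h6 : lam G d X.1 ω - 1 - |vo ω.2 (Δ.D ω.1)| ≤
      oo ((ψ ⟨c, hc⟩ j : RZ Δ.E (nz A X c)) : UL 𝒰 L) ω := by
    induction j using Fin.addCases with
    | left j =>
      rw [hψl] at hj ⊢
      have h2 := h1 ⟨c, hc⟩ hω j (fun h => hj (by rw [h]; rfl))
      change lam G d X.1 ω ≤ oo ((aeval (zR Δ.E (nz A X c)) (G j) : RZ Δ.E (nz A X c)) :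
        UL 𝒰 L) ω at h2
      change lam G d X.1 ω - 1 - |vo ω.2 (Δ.D ω.1)| ≤
        oo ((aeval (zR Δ.E (nz A X c)) (G j) : RZ Δ.E (nz A X c)) : UL 𝒰 L) ω
      linarith
    | right j =>
      rw [hψr] at hj ⊢
      have hj' : uD Δ.D ((aeval (zR Δ.E (nz A X c)) (G j) : RZ Δ.E (nz A X c)) : UL 𝒰 L) ≠ 0 :=
        hj
      have hj'' : aeval (zR Δ.E (nz A X c)) (G j) ≠ 0 := by
        intro h
        apply hj'
        rw [h]
        exact map_zero _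
      have h2 := h1 ⟨c, hc⟩ hω j hj''
      have h7 := (hder ⟨c, hc⟩ j).resolve_left hj'
      change lam G d X.1 ω ≤ oo ((aeval (zR Δ.E (nz A X c)) (G j) : RZ Δ.E (nz A X c)) :
        UL 𝒰 L) ω at h2
      change oo ((aeval (zR Δ.E (nz A X c)) (G j) : RZ Δ.E (nz A X c)) : UL 𝒰 L) ω - 1 -
        |vo ω.2 (Δ.D ω.1)| ≤
        oo (uD Δ.D ((aeval (zR Δ.E (nz A X c)) (G j) : RZ Δ.E (nz A X c)) : UL 𝒰 L)) ω at h7
      change lam G d X.1 ω - 1 - |vo ω.2 (Δ.D ω.1)| ≤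
        oo (uD Δ.D ((aeval (zR Δ.E (nz A X c)) (G j) : RZ Δ.E (nz A X c)) : UL 𝒰 L)) ω
      linarith
  linarith

end Pool.Agent.K1H80.AV
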