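import Pool.Agent.K1H80.AV.Geo4
import Pool.Agent.K1H80.EC.Loc

/-!
# Generic points of abelian varieties in the ultraproduct
-/

set_option autoImplicit false
set_option linter.unusedSectionVars false
set_option linter.unusedVariables false

namespace Pool.Agent.K1H80.AV

open Pool.Agent.K1H80
open FF Filter MvPolynomial Module Pool.Agent.W603.LV Pool.Agent.W603.PV Pool.Agent.W603.CZ
open Pool.Agent.Y731.FG
open Pool.Agent.K1H80.EC (BQ mem_BQ)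
open scoped Classical

variable {I : Type} {𝒰 : Ultrafilter I} {k F : Type} [Field k] [IsAlgClosed k] [CharZero k]
  [Field F] [Algebra k F] {L : I → Type} [∀ i, Field (L i)] [∀ i, Algebra k (L i)]
  [∀ i, Algebra F (L i)] [∀ i, IsScalarTower k F (L i)]
  [∀ i, IsFF k (L i)] {Δ : Dt 𝒰 k F L} {N : ℕ} {A : AbelianVariety k N}

/-- the places where the coordinate `c` has the smallest order -/
def QC (X : Fin N → UL 𝒰 L) (c : Fin N) : Set (Om k L) := {ω | oo (X c) ω = mo X ω}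

theorem exists_QC (X : A.Co (UL 𝒰 L)) (ω : Om k L) : ∃ c, X.1 c ≠ 0 ∧ ω ∈ QC X.1 c := by
  obtain ⟨c0, hc0⟩ := X.2.1
  obtain ⟨c, hc, h⟩ := exists_mo X.1 ⟨c0, hc0.ne_zero⟩ ω
  exact ⟨c, hc, h⟩

/-- the quotients are integral -/
theorem nz_ord (X : A.Co (UL 𝒰 L)) {c : Fin N} (hc : X.1 c ≠ 0) (a : Fin N) :
    ∀ᶠ ω in EV 𝒰 k L, ω ∈ QC X.1 c → nz A X c a = 0 ∨ 0 ≤ oo (nz A X c a) ω := by
  by_cases ha : X.1 a = 0
  · refine Eventually.of_forall fun ω _ => Or.inl ?_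
    rw [nz, ha, mul_zero]
  filter_upwards [oo_mul (inv_ne_zero hc) ha, oo_inv (X.1 c)] with ω h1 h2 hω
  right
  rw [nz, h1, h2]
  have h3 : oo (X.1 c) ω = mo X.1 ω := hω
  have h4 := mo_le X.1 ha ω
  omega

/-- derivatives of integral elements -/
theorem der_mem {Q : Set (Om k L)} {y : UL 𝒰 L}
    (hy : ∀ᶠ ω in EV 𝒰 k L, ω ∈ Q → y = 0 ∨ 0 ≤ oo y ω) : uD Δ.D y ∈ BQ Δ Q := by
  rw [mem_BQ]
  refine ⟨fun ω => |vo ω.2 (Δ.D ω.1)|, Δ.vo_bd, fun ω => abs_nonneg _, ?_⟩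
  by_cases h0 : uD Δ.D y = 0
  · exact Eventually.of_forall fun ω _ => Or.inl h0
  by_cases hy0 : y = 0
  · exact absurd (by rw [hy0, map_zero]) h0
  rw [ev_iff] at hy ⊢
  have h1 : uD Δ.D y = um 𝒰 (fun i => Δ.D i (rep y i)) := by
    rw [← uD_um, um_rep]
  filter_upwards [rep_um (𝒰 := 𝒰) (fun i => Δ.D i (rep y i)), Δ.D_ne, rep_ne h0, hy] with i h2 h3 h4
    h5 P hP
  right
  have h6 : 0 ≤ P.ord (rep y i) := (h5 P hP).resolve_left hy0
  unfold oo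
  rw [h1] at h4 ⊢
  simp only at h4 ⊢
  rw [h2] at h4 ⊢
  have h7 := Pool.Agent.Y141.FG.ord_der_ge P h3 h4
  split_ifs at h7 <;> omega

/-- the coordinate ring of a chart is integral, up to bounded poles -/
theorem RZ_le (X : A.Co (UL 𝒰 L)) {c : Fin N} (hc : X.1 c ≠ 0) :
    RZ Δ.E (nz A X c) ≤ BQ Δ (QC X.1 c) := by
  refine Algebra.adjoin_le ?_
  rintro _ ⟨a, rfl⟩
  refine mem_BQ.2 ⟨fun _ => 0, Bd.zero Δ.nonneg, fun _ => le_refl _, ?_⟩
  filter_upwards [nz_ord X hc a] with ω h hω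
  simpa using h hω

/-- elements which are integral in all charts, up to bounded poles -/
theorem mem_E_of_charts (X : A.Co (UL 𝒰 L)) {u : UL 𝒰 L}
    (hu : ∀ c, X.1 c ≠ 0 → u ∈ BQ Δ (QC X.1 c)) : u ∈ Δ.E := by
  by_cases hu0 : u = 0
  · rw [hu0]; exact zero_mem _
  choose e he he0 h using fun c : {c : Fin N // X.1 c ≠ 0} => mem_BQ.1 (hu c c.2)
  refine EC.mem_E_of_bd (Δ := Δ) (e := fun ω => ∑ c, e c ω)
    (Bd.sum Δ.nonneg Finset.univ fun c _ => he c) ?_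
  filter_upwards [eventually_all.2 h] with ω h1
  have h2 : 0 ≤ ∑ c, e c ω := Finset.sum_nonneg fun c _ => he0 c ω
  refine max_le ?_ h2
  obtain ⟨c, hc, hω⟩ := exists_QC X ω
  have h3 := (h1 ⟨c, hc⟩ hω).resolve_left hu0
  have h4 : e ⟨c, hc⟩ ω ≤ ∑ c, e c ω :=
    Finset.single_le_sum (f := fun c => e c ω) (fun c _ => he0 c ω)
      (Finset.mem_univ (⟨c, hc⟩ : {c : Fin N // X.1 c ≠ 0}))
  linarith

/-- **The logarithmic derivative is small.** -/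
theorem WW_mem (X : A.Co (UL 𝒰 L)) (i : Fin A.dim) : WW X (uD Δ.D) i ∈ Δ.E := by
  refine mem_E_of_charts (Δ := Δ) X fun c hc => ?_
  rw [WW_sum X hc]
  refine sum_mem fun t _ => mul_mem (RZ_le X hc (aeval_mem_RZ _)) ?_
  exact der_mem (nz_ord X hc t)

/-- **The generic point.** -/
theorem gs_of (X : A.Co (UL 𝒰 L)) {b : Fin N} (hb : X.1 b ≠ 0) {a : Fin A.dim → Fin N}
    (hind : AlgebraicIndependent F (fun i => nz A X b (a i))) :
    Gs F Δ.E A (uD Δ.D) X where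
  hE := fun e => ⟨⟨_, (Pool.Agent.Y141.FG.ld Δ).1 _ e.2⟩, rfl⟩
  hC := fun z hz => ⟨⟨z, Pool.Agent.Y960.FG.mem_E_of_der hz⟩, rfl⟩
  hW := fun i => ⟨⟨_, WW_mem X i⟩, rfl⟩
  hinter := fun u hu => ⟨⟨u, mem_E_of_charts X fun c hc => RZ_le X hc (hu c hc)⟩, rfl⟩
  hgen := ⟨b, hb, a, hind⟩

end Pool.Agent.K1H80.AV
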